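import Pool.Agent.Y834.BF.Uni

/-!
# The logarithmic mean of a_p log p / p
-/

set_option autoImplicit false
set_option linter.all false

namespace Pool.Agent.Y834.BF

open Finset

/-! ### Sums over primes -/

lemma sq_mertens_aux : ∃ C : ℝ, 0 ≤ C ∧ ∀ N : ℕ, 1 ≤ N →
    |∑ p ∈ (Icc 1 N).filter Nat.Prime, Real.log p ^ 2 / p - 1 / 2 * Real.log N ^ 2| ≤
      C * Real.log N := by
  obtain ⟨C, hC⟩ := Pool.Agent.Helper923.HMertens.mertens_log
  have hC0 : 0 ≤ C := (abs_nonneg _).trans (hC 1 le_rfl)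
  set A : ℕ → ℝ := fun N => ∑ p ∈ (Icc 1 N).filter Nat.Prime, Real.log p / p with hA
  set B : ℕ → ℝ := fun N => ∑ p ∈ (Icc 1 N).filter Nat.Prime, Real.log p ^ 2 / p with hB
  have hstep : ∀ (f : ℕ → ℝ) (N : ℕ), ∑ p ∈ (Icc 1 (N + 1)).filter Nat.Prime, f p =
      ∑ p ∈ (Icc 1 N).filter Nat.Prime, f p + if (N + 1).Prime then f (N + 1) else 0 := by
    intro f N
    rw [sum_filter, sum_filter, sum_Icc_succ_top (by omega)]
  have hD : ∀ N : ℕ, 1 ≤ N → |B N - A N * Real.log N + 1 / 2 * Real.log N ^ 2| ≤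
      (C + 1) * Real.log N := by
    intro N hN
    induction N, hN using Nat.le_induction with
    | base =>
      have h1 : (Icc 1 1).filter Nat.Prime = ∅ := by decide
      simp only [hA, hB]
      rw [h1]
      simp
    | succ N hN ih =>
      have hN0 : (0 : ℝ) < N := by exact_mod_cast hN
      have hN1 : (1 : ℝ) ≤ N := by exact_mod_cast hN
      set a := Real.log N with ha
      set b := Real.log ((N + 1 : ℕ) : ℝ) with hb
      have hab : a ≤ b := by
        refine Real.log_le_log hN0 ?_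
        push_cast
        linarith
      have ha0 : 0 ≤ a := Real.log_nonneg hN1
      have hb1 : b - a ≤ 1 := by
        rw [hb, ha, ← Real.log_div (by positivity) hN0.ne']
        refine (Real.log_le_sub_one_of_pos (by positivity)).trans ?_
        rw [sub_le_iff_le_add, div_le_iff₀ hN0]
        push_cast
        linarith
      have e1 : B (N + 1) - A (N + 1) * b + 1 / 2 * b ^ 2 =
          (B N - A N * a + 1 / 2 * a ^ 2) + (b - a) * ((a - A N) + 1 / 2 * (b - a)) := by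
        have h1 : B (N + 1) = B N + if (N + 1).Prime then b ^ 2 / ((N + 1 : ℕ) : ℝ) else 0 :=
          hstep (fun p => Real.log p ^ 2 / p) N
        have h2 : A (N + 1) = A N + if (N + 1).Prime then b / ((N + 1 : ℕ) : ℝ) else 0 :=
          hstep (fun p => Real.log p / p) N
        rw [h1, h2]
        split_ifs <;> ring
      rw [e1]
      refine (abs_add_le _ _).trans ?_
      have h2 := abs_le.1 (hC N hN)
      have h3 : |(b - a) * ((a - A N) + 1 / 2 * (b - a))| ≤ (b - a) * (C + 1) := by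
        rw [abs_mul, abs_of_nonneg (by linarith)]
        refine mul_le_mul_of_nonneg_left ?_ (by linarith)
        rw [abs_le]
        constructor
        · linarith [h2.2]
        · linarith [h2.1]
      have h4 : (C + 1) * b = (C + 1) * a + (b - a) * (C + 1) := by ring
      linarith
  refine ⟨2 * C + 1, by positivity, fun N hN => ?_⟩
  have h1 := hD N hN
  have h2 := hC N hN
  have hN1 : (1 : ℝ) ≤ N := by exact_mod_cast hN
  have hl : 0 ≤ Real.log N := Real.log_nonneg hN1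
  have h3 : B N - 1 / 2 * Real.log N ^ 2 = (B N - A N * Real.log N + 1 / 2 * Real.log N ^ 2) +
      (A N - Real.log N) * Real.log N := by ring
  change |B N - 1 / 2 * Real.log N ^ 2| ≤ _
  rw [h3]
  refine (abs_add_le _ _).trans ?_
  have h4 : |(A N - Real.log N) * Real.log N| ≤ C * Real.log N := by
    rw [abs_mul, abs_of_nonneg hl]
    exact mul_le_mul_of_nonneg_right h2 hl
  linarith

lemma log_pos_of {x : ℕ} (hx : 5 ≤ x) : 1 ≤ Real.log x := by
  have h5 : (5 : ℝ) ≤ x := by exact_mod_cast hx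
  rw [Real.le_log_iff_exp_le (by linarith)]
  have := Real.exp_one_lt_d9
  linarith

lemma sq_mertens : ∃ C : ℝ, 0 ≤ C ∧ ∀ x : ℕ, 5 ≤ x →
    |∑ l ∈ pr x, Real.log l ^ 2 / l - 1 / 2 * Real.log x ^ 2| ≤ C * Real.log x := by
  obtain ⟨C, hC0, hC⟩ := sq_mertens_aux
  set c : ℝ := ∑ p ∈ (Icc 1 4).filter Nat.Prime, Real.log p ^ 2 / p with hc
  have hc0 : 0 ≤ c := sum_nonneg fun p _ => by positivity
  refine ⟨C + c, by positivity, fun x hx => ?_⟩
  have h1 := hC x (by omega)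
  have h2 : ∑ p ∈ (Icc 1 x).filter Nat.Prime, Real.log p ^ 2 / p =
      c + ∑ l ∈ pr x, Real.log l ^ 2 / l := by
    rw [hc]
    unfold pr
    rw [← sum_union]
    · congr 1
      ext l
      simp only [mem_filter, mem_union, mem_Icc, mem_Ioc]
      constructor
      · rintro ⟨⟨h3, h4⟩, h5⟩
        rcases Nat.lt_or_ge 4 l with h | h
        · exact Or.inr ⟨⟨h, h4⟩, h5⟩
        · exact Or.inl ⟨⟨h3, h⟩, h5⟩
      · rintro (⟨⟨h3, h4⟩, h5⟩ | ⟨⟨h3, h4⟩, h5⟩)
        · exact ⟨⟨h3, by omega⟩, h5⟩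
        · exact ⟨⟨by omega, h4⟩, h5⟩
    · rw [disjoint_left]
      intro l h3 h4
      simp only [mem_filter, mem_Icc, mem_Ioc] at h3 h4
      omega
  rw [h2] at h1
  have h3 := log_pos_of hx
  have h4 := abs_le.1 h1
  have h5 : c ≤ c * Real.log x := by nlinarith
  rw [abs_le]
  constructor <;> nlinarith [h4.1, h4.2]

lemma sum_L_le : ∃ C : ℝ, 0 ≤ C ∧ ∀ s : Finset ℕ, (∀ l ∈ s, 1 ≤ l) →
    ∑ l ∈ s, Real.log l / ((l : ℝ) * Real.sqrt l) ≤ C := by
  have h1 : Summable (fun l : ℕ => 4 * (1 / (l : ℝ) ^ (5 / 4 : ℝ))) :=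
    (Real.summable_one_div_nat_rpow.2 (by norm_num)).mul_left 4
  refine ⟨∑' l : ℕ, 4 * (1 / (l : ℝ) ^ (5 / 4 : ℝ)), tsum_nonneg fun l => by positivity,
    fun s hs => ?_⟩
  refine le_trans (sum_le_sum fun l hl => ?_) (h1.sum_le_tsum s fun l _ => by positivity)
  have hl0 : (0 : ℝ) < l := by
    have := hs l hl
    exact_mod_cast this
  have h2 : Real.log l ≤ (l : ℝ) ^ (1 / 4 : ℝ) / (1 / 4) := Real.log_le_rpow_div hl0.le (by norm_num)
  have h3 : (l : ℝ) * Real.sqrt l = (l : ℝ) ^ (3 / 2 : ℝ) := by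
    rw [Real.sqrt_eq_rpow]
    nth_rewrite 1 [← Real.rpow_one (l : ℝ)]
    rw [← Real.rpow_add hl0]
    norm_num
  rw [h3, div_le_iff₀ (by positivity)]
  have h4 : 4 * (1 / (l : ℝ) ^ (5 / 4 : ℝ)) * (l : ℝ) ^ (3 / 2 : ℝ) = 4 * (l : ℝ) ^ (1 / 4 : ℝ) := by
    rw [mul_assoc, one_div, ← Real.rpow_neg hl0.le, ← Real.rpow_add hl0]
    norm_num
  rw [h4]
  linarith

/-! ### The weighted sums -/

/-- the weight -/
noncomputable def ww (x l : ℕ) : ℝ := Real.log l / Real.log x

lemma ww_pos {x l : ℕ} (hl : l ∈ pr x) : 0 < ww x l := by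
  rw [mem_pr] at hl
  have h1 := log_pos_of hl.1
  have h2 := log_pos_of (hl.1.trans hl.2.1)
  unfold ww
  positivity

lemma ww_le {x l : ℕ} (hl : l ∈ pr x) : ww x l ≤ 1 := by
  rw [mem_pr] at hl
  have h1 := log_pos_of hl.1
  have h2 := log_pos_of (hl.1.trans hl.2.1)
  unfold ww
  rw [div_le_one (by linarith)]
  have h3 : (5 : ℝ) ≤ l := by exact_mod_cast hl.1
  have h4 : (l : ℝ) ≤ x := by exact_mod_cast hl.2.1
  exact Real.log_le_log (by linarith) h4

lemma famw (a : ℤ) (x : ℕ) : Fam (pr x) (fun l n => ww x l * FF a l n)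
    (fun l => 2 * ww x l / Real.sqrt l) := by
  have hprm : ∀ l ∈ pr x, l.Prime ∧ 5 ≤ l := fun l hl => by
    rw [mem_pr] at hl
    exact ⟨hl.2.2, hl.1⟩
  refine ⟨fun p hp => (hprm p hp).1, fun p hp n => ?_, fun p hp => ?_, fun p hp n => ?_,
    fun p hp => ?_⟩
  · rw [per_FF a p n]
  · rw [mean_const_mul]
    have := mean_FF a (hprm p hp).1 (hprm p hp).2
    rw [this, mul_zero]
  · have h1 := ww_pos hp
    have h2 := abs_FF_le a n (hprm p hp).1 (hprm p hp).2
    rw [abs_mul, abs_of_pos h1]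
    calc ww x p * |FF a p n| ≤ ww x p * (2 / Real.sqrt p) := by gcongr
      _ = 2 * ww x p / Real.sqrt p := by ring
  · have h1 := ww_pos hp
    have : (0 : ℝ) < p := by exact_mod_cast (hprm p hp).1.pos
    positivity

lemma sum_ww_sq : ∃ C : ℝ, 0 ≤ C ∧ ∀ x : ℕ, 5 ≤ x →
    |∑ l ∈ pr x, ww x l ^ 2 / l - 1 / 2| ≤ C / Real.log x := by
  obtain ⟨C, hC0, hC⟩ := sq_mertens
  refine ⟨C, hC0, fun x hx => ?_⟩
  have h1 := hC x hx
  have h2 := log_pos_of hx
  have hL : 0 < Real.log x := by linarith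
  have h3 : ∑ l ∈ pr x, ww x l ^ 2 / l - 1 / 2 =
      (∑ l ∈ pr x, Real.log l ^ 2 / l - 1 / 2 * Real.log x ^ 2) / Real.log x ^ 2 := by
    rw [sub_div, sum_div]
    congr 1
    · refine sum_congr rfl fun l _ => ?_
      unfold ww
      field_simp
    · field_simp
  rw [h3, abs_div, abs_of_pos (by positivity : 0 < Real.log x ^ 2),
    div_le_div_iff₀ (by positivity) hL]
  calc |∑ l ∈ pr x, Real.log l ^ 2 / l - 1 / 2 * Real.log x ^ 2| * Real.log x ≤
        (C * Real.log x) * Real.log x := by gcongr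
    _ = C * Real.log x ^ 2 := by ring

lemma sum_ww_small : ∃ C : ℝ, 0 ≤ C ∧ ∀ x : ℕ, 5 ≤ x →
    ∑ l ∈ pr x, ww x l / ((l : ℝ) * Real.sqrt l) ≤ C / Real.log x := by
  obtain ⟨C, hC0, hC⟩ := sum_L_le
  refine ⟨C, hC0, fun x hx => ?_⟩
  have h1 := hC (pr x) (fun l hl => by
    rw [mem_pr] at hl
    omega)
  have h2 := log_pos_of hx
  have hL : 0 < Real.log x := by linarith
  have h3 : ∑ l ∈ pr x, ww x l / ((l : ℝ) * Real.sqrt l) =
      (∑ l ∈ pr x, Real.log l / ((l : ℝ) * Real.sqrt l)) / Real.log x := by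
    rw [sum_div]
    refine sum_congr rfl fun l _ => ?_
    unfold ww
    ring
  rw [h3]
  gcongr

/-- the sum of `log p / p` over the prime divisors -/
noncomputable def oml (a : ℤ) : ℝ := ∑ l ∈ a.natAbs.primeFactors, Real.log l / (l : ℝ)

lemma oml_nonneg (a : ℤ) : 0 ≤ oml a := by
  unfold oml
  refine sum_nonneg fun l hl => ?_
  have h1 : (1 : ℝ) ≤ l := by exact_mod_cast (Nat.prime_of_mem_primeFactors hl).one_lt.le
  have := Real.log_nonneg h1
  positivity

/-- the variance -/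
lemma var_w : ∃ C : ℝ, 0 ≤ C ∧ ∀ a : ℤ, a ≠ 0 → ∀ x : ℕ, 5 ≤ x →
    |∑ l ∈ pr x, mean l (fun n => (ww x l * FF a l n) ^ 2) - 1 / 2| ≤
      (C + 4 * oml a) / Real.log x := by
  classical
  obtain ⟨C1, hC10, hC1⟩ := sum_ww_sq
  obtain ⟨C2, hC20, hC2⟩ := sum_ww_small
  refine ⟨C1 + 3 * C2, by positivity, fun a ha x hx => ?_⟩
  have hprm : ∀ l ∈ pr x, l.Prime ∧ 5 ≤ l := fun l hl => by
    rw [mem_pr] at hl
    exact ⟨hl.2.2, hl.1⟩
  have hL : 0 < Real.log x := by linarith [log_pos_of hx]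
  have e1 : ∀ l ∈ pr x, mean l (fun n => (ww x l * FF a l n) ^ 2) = ww x l ^ 2 * EE a l := by
    intro l _
    have h1 : (fun n : ℤ => (ww x l * FF a l n) ^ 2) = fun n => ww x l ^ 2 * (FF a l n) ^ 2 := by
      funext n
      ring
    rw [h1, mean_const_mul]
    rfl
  rw [sum_congr rfl e1]
  have e2 : ∑ l ∈ pr x, ww x l ^ 2 * EE a l - 1 / 2 =
      ∑ l ∈ pr x, ww x l ^ 2 * (EE a l - 1 / l) + (∑ l ∈ pr x, ww x l ^ 2 / l - 1 / 2) := by
    rw [← add_sub_assoc, ← sum_add_distrib]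
    congr 1
    refine sum_congr rfl fun l _ => ?_
    ring
  rw [e2]
  refine (abs_add_le _ _).trans ?_
  have e3 := hC1 x hx
  have e4 : |∑ l ∈ pr x, ww x l ^ 2 * (EE a l - 1 / l)| ≤ (3 * C2 + 4 * oml a) / Real.log x := by
    refine (abs_sum_le_sum_abs _ _).trans ?_
    have h1 : ∀ l ∈ pr x, |ww x l ^ 2 * (EE a l - 1 / l)| ≤
        3 * (ww x l / ((l : ℝ) * Real.sqrt l)) +
        (if l ∣ a.natAbs then 4 * (Real.log l / (l : ℝ)) / Real.log x else 0) := by
      intro l hl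
      obtain ⟨hp, h5⟩ := hprm l hl
      haveI := Fact.mk hp
      have hl0 : (0 : ℝ) < l := by exact_mod_cast hp.pos
      have hw0 := ww_pos hl
      have hw1 := ww_le hl
      have hw2 : ww x l ^ 2 ≤ ww x l := by nlinarith
      have hll := log_pos_of h5
      rw [abs_mul, abs_of_nonneg (sq_nonneg _)]
      split_ifs with hd
      · have h2 := EE_nonneg a l
        have h3 := EE_le (a := a) hp h5
        have h7 : 0 < 1 / (l : ℝ) := by positivity
        have h9 : 4 / (l : ℝ) = 4 * (1 / l) := by ring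
        have h8 : |EE a l - 1 / l| ≤ 4 * (1 / l) := by
          rw [abs_le]
          constructor <;> linarith
        have h10 : 0 ≤ 3 * (ww x l / ((l : ℝ) * Real.sqrt l)) := by positivity
        have h11 : ww x l ^ 2 * |EE a l - 1 / l| ≤ ww x l * (4 * (1 / l)) := by gcongr
        have h12 : ww x l * (4 * (1 / (l : ℝ))) = 4 * (Real.log l / (l : ℝ)) / Real.log x := by
          unfold ww
          field_simp
        linarith
      · have hd' : ¬ ((l : ℤ) ∣ a) := by rwa [Int.natCast_dvd]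
        have h2 := mean_ap_sq h5 hd'
        rw [add_zero]
        have hs0 : 0 < Real.sqrt l := Real.sqrt_pos.2 hl0
        have h3 : Real.sqrt l ≤ l := by
          rw [Real.sqrt_le_left hl0.le]
          have : (5 : ℝ) ≤ l := by exact_mod_cast h5
          nlinarith
        have h4 : (l : ℝ) * Real.sqrt l ≤ (l : ℝ) ^ 2 := by
          rw [sq]
          exact mul_le_mul_of_nonneg_left h3 hl0.le
        have h6 : |EE a l - 1 / l| ≤ 3 / ((l : ℝ) * Real.sqrt l) := by
          refine h2.trans ?_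
          gcongr
        calc ww x l ^ 2 * |EE a l - 1 / l| ≤ ww x l * (3 / ((l : ℝ) * Real.sqrt l)) := by gcongr
          _ = 3 * (ww x l / ((l : ℝ) * Real.sqrt l)) := by ring
    refine (sum_le_sum h1).trans ?_
    rw [sum_add_distrib, ← mul_sum, add_div]
    have h2 := hC2 x hx
    have h3 : ∑ l ∈ pr x, (if l ∣ a.natAbs then 4 * (Real.log l / (l : ℝ)) / Real.log x else 0) ≤
        4 * oml a / Real.log x := by
      rw [← sum_filter, ← sum_div, ← mul_sum]
      unfold oml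
      refine div_le_div_of_nonneg_right ?_ hL.le
      refine mul_le_mul_of_nonneg_left ?_ (by norm_num)
      refine sum_le_sum_of_subset_of_nonneg ?_ fun l hl _ => ?_
      · intro l hl
        rw [mem_filter] at hl
        exact Nat.mem_primeFactors.2 ⟨(hprm l hl.1).1, hl.2, Int.natAbs_ne_zero.2 ha⟩
      · have h1 : (1 : ℝ) ≤ l := by exact_mod_cast (Nat.prime_of_mem_primeFactors hl).one_lt.le
        have := Real.log_nonneg h1
        positivity
    have h4 : 3 * (C2 / Real.log x) = 3 * C2 / Real.log x := by ring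
    linarith
  have e5 : (C1 + 3 * C2 + 4 * oml a) / Real.log x =
      (3 * C2 + 4 * oml a) / Real.log x + C1 / Real.log x := by ring
  rw [e5]
  exact add_le_add e4 e3

/-! ### The quantity and the difference -/

/-- `(log x)⁻¹ ∑ a_p log p / p` over the primes `p ≤ x`, `p ∤ 16(4a³+27n²)` -/
noncomputable def RR (a n : ℤ) (x : ℕ) : ℝ :=
  (∑ p ∈ (Ioc 0 x).filter (fun p : ℕ => p.Prime ∧ ¬ ((p : ℤ) ∣ 16 * (4 * a ^ 3 + 27 * n ^ 2))),
    ap a n p * Real.log p / p) / Real.log x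

noncomputable def WW (a n : ℤ) (x : ℕ) : ℝ := ∑ l ∈ pr x, ww x l * FF a l n

open Classical in
noncomputable def BB (a n : ℤ) (x : ℕ) : ℝ :=
  ∑ l ∈ pr x, if ((l : ℤ) ∣ 4 * a ^ 3 + 27 * n ^ 2) then 2 * ww x l / Real.sqrt l else 0

lemma RR_sub (a n : ℤ) {x : ℕ} (hx : 5 ≤ x) : |RR a n x - WW a n x| ≤ BB a n x + 4 / Real.log x := by
  classical
  have hL : 0 < Real.log x := by linarith [log_pos_of hx]
  have hprm : ∀ l ∈ pr x, l.Prime ∧ 5 ≤ l := fun l hl => by
    rw [mem_pr] at hl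
    exact ⟨hl.2.2, hl.1⟩
  set disc : ℤ := 4 * a ^ 3 + 27 * n ^ 2 with hdisc
  set G := (Ioc 0 x).filter (fun l : ℕ => l.Prime ∧ ¬ ((l : ℤ) ∣ 16 * disc)) with hG
  set gd := (pr x).filter (fun l : ℕ => ¬ ((l : ℤ) ∣ disc)) with hgd
  have h2 : G.filter (fun l : ℕ => 5 ≤ l) = gd := by
    ext l
    simp only [hG, hgd, mem_filter, mem_Ioc, mem_pr]
    constructor
    · rintro ⟨⟨⟨h3, h4⟩, h5, h6⟩, h7⟩
      refine ⟨⟨h7, h4, h5⟩, fun h8 => h6 (h8.mul_left _)⟩
    · rintro ⟨⟨h3, h4, h5⟩, h6⟩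
      refine ⟨⟨⟨by omega, h4⟩, h5, fun h7 => ?_⟩, h3⟩
      have h8 : Prime (l : ℤ) := Nat.prime_iff_prime_int.1 h5
      rcases h8.dvd_or_dvd h7 with h9 | h9
      · have h10 : l ∣ 16 := by exact_mod_cast h9
        have h11 : l ∣ 2 ^ 4 := by norm_num; exact h10
        have h12 := h5.dvd_of_dvd_pow h11
        have := Nat.le_of_dvd (by norm_num) h12
        omega
      · exact h6 h9
  have h3 : G.filter (fun l : ℕ => ¬ 5 ≤ l) ⊆ {3} := by
    intro l hl
    simp only [hG, mem_filter, mem_Ioc] at hl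
    obtain ⟨⟨⟨h3, h4⟩, h5, h6⟩, h7⟩ := hl
    rw [mem_singleton]
    have h8 : l < 5 := by omega
    interval_cases l
    · exact absurd h5 (by norm_num)
    · exact absurd (by exact_mod_cast (show (2 : ℤ) ∣ 16 * disc from
        ⟨8 * disc, by ring⟩)) h6
    · rfl
    · exact absurd h5 (by norm_num)
  have hlog3 : Real.log 3 ≤ 3 / 2 := by
    rw [Real.log_le_iff_le_exp (by norm_num)]
    have h1 : Real.exp (3 / 2) = Real.exp 1 * Real.exp (1 / 2) := by
      rw [← Real.exp_add]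
      norm_num
    have h2 := Real.exp_one_gt_d9
    have h3 := Real.add_one_le_exp (1 / 2 : ℝ)
    rw [h1]
    nlinarith [Real.exp_pos 1]
  have hlog30 : 0 ≤ Real.log 3 := Real.log_nonneg (by norm_num)
  have h4 : |∑ l ∈ G.filter (fun l : ℕ => ¬ 5 ≤ l), ap a n l * Real.log l / l| ≤ 4 := by
    rcases subset_singleton_iff.1 h3 with h4 | h4
    · rw [h4]
      simp
    · rw [h4, sum_singleton]
      haveI : Fact (Nat.Prime 3) := ⟨by norm_num⟩
      have h5 := abs_ap_le (by norm_num : (3 : ℕ) ≠ 2) a n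
      have h6 : Real.sqrt ((3 : ℕ) : ℝ) ≤ 2 := by
        rw [Real.sqrt_le_left (by norm_num)]
        norm_num
      rw [abs_div, abs_mul]
      push_cast at h5 h6 ⊢
      rw [abs_of_nonneg hlog30, abs_of_pos (by norm_num : (0 : ℝ) < 3),
        div_le_iff₀ (by norm_num)]
      have h7 : |ap a n 3| ≤ 4 := by linarith
      have h8 := abs_nonneg (ap a n 3)
      nlinarith
  have h5 : ∑ l ∈ G, ap a n l * Real.log l / l =
      ∑ l ∈ gd, ap a n l * Real.log l / l +
        ∑ l ∈ G.filter (fun l : ℕ => ¬ 5 ≤ l), ap a n l * Real.log l / l := by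
    rw [← h2]
    exact (sum_filter_add_sum_filter_not _ _ _).symm
  have h6 : WW a n x = (∑ l ∈ gd, ap a n l * Real.log l / l) / Real.log x +
      ∑ l ∈ (pr x).filter (fun l : ℕ => ((l : ℤ) ∣ disc)), ww x l * FF a l n := by
    unfold WW
    rw [← sum_filter_add_sum_filter_not (pr x) (fun l : ℕ => ((l : ℤ) ∣ disc)), add_comm]
    congr 1
    rw [sum_div]
    refine sum_congr rfl fun l _ => ?_
    unfold ww FF
    ring
  have h7 : |∑ l ∈ (pr x).filter (fun l : ℕ => ((l : ℤ) ∣ disc)), ww x l * FF a l n| ≤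
      BB a n x := by
    refine (abs_sum_le_sum_abs _ _).trans ?_
    unfold BB
    rw [← sum_filter]
    refine sum_le_sum fun l hl => ?_
    obtain ⟨h8, h9⟩ := hprm l (mem_filter.1 hl).1
    have h10 := ww_pos (mem_filter.1 hl).1
    have h11 := abs_FF_le a n h8 h9
    rw [abs_mul, abs_of_pos h10]
    calc ww x l * |FF a l n| ≤ ww x l * (2 / Real.sqrt l) := by gcongr
      _ = 2 * ww x l / Real.sqrt l := by ring
  have h8 : RR a n x = (∑ l ∈ G, ap a n l * Real.log l / l) / Real.log x := rfl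
  rw [h8, h5, h6, add_div]
  have h9 : ∀ u v w : ℝ, u + v - (u + w) = v - w := fun u v w => by ring
  rw [h9]
  refine (abs_sub _ _).trans ?_
  rw [abs_div, abs_of_pos hL]
  have h10 : |∑ l ∈ G.filter (fun l : ℕ => ¬ 5 ≤ l), ap a n l * Real.log l / l| / Real.log x ≤
      4 / Real.log x := by gcongr
  linarith

lemma iav_BB : ∃ C : ℝ, 0 ≤ C ∧ ∀ (a : ℤ) (x : ℕ), 5 ≤ x → ∀ (M : ℤ) (H : ℕ), x ^ 2 ≤ H →
    iav M H (fun n => BB a n x) ≤ C / Real.log x := by
  classical
  obtain ⟨C, hC0, hC⟩ := sum_ww_small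
  refine ⟨8 * C, by positivity, fun a x hx M H hH => ?_⟩
  have h1 : (fun n : ℤ => BB a n x) = fun n => ∑ l ∈ pr x, (2 * ww x l / Real.sqrt l) *
      (if ((l : ℤ) ∣ 4 * a ^ 3 + 27 * n ^ 2) then (1 : ℝ) else 0) := by
    funext n
    unfold BB
    refine sum_congr rfl fun l _ => ?_
    split_ifs <;> ring
  rw [h1, iav_sum (pr x) M H (fun (l : ℕ) (n : ℤ) => (2 * ww x l / Real.sqrt l) *
      (if ((l : ℤ) ∣ 4 * a ^ 3 + 27 * n ^ 2) then (1 : ℝ) else 0))]
  have h0 : 8 * C / Real.log x = 8 * (C / Real.log x) := by ring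
  rw [h0]
  refine le_trans ?_ (mul_le_mul_of_nonneg_left (hC x hx) (by norm_num))
  rw [mul_sum]
  refine sum_le_sum fun l hl' => ?_
  have hl := hl'
  rw [mem_pr] at hl
  rw [iav_const_mul]
  have hl0 : (0 : ℝ) < l := by exact_mod_cast hl.2.2.pos
  have hs0 : 0 < Real.sqrt l := Real.sqrt_pos.2 hl0
  have hw := ww_pos hl'
  have h2 := iav_bad a hl.2.2 hl.1 M ((Nat.pow_le_pow_left hl.2.1 2).trans hH)
  calc 2 * ww x l / Real.sqrt l * iav M H (fun n => if ((l : ℤ) ∣ 4 * a ^ 3 + 27 * n ^ 2)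
        then (1 : ℝ) else 0) ≤ 2 * ww x l / Real.sqrt l * (4 / l) := by gcongr
    _ = 8 * (ww x l / (l * Real.sqrt l)) := by
      field_simp
      ring

end Pool.Agent.Y834.BF
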