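import Pool.Agent.Y834.BF.Ap

/-!
# The limit law of the logarithmic mean of a_p log p / p
-/

set_option autoImplicit false
set_option linter.all false

namespace Pool.Agent.Y834.BF

open Finset MeasureTheory ProbabilityTheory Filter Topology

lemma c_bounds {a : ℤ} {x l : ℕ} (hl : l ∈ pr x) :
    2 * ww x l / Real.sqrt l ≤ 4 ∧
    (2 * ww x l / Real.sqrt l) ^ 2 = 4 * (ww x l ^ 2 / l) ∧
    (2 * ww x l / Real.sqrt l) ^ 3 ≤ 8 * (ww x l / ((l : ℝ) * Real.sqrt l)) ∧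
    ((2 * ww x l / Real.sqrt l) ^ 2) ^ 2 ≤ 16 * (ww x l / ((l : ℝ) * Real.sqrt l)) := by
  have hw0 := ww_pos hl
  have hw1 := ww_le hl
  rw [mem_pr] at hl
  have hl0 : (0 : ℝ) < l := by exact_mod_cast hl.2.2.pos
  have hl1 : (1 : ℝ) ≤ l := by exact_mod_cast hl.2.2.one_lt.le
  have hs0 : 0 < Real.sqrt l := Real.sqrt_pos.2 hl0
  have hs1 : 1 ≤ Real.sqrt l := by
    rw [Real.one_le_sqrt]
    exact hl1
  have hs2 : Real.sqrt l ^ 2 = l := Real.sq_sqrt hl0.le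
  have hs3 : Real.sqrt l ≤ l := by
    rw [Real.sqrt_le_left hl0.le]
    nlinarith
  have hw2 : ww x l ^ 2 ≤ 1 := pow_le_one₀ hw0.le hw1
  have e2 : (2 * ww x l / Real.sqrt l) ^ 2 = 4 * (ww x l ^ 2 / l) := by
    rw [div_pow, mul_pow, hs2]
    ring
  refine ⟨?_, e2, ?_, ?_⟩
  · rw [div_le_iff₀ hs0]
    nlinarith
  · have h1 : (2 * ww x l / Real.sqrt l) ^ 3 = 8 * (ww x l ^ 3 / ((l : ℝ) * Real.sqrt l)) := by
      rw [div_pow, mul_pow, show Real.sqrt (l : ℝ) ^ 3 = Real.sqrt l ^ 2 * Real.sqrt l by ring, hs2]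
      ring
    rw [h1]
    have h2 : ww x l ^ 3 ≤ ww x l := by
      have : ww x l ^ 3 = ww x l ^ 2 * ww x l := by ring
      rw [this]
      nlinarith
    gcongr
  · rw [e2]
    have h1 : (4 * (ww x l ^ 2 / (l : ℝ))) ^ 2 = 16 * (ww x l ^ 4 / (l : ℝ) ^ 2) := by ring
    rw [h1]
    have h2 : ww x l ^ 4 ≤ ww x l := by
      have : ww x l ^ 4 = ww x l ^ 3 * ww x l := by ring
      rw [this]
      have h3 : ww x l ^ 3 ≤ 1 := pow_le_one₀ hw0.le hw1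
      nlinarith
    have h4 : (l : ℝ) * Real.sqrt l ≤ (l : ℝ) ^ 2 := by
      rw [sq]
      exact mul_le_mul_of_nonneg_left hs3 hl0.le
    gcongr

lemma err_w1 {θ : ℝ} {K x H : ℕ} (hx : 5 ≤ x) (hH : x ^ (3 * K + 1) ≤ H) :
    2 * Real.exp |θ| * (2 * (4 * (x : ℝ) ^ 2) ^ K / H) ≤ 4 * Real.exp |θ| / Real.log x := by
  have hx5 : (5 : ℝ) ≤ x := by exact_mod_cast hx
  have hx0 : (0 : ℝ) < x := by linarith
  have h1 : (x : ℝ) ^ (3 * K + 1) ≤ H := by exact_mod_cast hH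
  have hHr : (0 : ℝ) < H := lt_of_lt_of_le (by positivity) h1
  have hL : 0 < Real.log x := by linarith [log_pos_of hx]
  have hLx : Real.log x ≤ x := Real.log_le_self hx0.le
  have h2 : (4 * (x : ℝ) ^ 2) ^ K ≤ (x : ℝ) ^ (3 * K) := by
    rw [pow_mul]
    refine pow_le_pow_left₀ (by positivity) ?_ K
    nlinarith [sq_nonneg (x : ℝ)]
  have h3 : (4 * (x : ℝ) ^ 2) ^ K / H ≤ 1 / Real.log x := by
    rw [div_le_div_iff₀ hHr hL, one_mul]
    calc (4 * (x : ℝ) ^ 2) ^ K * Real.log x ≤ (x : ℝ) ^ (3 * K) * x := by gcongr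
      _ = (x : ℝ) ^ (3 * K + 1) := by rw [pow_succ]
      _ ≤ H := h1
  have h4 : 2 * Real.exp |θ| * (2 * (4 * (x : ℝ) ^ 2) ^ K / H) =
      4 * Real.exp |θ| * ((4 * (x : ℝ) ^ 2) ^ K / H) := by ring
  have h5 : 4 * Real.exp |θ| / Real.log x = 4 * Real.exp |θ| * (1 / Real.log x) := by ring
  rw [h4, h5]
  gcongr

/-- the characteristic function converges to that of the normal law of variance `1/2` -/
theorem charfn2 {κ : ℝ} (hκ : 0 ≤ κ) (θ : ℝ) {ε : ℝ} (hε : 0 < ε) : ∃ X0 : ℕ, 5 ≤ X0 ∧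
    ∀ x : ℕ, X0 ≤ x → ∀ a : ℤ, a ≠ 0 → oml a ≤ κ → ∀ (M : ℤ) (H : ℕ), x ^ X0 ≤ H →
      ‖iav M H (fun n => Complex.exp (((θ * RR a n x : ℝ) : ℂ) * Complex.I)) -
        ((Real.exp (-(θ ^ 2 / 4)) : ℝ) : ℂ)‖ ≤ ε := by
  obtain ⟨CW, hCW0, hCW⟩ := sum_ww_sq
  obtain ⟨CS, hCS0, hCS⟩ := sum_ww_small
  obtain ⟨CV, hCV0, hCV⟩ := var_w
  obtain ⟨CB, hCB0, hCB⟩ := iav_BB
  obtain ⟨Λ, hΛ⟩ : ∃ Λ : ℝ, Λ = 2 * (|θ| + 1) := ⟨_, rfl⟩
  have hΛ0 : 0 < Λ := by rw [hΛ]; positivity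
  obtain ⟨E, hE⟩ : ∃ E : ℝ, E = Real.exp (Λ ^ 2 / 2 * (2 + 4 * CW)) := ⟨_, rfl⟩
  have hE0 : 0 < E := by rw [hE]; exact Real.exp_pos _
  obtain ⟨K, hKe, hKε⟩ : ∃ K : ℕ, Even K ∧ 4 * (1 / 2 : ℝ) ^ K * E ≤ ε / 2 := by
    obtain ⟨k0, hk0⟩ := exists_pow_lt_of_lt_one
      (show 0 < ε / 2 / (4 * E) by positivity) (by norm_num : (1 / 2 : ℝ) < 1)
    refine ⟨2 * (k0 + 1), ⟨k0 + 1, by omega⟩, ?_⟩
    have h1 : (1 / 2 : ℝ) ^ (2 * (k0 + 1)) ≤ (1 / 2 : ℝ) ^ k0 :=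
      pow_le_pow_of_le_one (by norm_num) (by norm_num) (by omega)
    have h2 := h1.trans hk0.le
    rw [le_div_iff₀ (by positivity)] at h2
    linarith
  obtain ⟨G, hG⟩ : ∃ G : ℝ, G = 4 * Real.exp |θ| + (2 * |θ| ^ 3 + 2 * θ ^ 4) * CS +
    θ ^ 2 * (CV + 4 * κ) + |θ| * (CB + 4) := ⟨_, rfl⟩
  have hG0 : 0 ≤ G := by rw [hG]; positivity
  obtain ⟨x1, hx1⟩ := exists_nat_ge (Real.exp (G / (ε / 2)))
  refine ⟨x1 + (3 * K + 1) + 5, by omega, fun x hx a ha hom M H hH => ?_⟩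
  have h5x : 5 ≤ x := by omega
  have hx0 : (0 : ℝ) < x := by
    have : 0 < x := by omega
    exact_mod_cast this
  have hL : 0 < Real.log x := by linarith [log_pos_of h5x]
  have hL1 : 1 ≤ Real.log x := log_pos_of h5x
  have hGL : G / Real.log x ≤ ε / 2 := by
    have h1 : Real.exp (G / (ε / 2)) ≤ x := by
      refine hx1.trans ?_
      have : x1 ≤ x := by omega
      exact_mod_cast this
    have h2 := (Real.le_log_iff_exp_le hx0).2 h1
    rw [div_le_iff₀ (by positivity)] at h2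
    rw [div_le_iff₀ hL]
    linarith
  have hHK : x ^ (3 * K + 1) ≤ H := by
    refine le_trans ?_ hH
    exact Nat.pow_le_pow_right (by omega) (by omega)
  have hH2 : x ^ 2 ≤ H := by
    refine le_trans ?_ hH
    exact Nat.pow_le_pow_right (by omega) (by omega)
  have hH0 : 0 < H := by
    have : 0 < x ^ 2 := by
      have : 0 < x := by omega
      positivity
    omega
  have hprx : ∀ l ∈ pr x, l ≤ x := fun l hl => by
    rw [mem_pr] at hl
    exact hl.2.1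
  -- the interval and the model
  have s1 := iav_char_sub (famw a x) (by omega : 1 ≤ x) hprx
    (fun p hp => (c_bounds (a := a) hp).1) hKe θ (l := Λ) hΛ0 M hH0
  have s1a := err_w1 (θ := θ) h5x hHK
  have s1b : 4 * (|θ| / Λ) ^ K *
      Real.exp (Λ ^ 2 / 2 * ∑ p ∈ pr x, (2 * ww x p / Real.sqrt (p : ℝ)) ^ 2) ≤ ε / 2 := by
    refine le_trans ?_ hKε
    have h1 : |θ| / Λ ≤ 1 / 2 := by
      rw [div_le_iff₀ hΛ0, hΛ]
      have := abs_nonneg θ
      linarith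
    have h2 : ∑ p ∈ pr x, (2 * ww x p / Real.sqrt (p : ℝ)) ^ 2 ≤ 2 + 4 * CW := by
      rw [sum_congr rfl fun p hp => (c_bounds (a := a) hp).2.1, ← mul_sum]
      have h3 := (abs_le.1 (hCW x h5x)).2
      have h4 : CW / Real.log x ≤ CW := div_le_self hCW0 hL1
      linarith
    have h6 : 0 ≤ |θ| / Λ := by positivity
    have h7 : (|θ| / Λ) ^ K ≤ (1 / 2) ^ K := pow_le_pow_left₀ h6 h1 K
    rw [hE]
    gcongr
  -- the model
  have s2 := mean_char (famw a x) θ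
  have s2a : ∑ p ∈ pr x, (|θ| ^ 3 * (2 * ww x p / Real.sqrt (p : ℝ)) ^ 3 / 6 +
      (θ ^ 2 / 2 * (2 * ww x p / Real.sqrt (p : ℝ)) ^ 2) ^ 2 / 2) ≤
      (2 * |θ| ^ 3 + 2 * θ ^ 4) * CS / Real.log x := by
    have h1 : ∀ p ∈ pr x, |θ| ^ 3 * (2 * ww x p / Real.sqrt (p : ℝ)) ^ 3 / 6 +
        (θ ^ 2 / 2 * (2 * ww x p / Real.sqrt (p : ℝ)) ^ 2) ^ 2 / 2 ≤
        (2 * |θ| ^ 3 + 2 * θ ^ 4) * (ww x p / ((p : ℝ) * Real.sqrt p)) := by
      intro p hp
      obtain ⟨-, -, h3, h4⟩ := c_bounds (a := a) hp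
      have hw0 := ww_pos hp
      have hq : 0 ≤ ww x p / ((p : ℝ) * Real.sqrt p) := by positivity
      have h5 : |θ| ^ 3 * (2 * ww x p / Real.sqrt (p : ℝ)) ^ 3 ≤
          |θ| ^ 3 * (8 * (ww x p / ((p : ℝ) * Real.sqrt p))) := by gcongr
      have h6 : θ ^ 4 * ((2 * ww x p / Real.sqrt (p : ℝ)) ^ 2) ^ 2 ≤
          θ ^ 4 * (16 * (ww x p / ((p : ℝ) * Real.sqrt p))) := by
        have : 0 ≤ θ ^ 4 := by positivity
        gcongr
      have h7 : (θ ^ 2 / 2 * (2 * ww x p / Real.sqrt (p : ℝ)) ^ 2) ^ 2 / 2 =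
          1 / 8 * (θ ^ 4 * ((2 * ww x p / Real.sqrt (p : ℝ)) ^ 2) ^ 2) := by ring
      rw [h7]
      have h8 : 0 ≤ |θ| ^ 3 * (ww x p / ((p : ℝ) * Real.sqrt p)) := by positivity
      nlinarith
    refine (sum_le_sum h1).trans ?_
    rw [← mul_sum]
    have h2 := hCS x h5x
    calc (2 * |θ| ^ 3 + 2 * θ ^ 4) * ∑ i ∈ pr x, ww x i / ((i : ℝ) * Real.sqrt i) ≤
          (2 * |θ| ^ 3 + 2 * θ ^ 4) * (CS / Real.log x) := by gcongr
      _ = _ := by ring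
  -- the variance
  have hV0 : 0 ≤ ∑ l ∈ pr x, mean l (fun n => (ww x l * FF a l n) ^ 2) := by
    refine sum_nonneg fun l _ => ?_
    unfold mean
    positivity
  have s3 : ‖((Real.exp (-(θ ^ 2 / 2 * ∑ l ∈ pr x, mean l (fun n => (ww x l * FF a l n) ^ 2))) :
      ℝ) : ℂ) - ((Real.exp (-(θ ^ 2 / 4)) : ℝ) : ℂ)‖ ≤ θ ^ 2 * (CV + 4 * κ) / Real.log x := by
    rw [← Complex.ofReal_sub, Complex.norm_real, Real.norm_eq_abs]
    refine (exp_neg_lip (by positivity) (by positivity)).trans ?_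
    have h1 := hCV a ha x h5x
    have h2 : (CV + 4 * oml a) / Real.log x ≤ (CV + 4 * κ) / Real.log x := by gcongr
    have h3 : θ ^ 2 / 2 * ∑ l ∈ pr x, mean l (fun n => (ww x l * FF a l n) ^ 2) - θ ^ 2 / 4 =
        θ ^ 2 / 2 * (∑ l ∈ pr x, mean l (fun n => (ww x l * FF a l n) ^ 2) - 1 / 2) := by ring
    rw [h3, abs_mul, abs_of_nonneg (by positivity : 0 ≤ θ ^ 2 / 2)]
    have h4 : θ ^ 2 / 2 ≤ θ ^ 2 := by
      have := sq_nonneg θ
      linarith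
    calc θ ^ 2 / 2 * |∑ l ∈ pr x, mean l (fun n => (ww x l * FF a l n) ^ 2) - 1 / 2| ≤
          θ ^ 2 * ((CV + 4 * κ) / Real.log x) :=
          mul_le_mul h4 (h1.trans h2) (abs_nonneg _) (sq_nonneg _)
      _ = _ := by ring
  -- the bad primes
  have s4 : ‖iav M H (fun n => Complex.exp (((θ * RR a n x : ℝ) : ℂ) * Complex.I)) -
      iav M H (fun n => Complex.exp (((θ * ∑ p ∈ pr x, ww x p * FF a p n : ℝ) : ℂ) *
        Complex.I))‖ ≤ |θ| * (CB + 4) / Real.log x := by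
    rw [← iav_sub]
    refine (norm_iav_le _ _ _).trans ?_
    have h1 : ∀ n : ℤ, ‖Complex.exp (((θ * RR a n x : ℝ) : ℂ) * Complex.I) -
        Complex.exp (((θ * ∑ p ∈ pr x, ww x p * FF a p n : ℝ) : ℂ) * Complex.I)‖ ≤
        |θ| * (BB a n x + 4 / Real.log x) := by
      intro n
      refine (norm_exp_sub_exp _ _).trans ?_
      rw [← mul_sub, abs_mul]
      exact mul_le_mul_of_nonneg_left (RR_sub a n h5x) (abs_nonneg _)
    refine (iav_mono h1).trans ?_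
    rw [iav_const_mul, iav_add, iav_const M hH0]
    have h2 := hCB a x h5x M H hH2
    calc |θ| * (iav M H (fun n => BB a n x) + 4 / Real.log x) ≤
          |θ| * (CB / Real.log x + 4 / Real.log x) := by gcongr
      _ = _ := by ring
  have hsum : 4 * Real.exp |θ| / Real.log x + (2 * |θ| ^ 3 + 2 * θ ^ 4) * CS / Real.log x +
      θ ^ 2 * (CV + 4 * κ) / Real.log x + |θ| * (CB + 4) / Real.log x = G / Real.log x := by
    rw [hG]
    ring
  have s2' := s2.trans s2a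
  refine (five_points _ (iav M H (fun n => Complex.exp (((θ * ∑ p ∈ pr x,
      ww x p * FF a p n : ℝ) : ℂ) * Complex.I))) (mean (∏ p ∈ pr x, p) (fun n =>
      Complex.exp (((θ * ∑ p ∈ pr x, ww x p * FF a p n : ℝ) : ℂ) * Complex.I)))
      ((Real.exp (-(θ ^ 2 / 2 * ∑ l ∈ pr x, mean l (fun n => (ww x l * FF a l n) ^ 2))) : ℝ) : ℂ)
      _).trans ?_
  linarith only [s1, s1a, s1b, s2', s3, s4, hsum, hGL]

/-- the limit law of the logarithmic mean, uniformly in the interval -/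
theorem clt2 {κ : ℝ} (hκ : 0 ≤ κ) (t : ℝ) {ε : ℝ} (hε : 0 < ε) : ∃ X0 : ℕ, 5 ≤ X0 ∧
    ∀ x : ℕ, X0 ≤ x → ∀ a : ℤ, a ≠ 0 → oml a ≤ κ → ∀ (M : ℤ) (H : ℕ), x ^ X0 ≤ H →
      |(emp M H (fun n => RR a n x)).real (Set.Iic t) -
        (gaussianReal 0 (1 / 2)).real (Set.Iic t)| ≤ ε := by
  by_contra hcon
  push Not at hcon
  have hcon' : ∀ k : ℕ, ∃ x : ℕ, k + 5 ≤ x ∧ ∃ a : ℤ, a ≠ 0 ∧ oml a ≤ κ ∧ ∃ (M : ℤ) (H : ℕ),
      x ^ (k + 5) ≤ H ∧ ε < |(emp M H (fun n => RR a n x)).real (Set.Iic t) -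
        (gaussianReal 0 (1 / 2)).real (Set.Iic t)| := fun k => hcon (k + 5) (by omega)
  choose x hx a ha hom M H hH hbad using hcon'
  set Y : ℕ → ℤ → ℝ := fun k n => RR (a k) n (x k) with hY
  have hH0 : ∀ k, 0 < H k := by
    intro k
    have h1 := hx k
    have h2 := hH k
    have h3 : 0 < x k := by omega
    have h4 : 0 < x k ^ (k + 5) := by positivity
    omega
  set μ : ℕ → ProbabilityMeasure ℝ := fun k =>
    ⟨emp (M k) (H k) (Y k), emp_prob _ (hH0 k) _⟩ with hμ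
  set ν : ProbabilityMeasure ℝ := ⟨gaussianReal 0 (1 / 2), inferInstance⟩ with hν
  have hlim : Tendsto μ atTop (𝓝 ν) := by
    refine ProbabilityMeasure.tendsto_of_tendsto_charFun fun θ => ?_
    have h1 : charFun (ν : Measure ℝ) θ = ((Real.exp (-(θ ^ 2 / 4)) : ℝ) : ℂ) := by
      change charFun (gaussianReal 0 (1 / 2)) θ = _
      rw [charFun_gaussianReal]
      push_cast
      congr 1
      ring
    rw [h1, Metric.tendsto_atTop]
    intro e he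
    obtain ⟨X0, -, hX0⟩ := charfn2 hκ θ (half_pos he)
    refine ⟨X0, fun k hk => ?_⟩
    have h2 : charFun (μ k : Measure ℝ) θ =
        iav (M k) (H k) (fun n => Complex.exp (((θ * Y k n : ℝ) : ℂ) * Complex.I)) :=
      emp_char _ _ _ _
    rw [h2, dist_eq_norm]
    have h3 := hX0 (x k) (by
      have := hx k
      omega) (a k) (ha k) (hom k) (M k) (H k) (by
      refine le_trans ?_ (hH k)
      refine Nat.pow_le_pow_right ?_ (by omega)
      have := hx k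
      omega)
    exact lt_of_le_of_lt h3 (by linarith)
  have hfr : (ν : Measure ℝ) (frontier (Set.Iic t)) = 0 := by
    rw [frontier_Iic]
    change (gaussianReal 0 (1 / 2)) {t} = 0
    haveI := nullSingletonClass_gaussianReal (μ := 0) (v := (1 / 2 : NNReal)) (by norm_num)
    exact measure_singleton t
  have h1 := ProbabilityMeasure.tendsto_measure_of_null_frontier_of_tendsto' hlim hfr
  have h2 := (ENNReal.tendsto_toReal (measure_ne_top _ _)).comp h1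
  rw [Metric.tendsto_atTop] at h2
  obtain ⟨k, hk⟩ := h2 ε hε
  have h3 := hk k le_rfl
  have h4 := hbad k
  rw [Real.dist_eq] at h3
  change |(emp (M k) (H k) (Y k)).real (Set.Iic t) -
    (gaussianReal 0 (1 / 2)).real (Set.Iic t)| < ε at h3
  exact absurd h3 (not_lt.2 h4.le)

end Pool.Agent.Y834.BF
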