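import Mathlib

/-!
# Means of periodic functions of an integer
-/

set_option autoImplicit false
set_option linter.all false

namespace Pool.Agent.Y834.BF

open Finset

variable {𝕜 : Type*} [RCLike 𝕜]

/-- `g` has the period `q` -/
def Per (q : ℕ) (g : ℤ → 𝕜) : Prop := ∀ n, g (n + q) = g n

/-- the mean over a period -/
noncomputable def mean (q : ℕ) (g : ℤ → 𝕜) : 𝕜 := (∑ j ∈ range q, g j) / q

variable {q Q : ℕ} {f g : ℤ → 𝕜}

lemma Per.mul_nat (h : Per q g) (k : ℕ) (n : ℤ) : g (n + k * q) = g n := by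
  induction k with
  | zero => simp
  | succ k ih =>
    rw [← ih, ← h (n + k * q)]
    congr 1
    push_cast
    ring

lemma Per.of_dvd (h : Per q g) (hd : q ∣ Q) : Per Q g := by
  obtain ⟨k, rfl⟩ := hd
  intro n
  have h1 := h.mul_nat k n
  rw [← h1]
  congr 1
  push_cast
  ring

lemma Per.mod (h : Per q g) (k : ℕ) : g ((k % q : ℕ) : ℤ) = g (k : ℤ) := by
  have h1 := h.mul_nat (k / q) ((k % q : ℕ) : ℤ)
  rw [← h1]
  congr 1
  have h2 := Nat.mod_add_div k q
  conv_rhs => rw [← h2]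
  push_cast
  ring

lemma Per.sum_shift (h : Per q g) (M : ℤ) :
    ∑ j ∈ range q, g (M + j) = ∑ j ∈ range q, g j := by
  have step : ∀ M : ℤ, ∑ j ∈ range q, g (M + 1 + j) = ∑ j ∈ range q, g (M + j) := by
    intro M
    have h1 := sum_range_succ (fun j : ℕ => g (M + j)) q
    have h2 := sum_range_succ' (fun j : ℕ => g (M + j)) q
    rw [h1] at h2
    have h3 : g (M + ((0 : ℕ) : ℤ)) = g (M + (q : ℤ)) := by
      rw [h M]
      simp
    rw [h3] at h2
    have h4 := add_right_cancel h2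
    rw [h4]
    refine sum_congr rfl fun j _ => ?_
    congr 1
    push_cast
    ring
  induction M using Int.induction_on with
  | zero => simp
  | succ i ih => rw [← ih, step]
  | pred i ih =>
    rw [← ih, ← step (-(i : ℤ) - 1)]
    refine sum_congr rfl fun j _ => ?_
    congr 1
    ring

lemma sum_range_mul_per (h : Per q g) (M : ℤ) (k : ℕ) :
    ∑ j ∈ range (k * q), g (M + j) = k * ∑ j ∈ range q, g j := by
  induction k with
  | zero => simp
  | succ k ih =>
    rw [Nat.succ_mul, sum_range_add, ih, Nat.cast_succ, add_mul, one_mul]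
    congr 1
    rw [← h.sum_shift (M + (k * q : ℕ))]
    refine sum_congr rfl fun j _ => ?_
    congr 1
    push_cast
    ring

lemma mean_of_dvd (h : Per q g) (hd : q ∣ Q) (hQ : 0 < Q) : mean Q g = mean q g := by
  obtain ⟨k, rfl⟩ := hd
  have hq : 0 < q := Nat.pos_of_ne_zero fun h0 => by simp [h0] at hQ
  have hk : 0 < k := Nat.pos_of_ne_zero fun h0 => by simp [h0] at hQ
  have h1 := sum_range_mul_per h 0 k
  simp only [zero_add] at h1
  unfold mean
  rw [mul_comm q k, h1]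
  have hk' : (k : 𝕜) ≠ 0 := Nat.cast_ne_zero.2 hk.ne'
  have hq' : (q : 𝕜) ≠ 0 := Nat.cast_ne_zero.2 hq.ne'
  push_cast
  field_simp

lemma norm_mean_le {B : ℝ} (hB : ∀ n, ‖g n‖ ≤ B) (hq : 0 < q) : ‖mean q g‖ ≤ B := by
  unfold mean
  have hq' : (0 : ℝ) < q := Nat.cast_pos.2 hq
  rw [norm_div, RCLike.norm_natCast, div_le_iff₀ hq']
  refine (norm_sum_le _ _).trans ?_
  have h1 : ∑ i ∈ range q, ‖g (i : ℤ)‖ ≤ ∑ _i ∈ range q, B := sum_le_sum fun j _ => hB j
  refine h1.trans ?_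
  rw [sum_const, card_range, nsmul_eq_mul, mul_comm]

lemma mean_interval (h : Per q g) (hq : 0 < q) {B : ℝ} (hB : ∀ n, ‖g n‖ ≤ B) (M : ℤ) (H : ℕ) :
    ‖∑ j ∈ range H, g (M + j) - H * mean q g‖ ≤ 2 * q * B := by
  have hB0 : 0 ≤ B := (norm_nonneg _).trans (hB 0)
  have hq' : (q : 𝕜) ≠ 0 := Nat.cast_ne_zero.2 hq.ne'
  induction H using Nat.strong_induction_on generalizing M with
  | _ H ih =>
    rcases lt_or_ge H q with hH | hH
    · have h1 : ‖∑ j ∈ range H, g (M + j)‖ ≤ H * B := by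
        refine (norm_sum_le _ _).trans ?_
        have h1 : ∑ i ∈ range H, ‖g (M + i)‖ ≤ ∑ _i ∈ range H, B :=
          sum_le_sum fun j _ => hB (M + j)
        refine h1.trans ?_
        rw [sum_const, card_range, nsmul_eq_mul]
      have h2 : ‖(H : 𝕜) * mean q g‖ ≤ H * B := by
        rw [norm_mul, RCLike.norm_natCast]
        exact mul_le_mul_of_nonneg_left (norm_mean_le hB hq) (Nat.cast_nonneg _)
      have h3 : (H : ℝ) ≤ q := by exact_mod_cast hH.le
      refine (norm_sub_le _ _).trans ((add_le_add h1 h2).trans ?_)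
      nlinarith
    · obtain ⟨H', rfl⟩ := Nat.exists_eq_add_of_le hH
      have h1 := ih H' (by omega) (M + q)
      rw [sum_range_add]
      have h2 : ∑ j ∈ range q, g (M + j) = q * mean q g := by
        rw [h.sum_shift]
        unfold mean
        field_simp
      have h3 : ∑ j ∈ range H', g (M + ((q + j : ℕ) : ℤ)) = ∑ j ∈ range H', g (M + q + j) := by
        refine sum_congr rfl fun j _ => ?_
        congr 1
        push_cast
        ring
      rw [h2, h3]
      have h4 : (q : 𝕜) * mean q g + ∑ j ∈ range H', g (M + q + j) -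
          ((q + H' : ℕ) : 𝕜) * mean q g = ∑ j ∈ range H', g (M + q + j) - H' * mean q g := by
        push_cast
        ring
      rw [h4]
      exact h1

lemma sum_mul_coprime {m n : ℕ} (hm : 0 < m) (hn : 0 < n) (h : Nat.Coprime m n)
    (hf : Per m f) (hg : Per n g) :
    ∑ k ∈ range (m * n), f (k : ℤ) * g (k : ℤ) =
      (∑ i ∈ range m, f (i : ℤ)) * ∑ j ∈ range n, g (j : ℤ) := by
  rw [sum_mul_sum, ← sum_product']
  refine sum_nbij (fun k => (k % m, k % n)) ?_ ?_ ?_ ?_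
  · intro k _
    simp [Nat.mod_lt _ hm, Nat.mod_lt _ hn]
  · intro k hk l hl hkl
    simp only [coe_range, Set.mem_Iio] at hk hl
    simp only [Prod.mk.injEq] at hkl
    have h1 : k ≡ l [MOD m * n] := (Nat.modEq_and_modEq_iff_modEq_mul h).1 ⟨hkl.1, hkl.2⟩
    exact Nat.ModEq.eq_of_lt_of_lt h1 hk hl
  · rintro ⟨i, j⟩ hij
    simp only [coe_product, coe_range, Set.mem_prod, Set.mem_Iio] at hij
    obtain ⟨k, hk1, hk2⟩ := Nat.chineseRemainder h i j
    refine ⟨k % (m * n), ?_, ?_⟩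
    · simp only [coe_range, Set.mem_Iio]
      exact Nat.mod_lt _ (Nat.mul_pos hm hn)
    · simp only [Prod.mk.injEq]
      constructor
      · rw [Nat.mod_mul_right_mod, hk1, Nat.mod_eq_of_lt hij.1]
      · rw [Nat.mod_mul_left_mod, hk2, Nat.mod_eq_of_lt hij.2]
  · intro k _
    rw [hf.mod, hg.mod]

lemma mean_mul_coprime {m n : ℕ} (hm : 0 < m) (hn : 0 < n) (h : Nat.Coprime m n)
    (hf : Per m f) (hg : Per n g) :
    mean (m * n) (fun k => f k * g k) = mean m f * mean n g := by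
  unfold mean
  rw [sum_mul_coprime hm hn h hf hg]
  push_cast
  rw [div_mul_div_comm]

lemma per_prod {P : Finset ℕ} {F : ℕ → ℤ → 𝕜} (hF : ∀ p ∈ P, Per p (F p)) :
    Per (∏ p ∈ P, p) (fun n => ∏ p ∈ P, F p n) := by
  intro n
  refine prod_congr rfl fun p hp => ?_
  exact (hF p hp).of_dvd (dvd_prod_of_mem _ hp) n

lemma mean_prod {P : Finset ℕ} (hP : ∀ p ∈ P, p.Prime) {F : ℕ → ℤ → 𝕜}
    (hF : ∀ p ∈ P, Per p (F p)) :
    mean (∏ p ∈ P, p) (fun n => ∏ p ∈ P, F p n) = ∏ p ∈ P, mean p (F p) := by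
  classical
  induction P using Finset.induction_on with
  | empty => simp [mean]
  | insert a s ha ih =>
    have hP' : ∀ p ∈ s, p.Prime := fun p hp => hP p (mem_insert_of_mem hp)
    have hF' : ∀ p ∈ s, Per p (F p) := fun p hp => hF p (mem_insert_of_mem hp)
    have hap := hP a (mem_insert_self _ _)
    have hc : Nat.Coprime a (∏ p ∈ s, p) := by
      refine Nat.Coprime.prod_right fun p hp => ?_
      rw [Nat.coprime_primes hap (hP' p hp)]
      rintro rfl
      exact ha hp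
    have hpos : 0 < ∏ p ∈ s, p := prod_pos fun p hp => (hP' p hp).pos
    rw [prod_insert ha, prod_insert ha, ← ih hP' hF',
      ← mean_mul_coprime hap.pos hpos hc (hF a (mem_insert_self _ _)) (per_prod hF')]
    congr 1
    funext n
    rw [prod_insert ha]

lemma mean_add (q : ℕ) (f g : ℤ → 𝕜) : mean q (fun n => f n + g n) = mean q f + mean q g := by
  unfold mean
  rw [sum_add_distrib, add_div]

lemma mean_sum {ι : Type*} (s : Finset ι) (q : ℕ) (F : ι → ℤ → 𝕜) :
    mean q (fun n => ∑ i ∈ s, F i n) = ∑ i ∈ s, mean q (F i) := by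
  unfold mean
  rw [sum_comm, sum_div]

lemma mean_const_mul (q : ℕ) (c : 𝕜) (f : ℤ → 𝕜) : mean q (fun n => c * f n) = c * mean q f := by
  unfold mean
  rw [← mul_sum, mul_div_assoc]

lemma mean_const (hq : 0 < q) (c : 𝕜) : mean q (fun _ => c) = c := by
  unfold mean
  have hq' : (q : 𝕜) ≠ 0 := Nat.cast_ne_zero.2 hq.ne'
  rw [sum_const, card_range, nsmul_eq_mul]
  field_simp

lemma mean_mono {u v : ℤ → ℝ} (h : ∀ n, u n ≤ v n) : mean q u ≤ mean q v := by
  unfold mean
  exact div_le_div_of_nonneg_right (sum_le_sum fun j _ => h j) (Nat.cast_nonneg _)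

lemma norm_mean_le_mean_norm (q : ℕ) (g : ℤ → 𝕜) : ‖mean q g‖ ≤ mean q (fun n => ‖g n‖) := by
  unfold mean
  rw [norm_div, RCLike.norm_natCast]
  exact div_le_div_of_nonneg_right (norm_sum_le _ _) (Nat.cast_nonneg _)

/-- sums over intervals as sums over ranges -/
lemma sum_Ioc_eq (M : ℤ) (H : ℕ) (g : ℤ → 𝕜) :
    ∑ n ∈ Ioc M (M + H), g n = ∑ j ∈ range H, g (M + 1 + j) := by
  symm
  refine sum_nbij (fun j : ℕ => M + 1 + (j : ℤ)) ?_ ?_ ?_ ?_
  · intro j hj
    simp only [mem_range] at hj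
    simp only [mem_Ioc]
    omega
  · intro i _ j _ hij
    simp only at hij
    omega
  · intro n hn
    simp only [coe_Ioc, Set.mem_Ioc] at hn
    refine ⟨(n - M - 1).toNat, ?_, ?_⟩
    · simp only [coe_range, Set.mem_Iio]
      omega
    · simp only
      omega
  · intro j _
    rfl

/-- the mean over the interval `(M, M + H]` -/
noncomputable def iav (M : ℤ) (H : ℕ) (g : ℤ → 𝕜) : 𝕜 := (∑ n ∈ Ioc M (M + H), g n) / H

lemma iav_sub_mean (h : Per q g) (hq : 0 < q) {B : ℝ} (hB : ∀ n, ‖g n‖ ≤ B) (M : ℤ) {H : ℕ}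
    (hH : 0 < H) : ‖iav M H g - mean q g‖ ≤ 2 * q * B / H := by
  have h1 := mean_interval h hq hB (M + 1) H
  have hH' : (H : 𝕜) ≠ 0 := Nat.cast_ne_zero.2 hH.ne'
  have hH0 : (0 : ℝ) < H := Nat.cast_pos.2 hH
  have h2 : iav M H g - mean q g =
      (∑ j ∈ range H, g (M + 1 + j) - H * mean q g) / H := by
    unfold iav
    rw [sum_Ioc_eq]
    field_simp
  rw [h2, norm_div, RCLike.norm_natCast]
  exact div_le_div_of_nonneg_right h1 hH0.le

lemma iav_add (M : ℤ) (H : ℕ) (f g : ℤ → 𝕜) :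
    iav M H (fun n => f n + g n) = iav M H f + iav M H g := by
  unfold iav
  rw [sum_add_distrib, add_div]

lemma iav_sum {ι : Type*} (s : Finset ι) (M : ℤ) (H : ℕ) (F : ι → ℤ → 𝕜) :
    iav M H (fun n => ∑ i ∈ s, F i n) = ∑ i ∈ s, iav M H (F i) := by
  unfold iav
  rw [sum_comm, sum_div]

lemma iav_const_mul (M : ℤ) (H : ℕ) (c : 𝕜) (f : ℤ → 𝕜) :
    iav M H (fun n => c * f n) = c * iav M H f := by
  unfold iav
  rw [← mul_sum, mul_div_assoc]

lemma card_Ioc_H (M : ℤ) (H : ℕ) : (Ioc M (M + H)).card = H := by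
  rw [Int.card_Ioc]
  omega

lemma iav_mono {M : ℤ} {H : ℕ} {u v : ℤ → ℝ} (h : ∀ n, u n ≤ v n) : iav M H u ≤ iav M H v := by
  unfold iav
  exact div_le_div_of_nonneg_right (sum_le_sum fun j _ => h j) (Nat.cast_nonneg _)

lemma norm_iav_le (M : ℤ) (H : ℕ) (g : ℤ → 𝕜) : ‖iav M H g‖ ≤ iav M H (fun n => ‖g n‖) := by
  unfold iav
  rw [norm_div, RCLike.norm_natCast]
  exact div_le_div_of_nonneg_right (norm_sum_le _ _) (Nat.cast_nonneg _)

lemma iav_const {H : ℕ} (M : ℤ) (hH : 0 < H) (c : 𝕜) : iav M H (fun _ => c) = c := by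
  unfold iav
  have hq' : (H : 𝕜) ≠ 0 := Nat.cast_ne_zero.2 hH.ne'
  rw [sum_const, card_Ioc_H, nsmul_eq_mul]
  field_simp

end Pool.Agent.Y834.BF
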