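import Pool.Agent.Y834.BF.Mom

/-!
# Characteristic functions of sums of independent bounded functions, in the model and on intervals
-/

set_option autoImplicit false
set_option linter.all false

namespace Pool.Agent.Y834.BF

open Finset

lemma taylor_pos (K : ℕ) : ∀ u : ℝ, 0 ≤ u →
    ‖Complex.exp (u * Complex.I) - ∑ k ∈ range K, (u * Complex.I) ^ k / k.factorial‖ ≤
      u ^ K / K.factorial := by
  induction K with
  | zero =>
    intro u _
    simp [Complex.norm_exp_ofReal_mul_I]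
  | succ K ih =>
    intro u hu
    have hd : ∀ x : ℝ, HasDerivAt (fun u : ℝ => Complex.exp (u * Complex.I) -
        ∑ k ∈ range (K + 1), (u * Complex.I) ^ k / k.factorial)
        (Complex.I * (Complex.exp (x * Complex.I) -
          ∑ k ∈ range K, (x * Complex.I) ^ k / k.factorial)) x := by
      intro x
      have h0 : HasDerivAt (fun u : ℝ => (u : ℂ) * Complex.I) Complex.I x := by
        have := (Complex.ofRealCLM.hasDerivAt (x := x)).mul_const Complex.I
        simpa using this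
      have h1 : HasDerivAt (fun u : ℝ => Complex.exp (u * Complex.I))
          (Complex.exp (x * Complex.I) * Complex.I) x := h0.cexp
      have h2 : HasDerivAt (fun u : ℝ => ∑ k ∈ range K, (u * Complex.I) ^ (k + 1) /
          (k + 1).factorial) (∑ k ∈ range K, (x * Complex.I) ^ k / k.factorial * Complex.I) x := by
        refine HasDerivAt.fun_sum fun k _ => ?_
        have h3 := (h0.fun_pow (k + 1)).div_const ((k + 1).factorial : ℂ)
        refine h3.congr_deriv ?_
        rw [Nat.factorial_succ]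
        have hk : ((k.factorial : ℕ) : ℂ) ≠ 0 := Nat.cast_ne_zero.2 k.factorial_ne_zero
        have hk1 : ((k + 1 : ℕ) : ℂ) ≠ 0 := Nat.cast_ne_zero.2 k.succ_ne_zero
        push_cast at hk1 ⊢
        field_simp
      have h4 : (fun u : ℝ => Complex.exp (u * Complex.I) -
          ∑ k ∈ range (K + 1), (u * Complex.I) ^ k / k.factorial) =
          fun u : ℝ => Complex.exp (u * Complex.I) -
            (∑ k ∈ range K, (u * Complex.I) ^ (k + 1) / (k + 1).factorial + 1) := by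
        funext u
        rw [sum_range_succ']
        simp
      rw [h4]
      refine (h1.sub (h2.add_const 1)).congr_deriv ?_
      rw [mul_sub, mul_sum]
      congr 1
      · ring
      · refine sum_congr rfl fun k _ => ?_
        ring
    have hB : ∀ x : ℝ, HasDerivAt (fun u : ℝ => u ^ (K + 1) / (K + 1).factorial)
        (x ^ K / K.factorial) x := by
      intro x
      have h3 := ((hasDerivAt_id x).fun_pow (K + 1)).div_const ((K + 1).factorial : ℝ)
      refine h3.congr_deriv ?_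
      rw [Nat.factorial_succ]
      have hk : ((K.factorial : ℕ) : ℝ) ≠ 0 := Nat.cast_ne_zero.2 K.factorial_ne_zero
      have hk1 : ((K + 1 : ℕ) : ℝ) ≠ 0 := Nat.cast_ne_zero.2 K.succ_ne_zero
      push_cast at hk1 ⊢
      simp only [id]
      field_simp
    refine image_norm_le_of_norm_deriv_right_le_deriv_boundary (a := 0) (b := u)
      (f := fun u : ℝ => Complex.exp (u * Complex.I) -
        ∑ k ∈ range (K + 1), (u * Complex.I) ^ k / k.factorial)
      (fun x _ => (hd x).continuousAt.continuousWithinAt)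
      (fun x _ => (hd x).hasDerivWithinAt) ?_ hB ?_ ⟨hu, le_rfl⟩
    · rw [sum_range_succ']
      simp
    · intro x hx
      rw [norm_mul, Complex.norm_I, one_mul]
      exact ih x hx.1

lemma taylor (K : ℕ) (u : ℝ) :
    ‖Complex.exp (u * Complex.I) - ∑ k ∈ range K, (u * Complex.I) ^ k / k.factorial‖ ≤
      |u| ^ K / K.factorial := by
  rcases le_or_gt 0 u with h | h
  · rw [abs_of_nonneg h]
    exact taylor_pos K u h
  · have h1 := taylor_pos K (-u) (by linarith)
    rw [abs_of_neg h]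
    refine le_trans (le_of_eq ?_) h1
    rw [← Complex.norm_conj (Complex.exp (((-u : ℝ) : ℂ) * Complex.I) -
      ∑ k ∈ range K, (((-u : ℝ) : ℂ) * Complex.I) ^ k / k.factorial)]
    congr 1
    rw [map_sub, ← Complex.exp_conj, map_sum]
    have h2 : (starRingEnd ℂ) (((-u : ℝ) : ℂ) * Complex.I) = (u : ℂ) * Complex.I := by
      rw [map_mul, Complex.conj_ofReal, Complex.conj_I]
      push_cast
      ring
    rw [h2]
    congr 1
    refine sum_congr rfl fun k _ => ?_
    rw [map_div₀, map_pow, h2, map_natCast]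

lemma norm_exp_sub_exp (a b : ℝ) :
    ‖Complex.exp (a * Complex.I) - Complex.exp (b * Complex.I)‖ ≤ |a - b| := by
  have h1 := taylor 1 (a - b)
  simp only [range_one, sum_singleton, pow_zero, Nat.factorial_zero, Nat.cast_one, div_one,
    pow_one, Nat.factorial_one] at h1
  have h2 : Complex.exp (a * Complex.I) - Complex.exp (b * Complex.I) =
      Complex.exp (b * Complex.I) * (Complex.exp (((a - b : ℝ) : ℂ) * Complex.I) - 1) := by
    rw [mul_sub, ← Complex.exp_add, mul_one]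
    congr 2
    push_cast
    ring
  rw [h2, norm_mul, Complex.norm_exp_ofReal_mul_I, one_mul]
  exact h1

lemma norm_prod_sub {P : Finset ℕ} {A B : ℕ → ℂ} (hA : ∀ p ∈ P, ‖A p‖ ≤ 1)
    (hB : ∀ p ∈ P, ‖B p‖ ≤ 1) : ‖∏ p ∈ P, A p - ∏ p ∈ P, B p‖ ≤ ∑ p ∈ P, ‖A p - B p‖ := by
  classical
  induction P using Finset.induction_on with
  | empty => simp
  | insert a s ha ih =>
    rw [prod_insert ha, prod_insert ha, sum_insert ha]
    have h1 := ih (fun p hp => hA p (mem_insert_of_mem hp)) fun p hp => hB p (mem_insert_of_mem hp)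
    have h2 : A a * ∏ p ∈ s, A p - B a * ∏ p ∈ s, B p =
        (A a - B a) * ∏ p ∈ s, A p + B a * (∏ p ∈ s, A p - ∏ p ∈ s, B p) := by ring
    rw [h2]
    refine (norm_add_le _ _).trans ?_
    rw [norm_mul, norm_mul]
    have h3 : ‖∏ p ∈ s, A p‖ ≤ 1 := by
      rw [norm_prod]
      exact prod_le_one (fun p _ => norm_nonneg _) fun p hp => hA p (mem_insert_of_mem hp)
    have h4 := hB a (mem_insert_self _ _)
    have h5 : ‖A a - B a‖ * ‖∏ p ∈ s, A p‖ ≤ ‖A a - B a‖ * 1 :=
      mul_le_mul_of_nonneg_left h3 (norm_nonneg _)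
    have h6 : ‖B a‖ * ‖∏ p ∈ s, A p - ∏ p ∈ s, B p‖ ≤ 1 * ‖∏ p ∈ s, A p - ∏ p ∈ s, B p‖ :=
      mul_le_mul_of_nonneg_right h4 (norm_nonneg _)
    linarith

lemma exp_neg_bound {s : ℝ} (hs : 0 ≤ s) : |Real.exp (-s) - (1 - s)| ≤ s ^ 2 / 2 := by
  have h1 := Real.add_one_le_exp (-s)
  have h2 := Real.quadratic_le_exp_of_nonneg hs
  have h3 : Real.exp (-s) * Real.exp s = 1 := by
    rw [← Real.exp_add]
    simp
  have h4 : 0 < Real.exp (-s) := Real.exp_pos _
  have h5 : Real.exp (-s) * (1 + s + s ^ 2 / 2) ≤ 1 :=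
    (mul_le_mul_of_nonneg_left h2 h4.le).trans (le_of_eq h3)
  have h6 : (1 - s + s ^ 2 / 2) * (1 + s + s ^ 2 / 2) = 1 + s ^ 4 / 4 := by ring
  have h7 : 0 < 1 + s + s ^ 2 / 2 := by positivity
  have h8 : Real.exp (-s) ≤ 1 - s + s ^ 2 / 2 := by
    by_contra h
    push Not at h
    have h9 := mul_lt_mul_of_pos_right h h7
    have h10 : 0 ≤ s ^ 4 := by positivity
    nlinarith
  rw [abs_le]
  constructor
  · have : 0 ≤ s ^ 2 := sq_nonneg _
    linarith
  · linarith

lemma exp_neg_lip {a b : ℝ} (ha : 0 ≤ a) (hb : 0 ≤ b) : |Real.exp (-a) - Real.exp (-b)| ≤ |a - b| := by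
  wlog h : a ≤ b generalizing a b
  · rw [abs_sub_comm, abs_sub_comm a b]
    exact this hb ha (by linarith)
  have h1 : Real.exp (-b) ≤ Real.exp (-a) := Real.exp_le_exp.2 (by linarith)
  rw [abs_of_nonneg (by linarith), abs_of_nonpos (by linarith)]
  have h2 : Real.exp (-b) = Real.exp (-a) * Real.exp (-(b - a)) := by
    rw [← Real.exp_add]
    congr 1
    ring
  have h3 : Real.exp (-a) ≤ 1 := Real.exp_le_one_iff.2 (by linarith)
  have h4 := Real.add_one_le_exp (-(b - a))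
  have h5 : Real.exp (-(b - a)) ≤ 1 := Real.exp_le_one_iff.2 (by linarith)
  rw [h2]
  nlinarith [Real.exp_pos (-a)]

lemma mean_ofReal (q : ℕ) (g : ℤ → ℝ) :
    mean q (fun n => ((g n : ℝ) : ℂ)) = ((mean q g : ℝ) : ℂ) := by
  unfold mean
  push_cast
  rfl

lemma iav_ofReal (M : ℤ) (H : ℕ) (g : ℤ → ℝ) :
    iav M H (fun n => ((g n : ℝ) : ℂ)) = ((iav M H g : ℝ) : ℂ) := by
  unfold iav
  push_cast
  rfl

lemma mean_sub (q : ℕ) (f g : ℤ → ℂ) : mean q (fun n => f n - g n) = mean q f - mean q g := by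
  unfold mean
  rw [sum_sub_distrib, sub_div]

lemma iav_sub (M : ℤ) (H : ℕ) (f g : ℤ → ℂ) :
    iav M H (fun n => f n - g n) = iav M H f - iav M H g := by
  unfold iav
  rw [sum_sub_distrib, sub_div]

variable {P : Finset ℕ} {F : ℕ → ℤ → ℝ} {c : ℕ → ℝ}

/-- the characteristic function of one prime -/
lemma mean_char_one (h : Fam P F c) {p : ℕ} (hp : p ∈ P) (u : ℝ) :
    ‖mean p (fun n => Complex.exp (((u * F p n : ℝ) : ℂ) * Complex.I)) -
      ((Real.exp (-(u ^ 2 / 2 * mean p (fun n => F p n ^ 2))) : ℝ) : ℂ)‖ ≤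
      |u| ^ 3 * c p ^ 3 / 6 + (u ^ 2 / 2 * c p ^ 2) ^ 2 / 2 := by
  have hc := h.pos p hp
  have hp0 := (h.prime p hp).pos
  set v := mean p (fun n => F p n ^ 2) with hv
  have hv0 : 0 ≤ v := by
    rw [hv]
    unfold mean
    positivity
  have hv1 : v ≤ c p ^ 2 := by
    rw [hv]
    refine (mean_mono fun n => ?_).trans (le_of_eq (mean_const hp0 (c p ^ 2)))
    rw [← sq_abs]
    exact pow_le_pow_left₀ (abs_nonneg _) (h.bd p hp n) 2
  have h1 : mean p (fun n => ∑ k ∈ range 3, (((u * F p n : ℝ) : ℂ) * Complex.I) ^ k /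
      k.factorial) = ((1 - u ^ 2 / 2 * v : ℝ) : ℂ) := by
    have h2 : (fun n : ℤ => ∑ k ∈ range 3, (((u * F p n : ℝ) : ℂ) * Complex.I) ^ k /
        k.factorial) = fun n => (1 : ℂ) + ((u * Complex.I) * ((F p n : ℝ) : ℂ) +
          (-(u ^ 2 / 2 : ℂ)) * ((F p n ^ 2 : ℝ) : ℂ)) := by
      funext n
      simp only [sum_range_succ, range_zero, sum_empty, Nat.factorial]
      push_cast
      have hI : Complex.I ^ 2 = -1 := Complex.I_sq
      linear_combination (1 / 2 : ℂ) * (u : ℂ) ^ 2 * ((F p n : ℝ) : ℂ) ^ 2 * hI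
    rw [h2, mean_add, mean_add, mean_const_mul, mean_const_mul, mean_const hp0, mean_ofReal,
      mean_ofReal, h.zero p hp, ← hv]
    push_cast
    ring
  have h3 : ‖mean p (fun n => Complex.exp (((u * F p n : ℝ) : ℂ) * Complex.I)) -
      ((1 - u ^ 2 / 2 * v : ℝ) : ℂ)‖ ≤ |u| ^ 3 * c p ^ 3 / 6 := by
    rw [← h1, ← mean_sub]
    refine (norm_mean_le_mean_norm _ _).trans ?_
    refine (mean_mono fun n => ?_).trans (le_of_eq (mean_const hp0 _))
    refine (taylor 3 (u * F p n)).trans ?_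
    rw [abs_mul, mul_pow]
    have h4 : ((3 : ℕ).factorial : ℝ) = 6 := by norm_num [Nat.factorial]
    rw [h4]
    have h5 : |F p n| ^ 3 ≤ c p ^ 3 := pow_le_pow_left₀ (abs_nonneg _) (h.bd p hp n) 3
    gcongr
  have h4 : ‖((1 - u ^ 2 / 2 * v : ℝ) : ℂ) - ((Real.exp (-(u ^ 2 / 2 * v)) : ℝ) : ℂ)‖ ≤
      (u ^ 2 / 2 * c p ^ 2) ^ 2 / 2 := by
    rw [← Complex.ofReal_sub, Complex.norm_real, Real.norm_eq_abs, abs_sub_comm]
    refine (exp_neg_bound (by positivity)).trans ?_
    gcongr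
  calc _ = ‖(mean p (fun n => Complex.exp (((u * F p n : ℝ) : ℂ) * Complex.I)) -
        ((1 - u ^ 2 / 2 * v : ℝ) : ℂ)) + (((1 - u ^ 2 / 2 * v : ℝ) : ℂ) -
          ((Real.exp (-(u ^ 2 / 2 * v)) : ℝ) : ℂ))‖ := by
        congr 1
        ring
    _ ≤ _ := (norm_add_le _ _).trans (add_le_add h3 h4)

/-- the characteristic function in the model -/
lemma mean_char (h : Fam P F c) (u : ℝ) :
    ‖mean (∏ p ∈ P, p) (fun n => Complex.exp (((u * ∑ p ∈ P, F p n : ℝ) : ℂ) * Complex.I)) -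
      ((Real.exp (-(u ^ 2 / 2 * ∑ p ∈ P, mean p (fun n => F p n ^ 2))) : ℝ) : ℂ)‖ ≤
      ∑ p ∈ P, (|u| ^ 3 * c p ^ 3 / 6 + (u ^ 2 / 2 * c p ^ 2) ^ 2 / 2) := by
  have h1 : (fun n : ℤ => Complex.exp (((u * ∑ p ∈ P, F p n : ℝ) : ℂ) * Complex.I)) =
      fun n => ∏ p ∈ P, Complex.exp (((u * F p n : ℝ) : ℂ) * Complex.I) := by
    funext n
    rw [← Complex.exp_sum]
    congr 1
    push_cast
    rw [mul_sum, sum_mul]
  have h2 : ((Real.exp (-(u ^ 2 / 2 * ∑ p ∈ P, mean p (fun n => F p n ^ 2))) : ℝ) : ℂ) =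
      ∏ p ∈ P, ((Real.exp (-(u ^ 2 / 2 * mean p (fun n => F p n ^ 2))) : ℝ) : ℂ) := by
    rw [← Complex.ofReal_prod, ← Real.exp_sum, mul_sum, sum_neg_distrib]
  rw [h1, h2, mean_prod h.prime (F := fun p n => Complex.exp (((u * F p n : ℝ) : ℂ) * Complex.I))
    (fun p hp n => by
      simp only
      rw [h.per p hp n])]
  refine (norm_prod_sub (fun p hp => ?_) fun p hp => ?_).trans
    (sum_le_sum fun p hp => mean_char_one h hp u)
  · refine norm_mean_le (fun n => ?_) (h.prime p hp).pos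
    rw [Complex.norm_exp_ofReal_mul_I]
  · rw [Complex.norm_real, Real.norm_eq_abs, abs_of_pos (Real.exp_pos _)]
    refine Real.exp_le_one_iff.2 ?_
    have : 0 ≤ mean p (fun n => F p n ^ 2) := by
      unfold mean
      positivity
    have : 0 ≤ u ^ 2 / 2 * mean p (fun n => F p n ^ 2) := by positivity
    linarith

/-- characteristic functions on intervals and in the model agree -/
lemma iav_char_sub (h : Fam P F c) {X : ℕ} (hX : 1 ≤ X) (hP : ∀ p ∈ P, p ≤ X)
    (hc : ∀ p ∈ P, c p ≤ 4) {K : ℕ} (hK : Even K) (u : ℝ) {l : ℝ} (hl : 0 < l) (M : ℤ) {H : ℕ}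
    (hH : 0 < H) :
    ‖iav M H (fun n => Complex.exp (((u * ∑ p ∈ P, F p n : ℝ) : ℂ) * Complex.I)) -
      mean (∏ p ∈ P, p) (fun n => Complex.exp (((u * ∑ p ∈ P, F p n : ℝ) : ℂ) * Complex.I))‖ ≤
      2 * Real.exp |u| * (2 * (4 * (X : ℝ) ^ 2) ^ K / H) +
        4 * (|u| / l) ^ K * Real.exp (l ^ 2 / 2 * ∑ p ∈ P, c p ^ 2) := by
  set S : ℤ → ℝ := fun n => ∑ p ∈ P, F p n with hS
  set Q := ∏ p ∈ P, p with hQ
  set η : ℝ := 2 * (4 * (X : ℝ) ^ 2) ^ K / H with hη
  have hHr : (0 : ℝ) < H := by exact_mod_cast hH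
  have hX1 : (1 : ℝ) ≤ X := by exact_mod_cast hX
  have hη0 : 0 ≤ η := by positivity
  have hsumc : ∑ p ∈ P, c p ≤ 4 * X := by
    have hcard : (P.card : ℝ) ≤ X := by
      have : P ⊆ Icc 1 X := fun p hp => mem_Icc.2 ⟨(h.prime p hp).one_lt.le, hP p hp⟩
      have := card_le_card this
      rw [Nat.card_Icc] at this
      exact_mod_cast this
    refine (sum_le_sum hc).trans ?_
    rw [sum_const, nsmul_eq_mul]
    linarith
  have hsumc0 : 0 ≤ ∑ p ∈ P, c p := sum_nonneg fun p hp => (h.pos p hp).le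
  have hpow : ∀ k, k ≤ K → |iav M H (fun n => S n ^ k) - mean Q (fun n => S n ^ k)| ≤ η := by
    intro k hk
    refine (iav_pow_sub h hX hP k M hH).trans ?_
    rw [hη]
    have h1 : (X : ℝ) ^ k * (∑ p ∈ P, c p) ^ k ≤ (4 * (X : ℝ) ^ 2) ^ K := by
      rw [← mul_pow]
      calc ((X : ℝ) * ∑ p ∈ P, c p) ^ k ≤ (4 * (X : ℝ) ^ 2) ^ k := by
            refine pow_le_pow_left₀ (by positivity) ?_ k
            nlinarith
        _ ≤ (4 * (X : ℝ) ^ 2) ^ K := pow_le_pow_right₀ (by nlinarith) hk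
    rw [mul_assoc]
    gcongr
  have hTay : ∀ n : ℤ, ‖Complex.exp (((u * S n : ℝ) : ℂ) * Complex.I) -
      ∑ k ∈ range K, (((u * S n : ℝ) : ℂ) * Complex.I) ^ k / k.factorial‖ ≤
        (|u| ^ K / K.factorial) * S n ^ K := by
    intro n
    refine (taylor K (u * S n)).trans (le_of_eq ?_)
    rw [abs_mul, mul_pow, hK.pow_abs (S n)]
    ring
  have hT : ∀ n : ℤ, ∑ k ∈ range K, (((u * S n : ℝ) : ℂ) * Complex.I) ^ k / k.factorial =
      ∑ k ∈ range K, ((u * Complex.I) ^ k / k.factorial) * ((S n ^ k : ℝ) : ℂ) := by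
    intro n
    refine sum_congr rfl fun k _ => ?_
    push_cast
    ring
  have a1 : ‖iav M H (fun n => Complex.exp (((u * S n : ℝ) : ℂ) * Complex.I)) -
      iav M H (fun n => ∑ k ∈ range K, (((u * S n : ℝ) : ℂ) * Complex.I) ^ k / k.factorial)‖ ≤
      (|u| ^ K / K.factorial) * iav M H (fun n => S n ^ K) := by
    rw [← iav_sub, ← iav_const_mul]
    exact (norm_iav_le _ _ _).trans (iav_mono hTay)
  have a2 : ‖mean Q (fun n => Complex.exp (((u * S n : ℝ) : ℂ) * Complex.I)) -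
      mean Q (fun n => ∑ k ∈ range K, (((u * S n : ℝ) : ℂ) * Complex.I) ^ k / k.factorial)‖ ≤
      (|u| ^ K / K.factorial) * mean Q (fun n => S n ^ K) := by
    rw [← mean_sub, ← mean_const_mul]
    exact (norm_mean_le_mean_norm _ _).trans (mean_mono hTay)
  have a3 : ‖iav M H (fun n => ∑ k ∈ range K, (((u * S n : ℝ) : ℂ) * Complex.I) ^ k /
        k.factorial) -
      mean Q (fun n => ∑ k ∈ range K, (((u * S n : ℝ) : ℂ) * Complex.I) ^ k / k.factorial)‖ ≤
      Real.exp |u| * η := by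
    simp_rw [hT]
    rw [iav_sum (range K) M H
        (fun (k : ℕ) (n : ℤ) => ((u * Complex.I) ^ k / k.factorial) * ((S n ^ k : ℝ) : ℂ)),
      mean_sum (range K) Q
        (fun (k : ℕ) (n : ℤ) => ((u * Complex.I) ^ k / k.factorial) * ((S n ^ k : ℝ) : ℂ)),
      ← sum_sub_distrib]
    refine (norm_sum_le _ _).trans ?_
    refine le_trans ?_ (mul_le_mul_of_nonneg_right
      (Real.sum_le_exp_of_nonneg (abs_nonneg u) K) hη0)
    rw [sum_mul]
    refine sum_le_sum fun k hk => ?_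
    rw [iav_const_mul, mean_const_mul, ← mul_sub, iav_ofReal, mean_ofReal, ← Complex.ofReal_sub,
      norm_mul, Complex.norm_real, norm_div, norm_pow, norm_mul, Complex.norm_I, mul_one,
      Complex.norm_real, Real.norm_eq_abs, Real.norm_eq_abs, Complex.norm_natCast]
    exact mul_le_mul_of_nonneg_left (hpow k (mem_range.1 hk).le) (by positivity)
  have a4 : mean Q (fun n => S n ^ K) ≤
      2 * K.factorial * Real.exp (l ^ 2 / 2 * ∑ p ∈ P, c p ^ 2) / l ^ K := by
    have h1 := mean_pow h hl K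
    refine le_trans (le_of_eq ?_) h1
    congr 1
    funext n
    rw [hK.pow_abs]
  have a5 : iav M H (fun n => S n ^ K) ≤ mean Q (fun n => S n ^ K) + η := by
    have h1 := (abs_le.1 (hpow K le_rfl)).2
    linarith
  have hfac : (0 : ℝ) < K.factorial := by exact_mod_cast K.factorial_pos
  have a6 : |u| ^ K / K.factorial ≤ Real.exp |u| := Real.pow_div_factorial_le_exp _ (abs_nonneg _) _
  have a7 : (|u| ^ K / K.factorial) * (2 * mean Q (fun n => S n ^ K) + η) ≤
      4 * (|u| / l) ^ K * Real.exp (l ^ 2 / 2 * ∑ p ∈ P, c p ^ 2) + Real.exp |u| * η := by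
    rw [mul_add]
    have h2 : |u| ^ K / K.factorial * η ≤ Real.exp |u| * η := mul_le_mul_of_nonneg_right a6 hη0
    have h3 : |u| ^ K / K.factorial * (2 * mean Q (fun n => S n ^ K)) ≤
        |u| ^ K / K.factorial *
          (2 * (2 * K.factorial * Real.exp (l ^ 2 / 2 * ∑ p ∈ P, c p ^ 2) / l ^ K)) := by gcongr
    have h4 : |u| ^ K / K.factorial *
          (2 * (2 * K.factorial * Real.exp (l ^ 2 / 2 * ∑ p ∈ P, c p ^ 2) / l ^ K)) =
        4 * (|u| / l) ^ K * Real.exp (l ^ 2 / 2 * ∑ p ∈ P, c p ^ 2) := by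
      rw [div_pow]
      field_simp
      ring
    linarith
  have a8 : (|u| ^ K / K.factorial) * iav M H (fun n => S n ^ K) +
      (|u| ^ K / K.factorial) * mean Q (fun n => S n ^ K) ≤
      (|u| ^ K / K.factorial) * (2 * mean Q (fun n => S n ^ K) + η) := by
    rw [← mul_add]
    refine mul_le_mul_of_nonneg_left ?_ (by positivity)
    linarith
  have a9 : ∀ A B C D : ℂ, ‖A - D‖ ≤ ‖A - B‖ + ‖B - C‖ + ‖D - C‖ := by
    intro A B C D
    have h1 : A - D = (A - B) + (B - C) + (C - D) := by ring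
    rw [h1]
    refine (norm_add₃_le).trans ?_
    rw [norm_sub_rev C D]
  refine (a9 _ (iav M H (fun n => ∑ k ∈ range K, (((u * S n : ℝ) : ℂ) * Complex.I) ^ k /
    k.factorial)) (mean Q (fun n => ∑ k ∈ range K, (((u * S n : ℝ) : ℂ) * Complex.I) ^ k /
    k.factorial)) _).trans ?_
  linarith

end Pool.Agent.Y834.BF
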