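import Pool.Agent.Y834.BF.Sup

/-!
# The product of Birch and Swinnerton-Dyer for almost all members of the pencil, at all heights
-/

set_option autoImplicit false
set_option linter.all false

namespace Pool.Agent.Y834.BF

open Finset

lemma W_le : ∃ C : ℝ, 0 ≤ C ∧ ∀ (X : ℕ) (s : ℝ), 0 ≤ s →
    (5 ≤ X → Real.log (Real.log X) ≤ s) → ∑ l ∈ pr X, 1 / (l : ℝ) ≤ s + C := by
  obtain ⟨C, hC0, hC⟩ := mert
  refine ⟨C, hC0, fun X s hs hX => ?_⟩
  rcases Nat.lt_or_ge X 5 with h | h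
  · have h1 : pr X = ∅ := by
      ext l
      rw [mem_pr]
      simp only [notMem_empty, iff_false]
      omega
    rw [h1, sum_empty]
    positivity
  · have h1 := (abs_le.1 (hC X h)).2
    have h2 := hX h
    change ∑ l ∈ pr X, 1 / (l : ℝ) - _ ≤ C at h1
    linarith

lemma markov {M : ℤ} {H : ℕ} {p : ℤ → Prop} [DecidablePred p] {Z : ℤ → ℝ} (h0 : ∀ n, 0 ≤ Z n)
    (h1 : ∀ n, p n → 1 ≤ Z n) {δ : ℝ} (hZ : iav M H Z ≤ δ) :
    (((Ioc M (M + H)).filter p).card : ℝ) ≤ δ * H := by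
  rcases Nat.eq_zero_or_pos H with rfl | hH
  · simp
  have hHr : (0 : ℝ) < H := by exact_mod_cast hH
  have h2 : (((Ioc M (M + H)).filter p).card : ℝ) ≤ ∑ n ∈ Ioc M (M + H), Z n := by
    calc (((Ioc M (M + H)).filter p).card : ℝ) = ∑ n ∈ (Ioc M (M + H)).filter p, (1 : ℝ) := by
          rw [sum_const, nsmul_eq_mul, mul_one]
      _ ≤ ∑ n ∈ (Ioc M (M + H)).filter p, Z n := by
          refine sum_le_sum fun n hn => h1 n (mem_filter.1 hn).2
      _ ≤ _ := sum_le_sum_of_subset_of_nonneg (filter_subset _ _) fun n _ _ => h0 n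
  unfold iav at hZ
  rw [div_le_iff₀ hHr] at hZ
  exact h2.trans hZ

/-- the threshold of the block `j` -/
noncomputable def tt (j : ℕ) : ℝ := Real.sqrt (2 ^ j * (j * Real.log 2))

lemma tt_four (j : ℕ) : tt j ^ 4 = (2 ^ j) ^ 2 * (j * Real.log 2) ^ 2 := by
  have h2 : 0 < Real.log 2 := Real.log_pos (by norm_num)
  have h : tt j ^ 2 = 2 ^ j * (j * Real.log 2) := by
    unfold tt
    exact Real.sq_sqrt (by positivity)
  calc tt j ^ 4 = (tt j ^ 2) ^ 2 := by ring
    _ = _ := by rw [h]; ring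

lemma tt_le {j : ℕ} {y : ℝ} (hj : (2 : ℝ) ^ j ≤ y) : tt j ≤ Real.sqrt (y * Real.log y) := by
  unfold tt
  have h2 : 0 < Real.log 2 := Real.log_pos (by norm_num)
  have hp : (0 : ℝ) < 2 ^ j := by positivity
  refine Real.sqrt_le_sqrt ?_
  have h3 : (j : ℝ) * Real.log 2 ≤ Real.log y := by
    rw [← Real.log_pow]
    exact Real.log_le_log hp hj
  have h4 : 0 ≤ (j : ℝ) * Real.log 2 := by positivity
  exact mul_le_mul hj h3 h4 (by linarith)

/-- For almost all members of the pencil the product follows `(log x)^{1/2}` at all heights. -/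
theorem law {κ δ : ℝ} (hκ : 0 ≤ κ) (hδ : 0 < δ) : ∃ X0 : ℕ, 5 ≤ X0 ∧
    ∀ a : ℤ, a ≠ 0 → om a ≤ κ → ∀ (M : ℤ) (H : ℕ) [DecidablePred fun n : ℤ => ∃ x : ℕ, X0 ≤ x ∧ 2 * x ^ 12 ≤ H ∧
        Real.sqrt (Real.log (Real.log x) * Real.log (Real.log (Real.log x))) <
          |Real.log (bsd a n x) - 1 / 2 * Real.log (Real.log x)|],
      (((Ioc M (M + H)).filter (fun n : ℤ => ∃ x : ℕ, X0 ≤ x ∧ 2 * x ^ 12 ≤ H ∧
        Real.sqrt (Real.log (Real.log x) * Real.log (Real.log (Real.log x))) <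
          |Real.log (bsd a n x) - 1 / 2 * Real.log (Real.log x)|)).card : ℝ) ≤ δ * H := by
  classical
  obtain ⟨C0, hC00, hC0⟩ : ∃ C : ℝ, 0 ≤ C ∧ ∀ a : ℤ, a ≠ 0 → om a ≤ κ → ∀ (n : ℤ) (x : ℕ),
      5 ≤ x → |Real.log (bsd a n x) - 1 / 2 * Real.log (Real.log x) + SS a n x +
        1 / 2 * VV a n x| ≤ C + DD a n x := by
    obtain ⟨C, hC0, hC⟩ := pointwise
    refine ⟨C + 2 * κ, by positivity, fun a ha hom n x hx => (hC a ha n x hx).trans ?_⟩
    linarith
  obtain ⟨CM, hCM0, hCM⟩ := W_le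
  obtain ⟨CD, hCD0, hCD⟩ := iav_DD
  have hl2 : 0 < Real.log 2 := Real.log_pos (by norm_num)
  set B : ℝ := 4 * C0 + 8 * CD / δ + 1 with hB
  have hB0 : 0 < B := by positivity
  have hB1 : 4 * C0 ≤ B := by
    have : 0 ≤ 8 * CD / δ := by positivity
    linarith
  have hB2 : 4 * CD / B ≤ δ / 2 := by
    rw [div_le_iff₀ hB0]
    have h1 : 8 * CD / δ ≤ B := by linarith
    rw [div_le_iff₀ hδ] at h1
    linarith
  set K : ℝ := 16 * (1366 * 6144 * (2 + CM) ^ 2) / (Real.log 2) ^ 2 with hK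
  have hK0 : 0 < K := by positivity
  have hsum : Summable (fun j : ℕ => 1 / (j : ℝ) ^ 2) :=
    Real.summable_one_div_nat_pow.2 (by norm_num)
  obtain ⟨s, hs⟩ := summable_iff_vanishing_norm.1 hsum (δ / 2 / K) (by positivity)
  obtain ⟨j1, hj1⟩ := exists_nat_ge (B ^ 2 / Real.log 2)
  set j0 : ℕ := s.sup id + 1 + j1 with hj0
  have htail : ∀ J : ℕ, ∑ j ∈ Icc j0 J, 1 / (j : ℝ) ^ 2 ≤ δ / 2 / K := by
    intro J
    have h1 : Disjoint (Icc j0 J) s := by
      rw [disjoint_left]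
      intro j h1 h2
      rw [mem_Icc] at h1
      have h3 : j ≤ s.sup id := le_sup (f := id) h2
      omega
    have h2 := (hs _ h1).le
    rw [Real.norm_eq_abs] at h2
    exact (le_abs_self _).trans h2
  have htB : ∀ j, j0 ≤ j → B ≤ tt j := by
    intro j hj
    unfold tt
    refine Real.le_sqrt_of_sq_le ?_
    have h1 : (j1 : ℝ) ≤ j := by
      have : j1 ≤ j := by omega
      exact_mod_cast this
    have h2 := hj1.trans h1
    rw [div_le_iff₀ hl2] at h2
    have h3 : (1 : ℝ) ≤ 2 ^ j := one_le_pow₀ (by norm_num)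
    have h4 : 0 ≤ (j : ℝ) * Real.log 2 := by positivity
    nlinarith
  obtain ⟨X0, hX0⟩ := exists_nat_ge (Real.exp (Real.exp (2 ^ j0)))
  refine ⟨X0 + 5, by omega, fun a ha hom M H _ => ?_⟩
  -- the heights allowed
  set X := Nat.findGreatest (fun x : ℕ => 2 * x ^ 12 ≤ H) H with hX
  have hXle : ∀ x : ℕ, 2 * x ^ 12 ≤ H → x ≤ X := by
    intro x hx
    refine Nat.le_findGreatest ?_ hx
    have h1 : x ≤ x ^ 12 := Nat.le_self_pow (by norm_num) x
    omega
  have hXspec : 2 * X ^ 12 ≤ H := by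
    have := Nat.findGreatest_spec (P := fun x : ℕ => 2 * x ^ 12 ≤ H) (n := H) (m := 0)
      (by omega) (by simp)
    exact this
  rcases Nat.lt_or_ge X 4 with hX4 | hX4
  · have h1 : (Ioc M (M + H)).filter (fun n : ℤ => ∃ x : ℕ, X0 + 5 ≤ x ∧ 2 * x ^ 12 ≤ H ∧
        Real.sqrt (Real.log (Real.log x) * Real.log (Real.log (Real.log x))) <
          |Real.log (bsd a n x) - 1 / 2 * Real.log (Real.log x)|) = ∅ := by
      rw [filter_eq_empty_iff]
      rintro n _ ⟨x, h1, h2, _⟩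
      have := hXle x h2
      omega
    rw [h1]
    simp only [card_empty, Nat.cast_zero]
    positivity
  set Q : ℕ → ℤ → ℕ → Prop := fun j n x => 4 ≤ x ∧ x ≤ X ∧
    (5 ≤ x → Real.log (Real.log x) ≤ 2 ^ (j + 1)) ∧ tt j / 2 < |TT a n x| with hQ
  set v : ℕ → ℤ → ℕ := fun j n => if h : ∃ x, Q j n x then h.choose else 4 with hv
  set XX : ℕ → ℕ := fun j => ((Icc 4 X).filter (fun x : ℕ =>
    5 ≤ x → Real.log (Real.log x) ≤ 2 ^ (j + 1))).sup id with hXX
  have hXXmem : ∀ j, XX j ∈ (Icc 4 X).filter (fun x : ℕ =>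
      5 ≤ x → Real.log (Real.log x) ≤ 2 ^ (j + 1)) := by
    intro j
    have hne : ((Icc 4 X).filter (fun x : ℕ =>
        5 ≤ x → Real.log (Real.log x) ≤ 2 ^ (j + 1))).Nonempty := by
      refine ⟨4, ?_⟩
      rw [mem_filter, mem_Icc]
      exact ⟨⟨le_rfl, hX4⟩, fun h => absurd h (by norm_num)⟩
    obtain ⟨y, hy1, hy2⟩ := exists_mem_eq_sup _ hne id
    simp only [hXX]
    rw [hy2]
    exact hy1
  have hv1 : ∀ j n, 4 ≤ v j n := by
    intro j n
    simp only [hv]
    split_ifs with h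
    · exact h.choose_spec.1
    · exact le_rfl
  have hv2 : ∀ j n, v j n ≤ XX j := by
    intro j n
    simp only [hv]
    split_ifs with h
    · refine le_sup (f := id) ?_
      rw [mem_filter, mem_Icc]
      exact ⟨⟨h.choose_spec.1, h.choose_spec.2.1⟩, h.choose_spec.2.2.1⟩
    · have := hXXmem j
      rw [mem_filter, mem_Icc] at this
      exact this.1.1
  set Z : ℤ → ℝ := fun n => ∑ j ∈ Icc j0 X, (2 / tt j) ^ 4 * |TT a n (v j n)| ^ 4 +
    (4 / B) * DD a n X with hZ
  refine markov (Z := Z) ?_ ?_ ?_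
  · intro n
    have := DD_nonneg a n X
    simp only [hZ]
    positivity
  · rintro n ⟨x, hx1, hx2, hx3⟩
    have hxX := hXle x hx2
    have hx0 : (0 : ℝ) < x := by
      have : 0 < x := by omega
      exact_mod_cast this
    have hx4 : Real.exp (Real.exp (2 ^ j0)) ≤ x := by
      refine hX0.trans ?_
      have : X0 ≤ x := by omega
      exact_mod_cast this
    have hL1 : Real.exp (2 ^ j0) ≤ Real.log x := (Real.le_log_iff_exp_le hx0).2 hx4
    have hLpos : 0 < Real.log x := lt_of_lt_of_le (Real.exp_pos _) hL1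
    have hL2 : (2 : ℝ) ^ j0 ≤ Real.log (Real.log x) := (Real.le_log_iff_exp_le hLpos).2 hL1
    have hL3 : (1 : ℝ) ≤ Real.log (Real.log x) := (one_le_pow₀ (by norm_num)).trans hL2
    obtain ⟨j, hja, hjb⟩ := exists_nat_pow_near hL3 (by norm_num : (1 : ℝ) < 2)
    have hj : j0 ≤ j := by
      have h1 : (2 : ℝ) ^ j0 < 2 ^ (j + 1) := lt_of_le_of_lt hL2 hjb
      have h2 := (pow_lt_pow_iff_right₀ (by norm_num : (1 : ℝ) < 2)).1 h1
      omega
    have hjX : j ≤ X := by
      have h1 : Real.log (Real.log x) ≤ x :=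
        (Real.log_le_self hLpos.le).trans (Real.log_le_self hx0.le)
      have h2 : (2 : ℝ) ^ j ≤ x := hja.trans h1
      have h3 : 2 ^ j ≤ x := by exact_mod_cast h2
      have h4 : j < 2 ^ j := Nat.lt_two_pow_self
      omega
    have ht := tt_le hja
    have h1 := hC0 a ha hom n x (by omega)
    have h2 : |Real.log (bsd a n x) - 1 / 2 * Real.log (Real.log x)| ≤
        |TT a n x| + (C0 + DD a n x) := by
      have h3 : Real.log (bsd a n x) - 1 / 2 * Real.log (Real.log x) =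
          (Real.log (bsd a n x) - 1 / 2 * Real.log (Real.log x) + SS a n x +
            1 / 2 * VV a n x) - TT a n x := by
        rw [TT_eq]
        ring
      rw [h3]
      refine (abs_sub _ _).trans ?_
      linarith
    have h3 := DD_mono a n hxX
    have h4 := htB j hj
    have htp : 0 < tt j := lt_of_lt_of_le hB0 h4
    have hDn := DD_nonneg a n X
    rcases lt_or_ge (tt j / 2) |TT a n x| with h5 | h5
    · have hex : ∃ x, Q j n x := ⟨x, by omega, hxX, fun _ => hjb.le, h5⟩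
      have h6 : v j n = hex.choose := by
        simp only [hv]
        rw [dif_pos hex]
      have h7 : tt j / 2 < |TT a n (v j n)| := by
        rw [h6]
        exact hex.choose_spec.2.2.2
      have h8 : 1 ≤ (2 / tt j) ^ 4 * |TT a n (v j n)| ^ 4 := by
        rw [← mul_pow]
        refine one_le_pow₀ ?_
        rw [div_mul_eq_mul_div, le_div_iff₀ htp]
        linarith
      have h9 : (2 / tt j) ^ 4 * |TT a n (v j n)| ^ 4 ≤
          ∑ j ∈ Icc j0 X, (2 / tt j) ^ 4 * |TT a n (v j n)| ^ 4 :=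
        single_le_sum (f := fun j => (2 / tt j) ^ 4 * |TT a n (v j n)| ^ 4)
          (fun j _ => by positivity) (mem_Icc.2 ⟨hj, hjX⟩)
      simp only [hZ]
      have h10 : 0 ≤ 4 / B * DD a n X := by positivity
      linarith
    · have h6 : B / 4 ≤ DD a n X := by linarith
      simp only [hZ]
      have h10 : 0 ≤ ∑ j ∈ Icc j0 X, (2 / tt j) ^ 4 * |TT a n (v j n)| ^ 4 :=
        sum_nonneg fun j _ => by positivity
      have h11 : 1 ≤ 4 / B * DD a n X := by
        rw [div_mul_eq_mul_div, le_div_iff₀ hB0]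
        linarith
      linarith
  · have hX2 : X ^ 2 ≤ H := by
      have h1 : X ^ 2 ≤ X ^ 12 := Nat.pow_le_pow_right (by omega) (by norm_num)
      omega
    have e0 : iav M H Z = ∑ j ∈ Icc j0 X, (2 / tt j) ^ 4 *
        iav M H (fun n => |TT a n (v j n)| ^ 4) + 4 / B * iav M H (fun n => DD a n X) := by
      simp only [hZ]
      rw [iav_add, iav_const_mul, iav_sum (Icc j0 X) M H
        (fun (j : ℕ) (n : ℤ) => (2 / tt j) ^ 4 * |TT a n (v j n)| ^ 4)]
      congr 1
      refine sum_congr rfl fun j _ => ?_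
      rw [iav_const_mul]
    rw [e0]
    have e1 : 4 / B * iav M H (fun n => DD a n X) ≤ δ / 2 := by
      refine (mul_le_mul_of_nonneg_left (hCD a X M H hX2) (by positivity)).trans ?_
      rw [div_mul_eq_mul_div]
      exact hB2
    have e2 : ∑ j ∈ Icc j0 X, (2 / tt j) ^ 4 * iav M H (fun n => |TT a n (v j n)| ^ 4) ≤
        ∑ j ∈ Icc j0 X, K * (1 / (j : ℝ) ^ 2) := by
      refine sum_le_sum fun j hj => ?_
      have hj' := (mem_Icc.1 hj).1
      have hjpos : (0 : ℝ) < j := by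
        have : 0 < j := by omega
        exact_mod_cast this
      have hm := hXXmem j
      rw [mem_filter, mem_Icc] at hm
      have h1 := max_four a hm.1.1 M (H := H) (by
        have : XX j ^ 12 ≤ X ^ 12 := Nat.pow_le_pow_left hm.1.2 12
        omega) (v j) (hv1 j) (hv2 j)
      have h2 := hCM (XX j) (2 ^ (j + 1)) (by positivity) hm.2
      have h3 : ∑ l ∈ pr (XX j), 1 / (l : ℝ) ≤ (2 + CM) * 2 ^ j := by
        refine h2.trans ?_
        have h4 : (1 : ℝ) ≤ 2 ^ j := one_le_pow₀ (by norm_num)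
        rw [pow_succ]
        nlinarith
      have h4 : 0 ≤ ∑ l ∈ pr (XX j), 1 / (l : ℝ) := sum_nonneg fun l _ => by positivity
      have h5 : (∑ l ∈ pr (XX j), 1 / (l : ℝ)) ^ 2 ≤ ((2 + CM) * 2 ^ j) ^ 2 :=
        pow_le_pow_left₀ h4 h3 2
      have htp : 0 < tt j := lt_of_lt_of_le hB0 (htB j hj')
      calc (2 / tt j) ^ 4 * iav M H (fun n => |TT a n (v j n)| ^ 4)
          ≤ (2 / tt j) ^ 4 * (1366 * 6144 * ((2 + CM) * 2 ^ j) ^ 2) := by
            refine mul_le_mul_of_nonneg_left (h1.trans ?_) (by positivity)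
            gcongr
        _ = K * (1 / (j : ℝ) ^ 2) := by
            rw [div_pow, tt_four, hK]
            have h6 : (2 : ℝ) ^ j ≠ 0 := by positivity
            field_simp
            ring
    rw [← mul_sum] at e2
    have e3 : K * ∑ j ∈ Icc j0 X, 1 / (j : ℝ) ^ 2 ≤ δ / 2 := by
      have h1 := htail X
      rw [le_div_iff₀ hK0] at h1
      linarith
    linarith

end Pool.Agent.Y834.BF
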