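import Pool.Agent.Y834.BF.CF
import Pool.Agent.Y834.BF.Law

/-!
# The characteristic function of the logarithm of the product on intervals of the pencil
-/

set_option autoImplicit false
set_option linter.all false

namespace Pool.Agent.Y834.BF

open Finset

lemma mean_KK_sq (a : ℤ) {l : ℕ} (hl : l.Prime) (h5 : 5 ≤ l) :
    |mean l (fun n => KK a l n ^ 2) - EE a l| ≤ 12 * (1 / ((l : ℝ) * Real.sqrt l)) := by
  have hl0 : (0 : ℝ) < l := by exact_mod_cast hl.pos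
  have hl1 : (1 : ℝ) ≤ l := by exact_mod_cast hl.one_lt.le
  have hs0 : 0 < Real.sqrt l := Real.sqrt_pos.2 hl0
  have hs1 : Real.sqrt l ≤ l := by
    rw [Real.sqrt_le_left hl0.le]
    nlinarith
  have h1 : (fun n : ℤ => KK a l n ^ 2) = fun n => (FF a l n) ^ 2 +
      (FF a l n * ((FF a l n) ^ 2 - EE a l) + 1 / 4 * ((FF a l n) ^ 2 - EE a l) ^ 2) := by
    funext n
    unfold KK
    ring
  have h2 : mean l (fun n => (FF a l n) ^ 2) = EE a l := rfl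
  rw [h1, mean_add, h2, add_sub_cancel_left]
  rw [← Real.norm_eq_abs]
  refine norm_mean_le (fun n => ?_) hl.pos
  rw [Real.norm_eq_abs]
  have e1 := abs_FF_le a n hl h5
  have e2 := sq_le (a := a) hl h5 n
  have e3 := EE_nonneg a l
  have e4 := EE_le (a := a) hl h5
  have e5 : 0 ≤ (ap a n l / l) ^ 2 := sq_nonneg _
  have e7 : |(FF a l n) ^ 2 - EE a l| ≤ 4 / l := by
    unfold FF
    rw [abs_le]
    constructor <;> linarith
  have e8 : |FF a l n * ((FF a l n) ^ 2 - EE a l)| ≤ 8 * (1 / ((l : ℝ) * Real.sqrt l)) := by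
    rw [abs_mul]
    calc |FF a l n| * |(FF a l n) ^ 2 - EE a l| ≤ 2 / Real.sqrt l * (4 / l) :=
          mul_le_mul e1 e7 (abs_nonneg _) (by positivity)
      _ = 8 * (1 / ((l : ℝ) * Real.sqrt l)) := by
          field_simp
          ring
  have e9 : |1 / 4 * ((FF a l n) ^ 2 - EE a l) ^ 2| ≤ 4 * (1 / ((l : ℝ) * Real.sqrt l)) := by
    rw [abs_mul, abs_of_pos (by norm_num : (0 : ℝ) < 1 / 4), abs_pow]
    have h3 : |(FF a l n) ^ 2 - EE a l| ^ 2 ≤ (4 / l) ^ 2 := pow_le_pow_left₀ (abs_nonneg _) e7 2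
    have h4 : (4 / (l : ℝ)) ^ 2 ≤ 16 * (1 / ((l : ℝ) * Real.sqrt l)) := by
      rw [div_pow, mul_one_div]
      have : (l : ℝ) * Real.sqrt l ≤ (l : ℝ) ^ 2 := by
        rw [sq]
        exact mul_le_mul_of_nonneg_left hs1 hl0.le
      calc (4 : ℝ) ^ 2 / (l : ℝ) ^ 2 ≤ 4 ^ 2 / ((l : ℝ) * Real.sqrt l) := by gcongr
        _ = _ := by norm_num
    linarith
  refine (abs_add_le _ _).trans ?_
  linarith

lemma var_KK {κ : ℝ} (hκ : 0 ≤ κ) : ∃ C : ℝ, 0 ≤ C ∧ ∀ a : ℤ, a ≠ 0 → om a ≤ κ → ∀ y : ℕ, 5 ≤ y →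
    |∑ l ∈ pr y, mean l (fun n => KK a l n ^ 2) - Real.log (Real.log y)| ≤ C := by
  obtain ⟨CT, hCT0, hCT⟩ := sum_T_le
  obtain ⟨CM, hCM0, hCM⟩ := mert
  obtain ⟨CE, hCE0, hCE⟩ := sum_EE
  refine ⟨12 * CT + (CE + 4 * κ) + CM, by positivity, fun a ha hom y hy => ?_⟩
  have hprm : ∀ l ∈ pr y, l.Prime ∧ 5 ≤ l := fun l hl => by
    rw [mem_pr] at hl
    exact ⟨hl.2.2, hl.1⟩
  have h1 : |∑ l ∈ pr y, (mean l (fun n => KK a l n ^ 2) - EE a l)| ≤ 12 * CT := by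
    refine (abs_sum_le_sum_abs _ _).trans ?_
    refine le_trans (sum_le_sum fun l hl => mean_KK_sq a (hprm l hl).1 (hprm l hl).2) ?_
    rw [← mul_sum]
    exact mul_le_mul_of_nonneg_left (hCT _) (by norm_num)
  have h2 := (hCE a ha (pr y) hprm).trans (show CE + 4 * om a ≤ CE + 4 * κ by linarith)
  have h3 := hCM y hy
  change |∑ l ∈ pr y, 1 / (l : ℝ) - Real.log (Real.log y)| ≤ CM at h3
  rw [sum_sub_distrib] at h1 h2
  have e1 := abs_le.1 h1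
  have e2 := abs_le.1 h2
  have e3 := abs_le.1 h3
  rw [abs_le]
  constructor <;> linarith [e1.1, e1.2, e2.1, e2.2, e3.1, e3.2]

/-- the root of `x` -/
lemma root {K : ℕ} (hK : 1 ≤ K) {x : ℕ} (hx : 5 ^ K ≤ x) : ∃ y : ℕ, 5 ≤ y ∧ y ≤ x ∧ y ^ K ≤ x ∧
    Real.log (Real.log x) ≤ Real.log (Real.log y) + Real.log (2 * K) := by
  set y := Nat.findGreatest (fun y : ℕ => y ^ K ≤ x) x with hy
  have h5x : 5 ≤ x := (Nat.le_self_pow (by omega) 5).trans hx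
  have h1 : y ^ K ≤ x := by
    have := Nat.findGreatest_spec (P := fun y : ℕ => y ^ K ≤ x) (n := x) (m := 5) h5x hx
    exact this
  have h2 : 5 ≤ y := Nat.le_findGreatest h5x hx
  have h3 : y ≤ x := Nat.findGreatest_le x
  have h4 : x < (y + 1) ^ K := by
    by_contra h
    push Not at h
    have h5 : y + 1 ≤ x := (Nat.le_self_pow (by omega) _).trans h
    have h6 := Nat.le_findGreatest (P := fun y : ℕ => y ^ K ≤ x) h5 h
    omega
  refine ⟨y, h2, h3, h1, ?_⟩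
  have hx0 : (0 : ℝ) < x := by
    have : 0 < x := by omega
    exact_mod_cast this
  have hy5 : (5 : ℝ) ≤ y := by exact_mod_cast h2
  have hKr : (1 : ℝ) ≤ K := by exact_mod_cast hK
  have hly : 0 < Real.log y := Real.log_pos (by linarith)
  have hx5 : (5 : ℝ) ≤ x := by exact_mod_cast h5x
  have hlx : 0 < Real.log x := Real.log_pos (by linarith)
  have h5 : Real.log x ≤ 2 * K * Real.log y := by
    have h6 : (x : ℝ) ≤ ((y : ℝ) + 1) ^ K := by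
      have : (x : ℝ) ≤ ((y + 1) ^ K : ℕ) := by exact_mod_cast h4.le
      push_cast at this
      exact this
    have h7 : (y : ℝ) + 1 ≤ (y : ℝ) ^ 2 := by nlinarith
    have h8 := Real.log_le_log hx0 h6
    rw [Real.log_pow] at h8
    have h9 := Real.log_le_log (by linarith) h7
    rw [Real.log_pow] at h9
    push_cast at h9
    have h10 : (K : ℝ) * Real.log ((y : ℝ) + 1) ≤ K * (2 * Real.log y) :=
      mul_le_mul_of_nonneg_left h9 (by linarith)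
    linarith
  have h6 := Real.log_le_log hlx h5
  rw [Real.log_mul (by positivity) hly.ne'] at h6
  linarith

/-- the primes above the truncation -/
lemma tail_four (a : ℤ) {CM : ℝ} (hCM : ∀ x : ℕ, 5 ≤ x →
    |∑ l ∈ pr x, 1 / (l : ℝ) - Real.log (Real.log x)| ≤ CM) {x y : ℕ} (hy : 5 ≤ y) (hyx : y ≤ x)
    {D : ℝ} (hD : Real.log (Real.log x) ≤ Real.log (Real.log y) + D) (M : ℤ) {H : ℕ}
    (hH : 2 * x ^ 12 ≤ H) :
    iav M H (fun n => |TT a n x - TT a n y|) ≤ 1 + 24 * (16 * (D + 2 * CM)) ^ 2 := by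
  classical
  have hsub : pr y ⊆ pr x := by
    intro l hl
    rw [mem_pr] at hl ⊢
    exact ⟨hl.1, hl.2.1.trans hyx, hl.2.2⟩
  have hP : ∀ l ∈ pr x \ pr y, l.Prime ∧ 5 ≤ l := by
    intro l hl
    rw [mem_sdiff, mem_pr] at hl
    exact ⟨hl.1.2.2, hl.1.1⟩
  have hPX : ∀ l ∈ pr x \ pr y, l ≤ x := by
    intro l hl
    rw [mem_sdiff, mem_pr] at hl
    exact hl.1.2.1
  have hlr : ∀ l ∈ pr x \ pr y, (1 : ℝ) ≤ l ∧ (1 : ℝ) ≤ Real.sqrt l ∧ Real.sqrt l ≤ x := by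
    intro l hl
    have h4 : (1 : ℝ) ≤ l := by exact_mod_cast (hP l hl).1.one_lt.le
    have h5 : (l : ℝ) ≤ x := by exact_mod_cast hPX l hl
    refine ⟨h4, ?_, ?_⟩
    · rw [Real.one_le_sqrt]
      exact h4
    · refine le_trans ?_ h5
      rw [Real.sqrt_le_left (by linarith)]
      nlinarith
  have h4 := iav_four (fam a hP) (by omega : 1 ≤ x) hPX (κ := 4) (by norm_num)
    (fun p hp => by
      obtain ⟨e1, e2, e3⟩ := hlr p hp
      gcongr)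
    (fun p hp => by
      obtain ⟨e1, e2, e3⟩ := hlr p hp
      rw [div_le_iff₀ (by linarith)]
      linarith) M hH
  have h5 : ∀ n, TT a n x - TT a n y = ∑ l ∈ pr x \ pr y, KK a l n := by
    intro n
    unfold TT
    rw [← sum_sdiff hsub]
    ring
  have h6 : ∑ l ∈ pr x \ pr y, (4 / Real.sqrt l) ^ 2 =
      16 * (∑ l ∈ pr x, 1 / (l : ℝ) - ∑ l ∈ pr y, 1 / (l : ℝ)) := by
    rw [← sum_sdiff (f := fun l : ℕ => 1 / (l : ℝ)) hsub, add_sub_cancel_right, mul_sum]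
    refine sum_congr rfl fun l _ => ?_
    rw [div_pow, Real.sq_sqrt (Nat.cast_nonneg _)]
    ring
  have h7 : 0 ≤ ∑ l ∈ pr x \ pr y, (4 / Real.sqrt (l : ℝ)) ^ 2 :=
    sum_nonneg fun l _ => sq_nonneg _
  have h8 : ∑ l ∈ pr x \ pr y, (4 / Real.sqrt (l : ℝ)) ^ 2 ≤ 16 * (D + 2 * CM) := by
    rw [h6]
    have e1 := abs_le.1 (hCM x (by omega))
    have e2 := abs_le.1 (hCM y hy)
    linarith [e1.2, e2.1]
  have h9 : (∑ l ∈ pr x \ pr y, (4 / Real.sqrt (l : ℝ)) ^ 2) ^ 2 ≤ (16 * (D + 2 * CM)) ^ 2 :=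
    pow_le_pow_left₀ h7 h8 2
  have hH0 : 0 < H := by
    have : 0 < x ^ 12 := by
      have : 0 < x := by omega
      positivity
    omega
  have h10 : iav M H (fun n => |TT a n x - TT a n y|) ≤
      iav M H (fun n => 1 + |∑ l ∈ pr x \ pr y, KK a l n| ^ 4) := by
    refine iav_mono fun n => ?_
    rw [h5]
    set r := |∑ l ∈ pr x \ pr y, KK a l n| with hr
    have hr0 : 0 ≤ r := abs_nonneg _
    rcases le_or_gt r 1 with h | h
    · have : 0 ≤ r ^ 4 := by positivity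
      linarith
    · have : r ≤ r ^ 4 := le_self_pow₀ h.le (by norm_num)
      linarith
  refine h10.trans ?_
  rw [iav_add, iav_const M hH0]
  linarith

/-- the error of the first step -/
lemma err_one {θ u ε : ℝ} (hu : |u| ≤ |θ|) (hε : 0 < ε) {K x y x1 H : ℕ} (hx : 1 ≤ x)
    (hH : 2 * x ^ 12 ≤ H) (hy : y ^ K ≤ x) (h1 : 2 * Real.exp |θ| * 4 ^ K / (ε / 4) ≤ x1)
    (h2 : x1 ≤ x) : 2 * Real.exp |u| * (2 * (4 * (y : ℝ) ^ 2) ^ K / H) ≤ ε / 4 := by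
  have hx1' : (1 : ℝ) ≤ x := by exact_mod_cast hx
  have hx0 : (0 : ℝ) < x := by linarith
  have h5 : (2 : ℝ) * x ^ 12 ≤ H := by exact_mod_cast hH
  have hHr : (0 : ℝ) < H := lt_of_lt_of_le (by positivity) h5
  have e1 : Real.exp |u| ≤ Real.exp |θ| := Real.exp_le_exp.2 hu
  have e2 : 2 * (4 * (y : ℝ) ^ 2) ^ K / H ≤ 4 ^ K / x := by
    rw [div_le_div_iff₀ hHr hx0]
    have h0 : (4 * (y : ℝ) ^ 2) ^ K = 4 ^ K * ((y : ℝ) ^ K) ^ 2 := by
      rw [mul_pow, ← pow_mul, ← pow_mul, mul_comm 2 K]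
    have h3 : (y : ℝ) ^ K ≤ x := by exact_mod_cast hy
    have h4 : ((y : ℝ) ^ K) ^ 2 ≤ (x : ℝ) ^ 2 := pow_le_pow_left₀ (by positivity) h3 2
    have h6 : (x : ℝ) ^ 3 ≤ x ^ 12 := pow_le_pow_right₀ hx1' (by norm_num)
    rw [h0]
    calc 2 * (4 ^ K * ((y : ℝ) ^ K) ^ 2) * x ≤ 2 * (4 ^ K * (x : ℝ) ^ 2) * x := by gcongr
      _ = 4 ^ K * (2 * (x : ℝ) ^ 3) := by ring
      _ ≤ 4 ^ K * (2 * (x : ℝ) ^ 12) := by gcongr
      _ ≤ 4 ^ K * H := by gcongr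
  calc 2 * Real.exp |u| * (2 * (4 * (y : ℝ) ^ 2) ^ K / H) ≤
        2 * Real.exp |θ| * (4 ^ K / x) := by gcongr
    _ ≤ ε / 4 := by
      rw [← mul_div_assoc, div_le_iff₀ hx0]
      have h3 : (x1 : ℝ) ≤ x := by exact_mod_cast h2
      have h4 := h1.trans h3
      rw [div_le_iff₀ (by positivity)] at h4
      linarith

lemma sum_c_sq (y : ℕ) : ∑ p ∈ pr y, (4 / Real.sqrt (p : ℝ)) ^ 2 =
    16 * ∑ p ∈ pr y, 1 / (p : ℝ) := by
  rw [mul_sum]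
  refine sum_congr rfl fun l _ => ?_
  rw [div_pow, Real.sq_sqrt (Nat.cast_nonneg _)]
  ring

lemma err_two {θ Λ σ CM W : ℝ} (hΛ : Λ = 2 * (|θ| + 1)) (hσ1 : 1 ≤ σ) (hCM : 0 ≤ CM)
    (hW : W ≤ σ ^ 2 + CM) (K : ℕ) :
    4 * ((|θ| / σ) / (Λ / σ)) ^ K * Real.exp ((Λ / σ) ^ 2 / 2 * (16 * W)) ≤
      4 * (1 / 2) ^ K * Real.exp (8 * Λ ^ 2 * (1 + CM)) := by
  have hσ0 : 0 < σ := by linarith
  have hΛ0 : 0 < Λ := by rw [hΛ]; positivity
  have h1 : (|θ| / σ) / (Λ / σ) ≤ 1 / 2 := by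
    rw [div_div_div_cancel_right₀ hσ0.ne', div_le_iff₀ hΛ0]
    have := abs_nonneg θ
    rw [hΛ]
    linarith
  have h4 : (Λ / σ) ^ 2 / 2 * (16 * W) ≤ 8 * Λ ^ 2 * (1 + CM) := by
    have h5 : (1 : ℝ) ≤ σ ^ 2 := one_le_pow₀ hσ1
    calc (Λ / σ) ^ 2 / 2 * (16 * W) ≤
          (Λ / σ) ^ 2 / 2 * (16 * (σ ^ 2 + CM)) := by gcongr
      _ ≤ (Λ / σ) ^ 2 / 2 * (16 * (σ ^ 2 * (1 + CM))) := by
          gcongr
          nlinarith
      _ = 8 * Λ ^ 2 * (1 + CM) := by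
          rw [div_pow]
          field_simp
          ring
  have h6 : 0 ≤ (|θ| / σ) / (Λ / σ) := by positivity
  have h7 : ((|θ| / σ) / (Λ / σ)) ^ K ≤ (1 / 2) ^ K := pow_le_pow_left₀ h6 h1 K
  have h8 := Real.exp_le_exp.2 h4
  gcongr

lemma err_three_one {θ σ u : ℝ} (hσ1 : 1 ≤ σ) (hu : u = -(θ / σ)) {p : ℝ} (hp1 : 1 ≤ p) :
    |u| ^ 3 * (4 / Real.sqrt p) ^ 3 / 6 + (u ^ 2 / 2 * (4 / Real.sqrt p) ^ 2) ^ 2 / 2 ≤
      (32 * (|θ| ^ 3 + θ ^ 4) / σ) * (1 / (p * Real.sqrt p)) := by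
  have hσ0 : 0 < σ := by linarith
  have hp0 : 0 < p := by linarith
  have hua : |u| = |θ| / σ := by
    rw [hu, abs_neg, abs_div, abs_of_pos hσ0]
  have hs0 : 0 < Real.sqrt p := Real.sqrt_pos.2 hp0
  have hs1 : Real.sqrt p ≤ p := by
    rw [Real.sqrt_le_left hp0.le]
    nlinarith
  have hs2 : Real.sqrt p ^ 2 = p := Real.sq_sqrt hp0.le
  have h3 : (4 / Real.sqrt p) ^ 3 = 64 * (1 / (p * Real.sqrt p)) := by
    rw [div_pow, show Real.sqrt p ^ 3 = Real.sqrt p ^ 2 * Real.sqrt p by ring, hs2]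
    field_simp
    norm_num
  have h4 : (4 / Real.sqrt p) ^ 2 = 16 / p := by
    rw [div_pow, hs2]
    norm_num
  have h5 : (1 / p) ^ 2 ≤ 1 / (p * Real.sqrt p) := by
    rw [one_div_pow]
    have : p * Real.sqrt p ≤ p ^ 2 := by
      rw [sq]
      exact mul_le_mul_of_nonneg_left hs1 hp0.le
    gcongr
  have h6 : |u| ^ 3 ≤ |θ| ^ 3 / σ := by
    rw [hua, div_pow]
    have : σ ≤ σ ^ 3 := le_self_pow₀ hσ1 (by norm_num)
    gcongr
  have h7 : u ^ 4 ≤ θ ^ 4 / σ := by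
    have h8 : u ^ 4 = θ ^ 4 / σ ^ 4 := by
      rw [hu]
      ring
    rw [h8]
    have : σ ≤ σ ^ 4 := le_self_pow₀ hσ1 (by norm_num)
    gcongr
  rw [h3, h4]
  have hq0 : 0 ≤ 1 / (p * Real.sqrt p) := by positivity
  have h8 : (u ^ 2 / 2 * (16 / p)) ^ 2 / 2 = 32 * u ^ 4 * (1 / p) ^ 2 := by ring
  rw [h8]
  have h9 : 0 ≤ u ^ 4 := by positivity
  have h10 : 32 * u ^ 4 * (1 / p) ^ 2 ≤
      32 * (θ ^ 4 / σ) * (1 / (p * Real.sqrt p)) := by gcongr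
  have h11 : |u| ^ 3 * (64 * (1 / (p * Real.sqrt p))) / 6 ≤
      32 * (|θ| ^ 3 / σ) * (1 / (p * Real.sqrt p)) := by
    have h12 : |u| ^ 3 * (64 * (1 / (p * Real.sqrt p))) / 6 =
        (32 / 3) * (|u| ^ 3 * (1 / (p * Real.sqrt p))) := by ring
    have h13 : |u| ^ 3 * (1 / (p * Real.sqrt p)) ≤
        (|θ| ^ 3 / σ) * (1 / (p * Real.sqrt p)) := by gcongr
    have h14 : 0 ≤ |u| ^ 3 * (1 / (p * Real.sqrt p)) := by positivity
    rw [h12]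
    linarith
  have h15 : (32 * (|θ| ^ 3 + θ ^ 4) / σ) * (1 / (p * Real.sqrt p)) =
      32 * (|θ| ^ 3 / σ) * (1 / (p * Real.sqrt p)) +
      32 * (θ ^ 4 / σ) * (1 / (p * Real.sqrt p)) := by ring
  rw [h15]
  linarith

lemma err_three {θ σ u CT : ℝ} (hσ1 : 1 ≤ σ) (hu : u = -(θ / σ))
    (hCT : ∀ s : Finset ℕ, ∑ l ∈ s, 1 / ((l : ℝ) * Real.sqrt l) ≤ CT) (y : ℕ) :
    ∑ p ∈ pr y, (|u| ^ 3 * (4 / Real.sqrt (p : ℝ)) ^ 3 / 6 +
      (u ^ 2 / 2 * (4 / Real.sqrt (p : ℝ)) ^ 2) ^ 2 / 2) ≤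
      32 * (|θ| ^ 3 + θ ^ 4) * CT / σ := by
  have hσ0 : 0 < σ := by linarith
  have h1 : ∀ p ∈ pr y, |u| ^ 3 * (4 / Real.sqrt (p : ℝ)) ^ 3 / 6 +
      (u ^ 2 / 2 * (4 / Real.sqrt (p : ℝ)) ^ 2) ^ 2 / 2 ≤
      (32 * (|θ| ^ 3 + θ ^ 4) / σ) * (1 / ((p : ℝ) * Real.sqrt p)) := by
    intro p hp
    rw [mem_pr] at hp
    refine err_three_one hσ1 hu ?_
    exact_mod_cast hp.2.2.one_lt.le
  refine (sum_le_sum h1).trans ?_
  rw [← mul_sum]
  have h2 := hCT (pr y)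
  calc (32 * (|θ| ^ 3 + θ ^ 4) / σ) * ∑ i ∈ pr y, 1 / ((i : ℝ) * Real.sqrt i) ≤
        (32 * (|θ| ^ 3 + θ ^ 4) / σ) * CT := by gcongr
    _ = _ := by ring

lemma err_four {θ σ u V L B : ℝ} (hσ1 : 1 ≤ σ) (hu : u = -(θ / σ)) (hσ2 : σ ^ 2 = L)
    (hV0 : 0 ≤ V) (h1 : |V - L| ≤ B) :
    ‖((Real.exp (-(u ^ 2 / 2 * V)) : ℝ) : ℂ) - ((Real.exp (-(θ ^ 2 / 2)) : ℝ) : ℂ)‖ ≤
      θ ^ 2 * B / σ := by
  have hσ0 : 0 < σ := by linarith
  rw [← Complex.ofReal_sub, Complex.norm_real, Real.norm_eq_abs]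
  refine (exp_neg_lip (by positivity) (by positivity)).trans ?_
  have h2 : u ^ 2 / 2 * V - θ ^ 2 / 2 = θ ^ 2 / (2 * σ ^ 2) * (V - L) := by
    rw [hu, ← hσ2]
    field_simp
  rw [h2, abs_mul, abs_of_nonneg (by positivity)]
  have h3 : θ ^ 2 / (2 * σ ^ 2) ≤ θ ^ 2 / σ := by
    have : σ ≤ 2 * σ ^ 2 := by nlinarith
    gcongr
  calc θ ^ 2 / (2 * σ ^ 2) * |V - L| ≤ θ ^ 2 / σ * B :=
        mul_le_mul h3 h1 (abs_nonneg _) (by positivity)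
    _ = _ := by ring

lemma err_five {a : ℤ} {C0 CD CK : ℝ} {x y H : ℕ} {M : ℤ} (hH0 : 0 < H) {θ σ u L : ℝ}
    (hσ1 : 1 ≤ σ) (hu : u = -(θ / σ)) 
    (hC0 : ∀ n : ℤ, |Real.log (bsd a n x) - 1 / 2 * L + SS a n x + 1 / 2 * VV a n x| ≤
      C0 + DD a n x) (hCD : iav M H (fun n => DD a n x) ≤ CD)
    (hCK : iav M H (fun n => |TT a n x - TT a n y|) ≤ CK) :
    ‖iav M H (fun n => Complex.exp (((θ * ((Real.log (bsd a n x) -
          1 / 2 * L) / σ) : ℝ) : ℂ) * Complex.I)) -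
      iav M H (fun n => Complex.exp (((u * ∑ p ∈ pr y, KK a p n : ℝ) : ℂ) * Complex.I))‖ ≤
      |θ| * (C0 + CD + CK) / σ := by
  have hσ0 : 0 < σ := by linarith
  rw [← iav_sub]
  refine (norm_iav_le _ _ _).trans ?_
  have h1 : ∀ n : ℤ, ‖Complex.exp (((θ * ((Real.log (bsd a n x) -
        1 / 2 * L) / σ) : ℝ) : ℂ) * Complex.I) -
        Complex.exp (((u * ∑ p ∈ pr y, KK a p n : ℝ) : ℂ) * Complex.I)‖ ≤
      (|θ| / σ) * (C0 + (DD a n x + |TT a n x - TT a n y|)) := by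
    intro n
    refine (norm_exp_sub_exp _ _).trans ?_
    have h2 : θ * ((Real.log (bsd a n x) - 1 / 2 * L) / σ) - u * ∑ p ∈ pr y, KK a p n =
        (θ / σ) * ((Real.log (bsd a n x) - 1 / 2 * L + SS a n x + 1 / 2 * VV a n x) -
          (TT a n x - TT a n y)) := by
      rw [hu, TT_eq]
      unfold TT
      ring
    rw [h2, abs_mul, abs_div, abs_of_pos hσ0]
    refine mul_le_mul_of_nonneg_left ?_ (by positivity)
    have h3 := hC0 n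
    refine (abs_sub _ _).trans ?_
    linarith
  refine (iav_mono h1).trans ?_
  rw [iav_const_mul, iav_add, iav_add, iav_const M hH0]
  calc |θ| / σ * (C0 + (iav M H (fun n => DD a n x) + iav M H (fun n =>
        |TT a n x - TT a n y|))) ≤ |θ| / σ * (C0 + (CD + CK)) := by gcongr
    _ = _ := by ring

lemma five_points (A B C E J : ℂ) : ‖A - J‖ ≤ ‖A - B‖ + ‖B - C‖ + ‖C - E‖ + ‖E - J‖ := by
  have h1 : A - J = (A - B) + (B - C) + (C - E) + (E - J) := by ring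
  rw [h1]
  refine (norm_add_le _ _).trans ?_
  have := norm_add₃_le (a := A - B) (b := B - C) (c := C - E)
  linarith

/-- the characteristic function converges to that of the normal law, uniformly in the interval -/
theorem charfn {κ : ℝ} (hκ : 0 ≤ κ) (θ : ℝ) {ε : ℝ} (hε : 0 < ε) : ∃ X0 : ℕ, ∀ x : ℕ, X0 ≤ x →
    ∀ a : ℤ, a ≠ 0 → om a ≤ κ → ∀ (M : ℤ) (H : ℕ), 2 * x ^ 12 ≤ H →
      ‖iav M H (fun n => Complex.exp (((θ * ((Real.log (bsd a n x) -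
          1 / 2 * Real.log (Real.log x)) / Real.sqrt (Real.log (Real.log x))) : ℝ) : ℂ) *
          Complex.I)) - ((Real.exp (-(θ ^ 2 / 2)) : ℝ) : ℂ)‖ ≤ ε := by
  obtain ⟨C0, hC00, hC0⟩ : ∃ C : ℝ, 0 ≤ C ∧ ∀ a : ℤ, a ≠ 0 → om a ≤ κ → ∀ (n : ℤ) (x : ℕ),
      5 ≤ x → |Real.log (bsd a n x) - 1 / 2 * Real.log (Real.log x) + SS a n x +
        1 / 2 * VV a n x| ≤ C + DD a n x := by
    obtain ⟨C, hC0, hC⟩ := pointwise
    refine ⟨C + 2 * κ, by positivity, fun a ha hom n x hx => (hC a ha n x hx).trans ?_⟩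
    linarith
  obtain ⟨CM, hCM0, hCM'⟩ := mert
  obtain ⟨CV, hCV0, hCV⟩ := var_KK hκ
  obtain ⟨CT, hCT0, hCT⟩ := sum_T_le
  obtain ⟨CD, hCD0, hCD⟩ := iav_DD
  have hCM : ∀ x : ℕ, 5 ≤ x → |∑ l ∈ pr x, 1 / (l : ℝ) - Real.log (Real.log x)| ≤ CM := hCM'
  obtain ⟨Λ, hΛ⟩ : ∃ Λ : ℝ, Λ = 2 * (|θ| + 1) := ⟨_, rfl⟩
  have hΛ0 : 0 < Λ := by rw [hΛ]; positivity
  -- the degree
  obtain ⟨K, hKe, hK2, hKε⟩ : ∃ K : ℕ, Even K ∧ 2 ≤ K ∧
      4 * (1 / 2 : ℝ) ^ K * Real.exp (8 * Λ ^ 2 * (1 + CM)) ≤ ε / 4 := by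
    have hE10 : 0 < Real.exp (8 * Λ ^ 2 * (1 + CM)) := Real.exp_pos _
    obtain ⟨k0, hk0⟩ := exists_pow_lt_of_lt_one
      (show 0 < ε / 4 / (4 * Real.exp (8 * Λ ^ 2 * (1 + CM))) by positivity)
      (by norm_num : (1 / 2 : ℝ) < 1)
    refine ⟨2 * (k0 + 1), ⟨k0 + 1, by omega⟩, by omega, ?_⟩
    have h1 : (1 / 2 : ℝ) ^ (2 * (k0 + 1)) ≤ (1 / 2 : ℝ) ^ k0 :=
      pow_le_pow_of_le_one (by norm_num) (by norm_num) (by omega)
    have h2 := h1.trans hk0.le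
    rw [le_div_iff₀ (by positivity)] at h2
    linarith
  obtain ⟨D, hD⟩ : ∃ D : ℝ, D = Real.log (2 * K) := ⟨_, rfl⟩
  have hD0 : 0 ≤ D := by
    rw [hD]
    refine Real.log_nonneg ?_
    have : (2 : ℝ) ≤ K := by exact_mod_cast hK2
    linarith
  obtain ⟨CK, hCK⟩ : ∃ CK : ℝ, CK = 1 + 24 * (16 * (D + 2 * CM)) ^ 2 := ⟨_, rfl⟩
  have hCK0 : 0 ≤ CK := by rw [hCK]; positivity
  obtain ⟨G, hG⟩ : ∃ G : ℝ, G = 32 * (|θ| ^ 3 + θ ^ 4) * CT + θ ^ 2 * (CV + D) +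
    |θ| * (C0 + CD + CK) := ⟨_, rfl⟩
  have hG0 : 0 ≤ G := by rw [hG]; positivity
  -- the threshold
  obtain ⟨x1, hx1⟩ := exists_nat_ge (2 * Real.exp |θ| * 4 ^ K / (ε / 4))
  obtain ⟨x2, hx2⟩ := exists_nat_ge (Real.exp (Real.exp ((G / (ε / 2) + 1) ^ 2)))
  obtain ⟨N, hN⟩ : ∃ N : ℕ, N = 5 ^ K := ⟨_, rfl⟩
  refine ⟨N + x1 + x2, fun x hx a ha hom M H hH => ?_⟩
  have hx5K : 5 ^ K ≤ x := by rw [← hN]; omega
  have h5x : 5 ≤ x := (Nat.le_self_pow (by omega) 5).trans hx5K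
  have hx0 : (0 : ℝ) < x := by
    have : 0 < x := by omega
    exact_mod_cast this
  have hH0 : 0 < H := by
    have h1 : 0 < x := by omega
    have h2 : 0 < x ^ 12 := by positivity
    omega
  obtain ⟨L, hL⟩ : ∃ L : ℝ, L = Real.log (Real.log x) := ⟨_, rfl⟩
  have hLlow : (G / (ε / 2) + 1) ^ 2 ≤ L := by
    have h1 : Real.exp (Real.exp ((G / (ε / 2) + 1) ^ 2)) ≤ x := by
      refine hx2.trans ?_
      have : x2 ≤ x := by omega
      exact_mod_cast this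
    have h2 : Real.exp ((G / (ε / 2) + 1) ^ 2) ≤ Real.log x := (Real.le_log_iff_exp_le hx0).2 h1
    have h3 : 0 < Real.log x := lt_of_lt_of_le (Real.exp_pos _) h2
    rw [hL]
    exact (Real.le_log_iff_exp_le h3).2 h2
  have hGe : 0 ≤ G / (ε / 2) := by positivity
  obtain ⟨σ, hσ⟩ : ∃ σ : ℝ, σ = Real.sqrt L := ⟨_, rfl⟩
  have hσlow : G / (ε / 2) + 1 ≤ σ := by
    rw [hσ]
    exact Real.le_sqrt_of_sq_le hLlow
  have hσ1 : 1 ≤ σ := by linarith only [hσlow, hGe]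
  have hσ0 : 0 < σ := by linarith only [hσ1]
  have hL1 : 0 ≤ L := le_trans (sq_nonneg _) hLlow
  have hσ2 : σ ^ 2 = L := by
    rw [hσ]
    exact Real.sq_sqrt hL1
  have hGσ : G / σ ≤ ε / 2 := by
    rw [div_le_iff₀ hσ0]
    have h1 : G / (ε / 2) ≤ σ := by linarith only [hσlow]
    rw [div_le_iff₀ (by positivity)] at h1
    linarith only [h1]
  obtain ⟨y, hy5, hyx, hyK, hyD⟩ := root (by omega : 1 ≤ K) hx5K
  rw [← hL, ← hD] at hyD
  have hy5r : (5 : ℝ) ≤ y := by exact_mod_cast hy5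
  have hLyx : Real.log (Real.log y) ≤ L := by
    have h1 : (y : ℝ) ≤ x := by exact_mod_cast hyx
    rw [hL]
    exact Real.log_le_log (Real.log_pos (by linarith only [hy5r]))
      (Real.log_le_log (by linarith only [hy5r]) h1)
  have hprm : ∀ l ∈ pr y, l.Prime ∧ 5 ≤ l := fun l hl => by
    rw [mem_pr] at hl
    exact ⟨hl.2.2, hl.1⟩
  have hpry : ∀ l ∈ pr y, l ≤ y := fun l hl => by
    rw [mem_pr] at hl
    exact hl.2.1
  obtain ⟨u, hu⟩ : ∃ u : ℝ, u = -(θ / σ) := ⟨_, rfl⟩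
  have hua : |u| = |θ| / σ := by
    rw [hu, abs_neg, abs_div, abs_of_pos hσ0]
  have hua1 : |u| ≤ |θ| := by
    rw [hua]
    exact div_le_self (abs_nonneg _) hσ1
  -- the steps
  have s1 := iav_char_sub (fam a hprm) (by omega : 1 ≤ y) hpry (fun p hp => by
    have h4 : (1 : ℝ) ≤ p := by exact_mod_cast (hprm p hp).1.one_lt.le
    have : (1 : ℝ) ≤ Real.sqrt p := by
      rw [Real.one_le_sqrt]
      exact h4
    rw [div_le_iff₀ (by linarith only [this])]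
    linarith only [this]) hKe u (l := Λ / σ) (div_pos hΛ0 hσ0) M hH0
  have s1a := err_one (x1 := x1) (y := y) (θ := θ) hua1 hε (by omega : 1 ≤ x) hH hyK hx1 (by omega)
  have s1b : 4 * (|u| / (Λ / σ)) ^ K *
      Real.exp ((Λ / σ) ^ 2 / 2 * ∑ p ∈ pr y, (4 / Real.sqrt (p : ℝ)) ^ 2) ≤ ε / 4 := by
    refine le_trans ?_ hKε
    rw [sum_c_sq, hua]
    refine err_two hΛ hσ1 hCM0 ?_ K
    have := (abs_le.1 (hCM y hy5)).2
    rw [hσ2]
    linarith only [this, hLyx]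
  have s2 := mean_char (fam a hprm) u
  have s2a := err_three hσ1 hu hCT y
  have hV0 : 0 ≤ ∑ l ∈ pr y, mean l (fun n => KK a l n ^ 2) := by
    refine sum_nonneg fun l _ => ?_
    unfold mean
    positivity
  have s3 := err_four hσ1 hu hσ2 hV0 (B := CV + D) (by
    have e1 := abs_le.1 (hCV a ha hom y hy5)
    rw [abs_le]
    constructor
    · linarith only [e1.1, hyD]
    · linarith only [e1.2, hLyx, hD0])
  have hX2 : x ^ 2 ≤ H := by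
    have h1 : x ^ 2 ≤ x ^ 12 := Nat.pow_le_pow_right (by omega) (by norm_num)
    have h2 : 0 < x ^ 12 := by
      have : 0 < x := by omega
      positivity
    omega
  have s4 := err_five (a := a) (x := x) (y := y) (H := H) (M := M) (θ := θ) (L := L) hH0 hσ1 hu
    (fun n => by
      rw [hL]
      exact hC0 a ha hom n x h5x) (hCD a x M H hX2) (tail_four a hCM hy5 hyx (D := D)
      (by rw [← hL]; exact hyD) M hH)
  rw [← hCK] at s4
  have hsum : 32 * (|θ| ^ 3 + θ ^ 4) * CT / σ + θ ^ 2 * (CV + D) / σ +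
      |θ| * (C0 + CD + CK) / σ = G / σ := by
    rw [hG]
    ring
  have s1' := s1.trans (add_le_add s1a s1b)
  have s2' := s2.trans s2a
  rw [← hL, ← hσ]
  refine (five_points _ (iav M H (fun n => Complex.exp (((u * ∑ p ∈ pr y, KK a p n : ℝ) : ℂ) *
      Complex.I))) (mean (∏ p ∈ pr y, p) (fun n => Complex.exp (((u * ∑ p ∈ pr y,
      KK a p n : ℝ) : ℂ) * Complex.I)))
      ((Real.exp (-(u ^ 2 / 2 * ∑ l ∈ pr y, mean l (fun n => KK a l n ^ 2))) : ℝ) : ℂ) _).trans ?_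
  linarith only [s1', s2', s3, s4, hsum, hGσ]

end Pool.Agent.Y834.BF
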