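import Pool.Agent.Y834.BF.Char

/-!
# The central limit theorem for the logarithm of the product
-/

set_option autoImplicit false
set_option linter.all false

namespace Pool.Agent.Y834.BF

open Finset MeasureTheory ProbabilityTheory Filter Topology

/-- the uniform law on the values of `Y` on an interval -/
noncomputable def emp (M : ℤ) (H : ℕ) (Y : ℤ → ℝ) : Measure ℝ :=
  ((H : ENNReal))⁻¹ • ∑ n ∈ Ioc M (M + H), Measure.dirac (Y n)

lemma emp_apply (M : ℤ) {H : ℕ} (Y : ℤ → ℝ) {s : Set ℝ} (hs : MeasurableSet s)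
    [DecidablePred fun n : ℤ => Y n ∈ s] :
    emp M H Y s = ((H : ENNReal))⁻¹ * (((Ioc M (M + H)).filter (fun n => Y n ∈ s)).card : ENNReal) := by
  unfold emp
  rw [Measure.smul_apply, Measure.finsetSum_apply, smul_eq_mul]
  congr 1
  rw [card_eq_sum_ones, Nat.cast_sum, sum_filter]
  refine sum_congr rfl fun n _ => ?_
  rw [Measure.dirac_apply' _ hs]
  by_cases h : Y n ∈ s
  · simp [h]
  · simp [h]

lemma emp_prob (M : ℤ) {H : ℕ} (hH : 0 < H) (Y : ℤ → ℝ) : IsProbabilityMeasure (emp M H Y) := by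
  classical
  refine ⟨?_⟩
  rw [emp_apply M Y MeasurableSet.univ]
  have h1 : (Ioc M (M + H)).filter (fun n => Y n ∈ (Set.univ : Set ℝ)) = Ioc M (M + H) := by
    rw [filter_true_of_mem]
    intro n _
    exact Set.mem_univ _
  rw [h1, card_Ioc_H]
  exact ENNReal.inv_mul_cancel (by exact_mod_cast hH.ne') (ENNReal.natCast_ne_top H)

lemma emp_char (M : ℤ) (H : ℕ) (Y : ℤ → ℝ) (θ : ℝ) :
    charFun (emp M H Y) θ =
      iav M H (fun n => Complex.exp (((θ * Y n : ℝ) : ℂ) * Complex.I)) := by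
  rw [charFun_apply_real]
  unfold emp iav
  rw [integral_smul_measure, integral_finsetSum_measure]
  · rw [sum_congr rfl fun n _ => integral_dirac (fun x : ℝ => Complex.exp (θ * x * Complex.I))
      (Y n), ENNReal.toReal_inv, ENNReal.toReal_natCast, Complex.real_smul, div_eq_inv_mul]
    push_cast
    rfl
  · intro n _
    exact integrable_dirac (by simp)

lemma emp_real (M : ℤ) {H : ℕ} (Y : ℤ → ℝ) {s : Set ℝ} (hs : MeasurableSet s)
    [DecidablePred fun n : ℤ => Y n ∈ s] :
    (emp M H Y).real s = (((Ioc M (M + H)).filter (fun n => Y n ∈ s)).card : ℝ) / H := by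
  unfold Measure.real
  rw [emp_apply M Y hs, ENNReal.toReal_mul, ENNReal.toReal_inv, ENNReal.toReal_natCast,
    ENNReal.toReal_natCast, div_eq_inv_mul]

/-- the central limit theorem on intervals, uniformly in the interval -/
theorem clt {κ : ℝ} (hκ : 0 ≤ κ) (t : ℝ) {ε : ℝ} (hε : 0 < ε) : ∃ X0 : ℕ, ∀ x : ℕ, X0 ≤ x →
    ∀ a : ℤ, a ≠ 0 → om a ≤ κ → ∀ (M : ℤ) (H : ℕ), 2 * x ^ 12 ≤ H →
      |(emp M H (fun n => (Real.log (bsd a n x) - 1 / 2 * Real.log (Real.log x)) /
          Real.sqrt (Real.log (Real.log x)))).real (Set.Iic t) -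
        (gaussianReal 0 1).real (Set.Iic t)| ≤ ε := by
  by_contra hcon
  push Not at hcon
  choose x hx a ha hom M H hH hbad using hcon
  set Y : ℕ → ℤ → ℝ := fun k n => (Real.log (bsd (a (k + 1)) n (x (k + 1))) -
    1 / 2 * Real.log (Real.log (x (k + 1)))) / Real.sqrt (Real.log (Real.log (x (k + 1)))) with hY
  have hH0 : ∀ k, 0 < H (k + 1) := by
    intro k
    have h1 := hx (k + 1)
    have h2 := hH (k + 1)
    have h3 : 0 < x (k + 1) := by omega
    have h4 : 0 < x (k + 1) ^ 12 := by positivity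
    omega
  set μ : ℕ → ProbabilityMeasure ℝ := fun k =>
    ⟨emp (M (k + 1)) (H (k + 1)) (Y k), emp_prob _ (hH0 k) _⟩ with hμ
  set ν : ProbabilityMeasure ℝ := ⟨gaussianReal 0 1, inferInstance⟩ with hν
  have hlim : Tendsto μ atTop (𝓝 ν) := by
    refine ProbabilityMeasure.tendsto_of_tendsto_charFun fun θ => ?_
    have h1 : charFun (ν : Measure ℝ) θ = ((Real.exp (-(θ ^ 2 / 2)) : ℝ) : ℂ) := by
      change charFun (gaussianReal 0 1) θ = _
      rw [charFun_gaussianReal]
      push_cast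
      congr 1
      ring
    rw [h1, Metric.tendsto_atTop]
    intro e he
    obtain ⟨X0, hX0⟩ := charfn hκ θ (half_pos he)
    refine ⟨X0, fun k hk => ?_⟩
    have h2 : charFun (μ k : Measure ℝ) θ =
        iav (M (k + 1)) (H (k + 1)) (fun n => Complex.exp (((θ * Y k n : ℝ) : ℂ) * Complex.I)) :=
      emp_char _ _ _ _
    rw [h2, dist_eq_norm]
    have h3 := hX0 (x (k + 1)) (by
      have := hx (k + 1)
      omega) (a (k + 1)) (ha (k + 1)) (hom (k + 1)) (M (k + 1)) (H (k + 1)) (hH (k + 1))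
    exact lt_of_le_of_lt h3 (by linarith)
  have hfr : (ν : Measure ℝ) (frontier (Set.Iic t)) = 0 := by
    rw [frontier_Iic]
    change (gaussianReal 0 1) {t} = 0
    haveI := nullSingletonClass_gaussianReal (μ := 0) (v := 1) one_ne_zero
    exact measure_singleton t
  have h1 := ProbabilityMeasure.tendsto_measure_of_null_frontier_of_tendsto' hlim hfr
  have h2 := (ENNReal.tendsto_toReal (measure_ne_top _ _)).comp h1
  rw [Metric.tendsto_atTop] at h2
  obtain ⟨k, hk⟩ := h2 ε hε
  have h3 := hk k le_rfl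
  have h4 := hbad (k + 1)
  rw [Real.dist_eq] at h3
  change |(emp (M (k + 1)) (H (k + 1)) (Y k)).real (Set.Iic t) -
    (gaussianReal 0 1).real (Set.Iic t)| < ε at h3
  exact absurd h3 (not_lt.2 h4.le)

end Pool.Agent.Y834.BF
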