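import Pool.Agent.Y834.BF.Loc
import Pool.Agent.Helper923.HMertens

/-!
# The logarithm of the product of Birch and Swinnerton-Dyer
-/

set_option autoImplicit false
set_option linter.all false

namespace Pool.Agent.Y834.BF

open Finset

lemma log_two_terms {u : ℝ} (hu : |u| ≤ 1 / 2) :
    |Real.log (1 + u) - (u - u ^ 2 / 2)| ≤ 2 * |u| ^ 3 := by
  have h1 := Real.abs_log_sub_add_sum_range_le (x := -u) (by rw [abs_neg]; linarith) 2
  simp only [sum_range_succ, range_zero, sum_empty, zero_add, sub_neg_eq_add, abs_neg] at h1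
  have h2 : |u| ^ (2 + 1) / (1 - |u|) ≤ 2 * |u| ^ 3 := by
    rw [div_le_iff₀ (by linarith)]
    have : 0 ≤ |u| ^ 3 := by positivity
    norm_num
    nlinarith
  refine le_trans (le_of_eq ?_) (h1.trans h2)
  congr 1
  push_cast
  ring

/-- the expansion of the logarithm of one factor -/
lemma log_factor (a n : ℤ) {l : ℕ} (hl : l.Prime) (h5 : 5 ≤ l) :
    |Real.log (((aff a n l : ℝ) + 1) / l) - (1 / l - ap a n l / l - 1 / 2 * (ap a n l / l) ^ 2)| ≤
      2000 / (l * Real.sqrt l) := by
  haveI := Fact.mk hl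
  have hl2 : l ≠ 2 := by omega
  have hb := abs_ap_le hl2 a n
  set s := Real.sqrt l with hs
  have hl0 : (0 : ℝ) < l := by exact_mod_cast hl.pos
  have hs0 : 0 < s := Real.sqrt_pos.2 hl0
  have hss : s ^ 2 = l := Real.sq_sqrt hl0.le
  have h5' : (5 : ℝ) ≤ l := by exact_mod_cast h5
  have hs2 : 2 ≤ s := by
    rw [hs]
    exact Real.le_sqrt_of_sq_le (by linarith)
  have hA : (aff a n l : ℝ) = l - ap a n l := by
    unfold ap
    ring
  set A := ap a n l with hAd
  have hb1 := (abs_le.1 hb).1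
  have hb2 := (abs_le.1 hb).2
  set u := (1 - A) / l with hu
  have h1 : ((aff a n l : ℝ) + 1) / l = 1 + u := by
    rw [hA, hu]
    field_simp
    ring
  have hu1 : |u| ≤ 3 / s := by
    rw [hu, abs_div, abs_of_pos hl0, div_le_div_iff₀ hl0 hs0, ← hss]
    have : |1 - A| ≤ 3 * s := by
      rw [abs_le]
      constructor <;> linarith
    nlinarith
  have hd : u - u ^ 2 / 2 - (1 / l - A / l - 1 / 2 * (A / l) ^ 2) = (2 * A - 1) / (2 * l ^ 2) := by
    rw [hu]
    field_simp
    ring
  have hd1 : |(2 * A - 1) / (2 * (l : ℝ) ^ 2)| ≤ 3 / (l * s) := by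
    rw [abs_div, abs_of_pos (by positivity : (0 : ℝ) < 2 * (l : ℝ) ^ 2),
      div_le_div_iff₀ (by positivity) (by positivity)]
    have : |2 * A - 1| ≤ 5 * s := by
      rw [abs_le]
      constructor <;> linarith
    calc |2 * A - 1| * (l * s) ≤ (5 * s) * (l * s) := by gcongr
      _ = 5 * l * l := by rw [← hss]; ring
      _ ≤ 3 * (2 * (l : ℝ) ^ 2) := by nlinarith
  have hls : (0 : ℝ) < l * s := by positivity
  rw [h1]
  rcases le_or_gt 37 l with h37 | h37
  · have h6 : 6 ≤ s := by
      rw [hs]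
      refine Real.le_sqrt_of_sq_le ?_
      have : (37 : ℝ) ≤ l := by exact_mod_cast h37
      linarith
    have hu2 : |u| ≤ 1 / 2 := by
      refine hu1.trans ?_
      rw [div_le_div_iff₀ hs0 (by norm_num)]
      linarith
    have h2 := log_two_terms hu2
    have h3 : 2 * |u| ^ 3 ≤ 54 / (l * s) := by
      have h4 : |u| ^ 3 ≤ (3 / s) ^ 3 := pow_le_pow_left₀ (abs_nonneg _) hu1 3
      have h5 : (3 / s) ^ 3 = 27 / (l * s) := by
        rw [← hss]
        field_simp
        norm_num
      rw [h5] at h4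
      calc 2 * |u| ^ 3 ≤ 2 * (27 / (l * s)) := by gcongr
        _ = 54 / (l * s) := by ring
    have h4 : Real.log (1 + u) - (1 / l - A / l - 1 / 2 * (A / l) ^ 2) =
        (Real.log (1 + u) - (u - u ^ 2 / 2)) + (2 * A - 1) / (2 * (l : ℝ) ^ 2) := by
      rw [← hd]
      ring
    rw [h4]
    refine (abs_add_le _ _).trans ?_
    have h5 : 54 / ((l : ℝ) * s) + 3 / (l * s) ≤ 2000 / (l * s) := by
      rw [← add_div]
      gcongr
      norm_num
    linarith
  · have h37' : (l : ℝ) ≤ 37 := by exact_mod_cast h37.le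
    have hs7 : s ≤ 7 := by
      rw [hs, Real.sqrt_le_left (by norm_num)]
      linarith
    have hN : 1 ≤ (l : ℝ) * (1 + u) := by
      have : (l : ℝ) * (1 + u) = (aff a n l : ℝ) + 1 := by
        rw [← h1]
        field_simp
      rw [this]
      have : (0 : ℝ) ≤ (aff a n l : ℝ) := Nat.cast_nonneg _
      linarith
    have hpos : 0 < 1 + u := by
      by_contra h
      push Not at h
      nlinarith
    have hlog1 : Real.log (1 + u) ≤ 3 / 2 := by
      have h2 := Real.log_le_sub_one_of_pos hpos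
      have h3 : |u| ≤ 3 / 2 := hu1.trans (by
        rw [div_le_div_iff₀ hs0 (by norm_num)]
        linarith)
      have := le_abs_self u
      linarith
    have hlog2 : -4 ≤ Real.log (1 + u) := by
      have h2 : Real.log (1 / 37) ≤ Real.log (1 + u) := by
        refine Real.log_le_log (by norm_num) ?_
        rw [div_le_iff₀ (by norm_num)]
        nlinarith
      have h3 : -4 ≤ Real.log (1 / 37) := by
        rw [one_div, Real.log_inv]
        have h4 : Real.log 37 ≤ Real.log (Real.exp 4) := by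
          refine Real.log_le_log (by norm_num) ?_
          have h5 := Real.exp_one_gt_d9
          have h6 : Real.exp 4 = Real.exp 1 ^ 4 := by
            rw [← Real.exp_nat_mul]
            norm_num
          rw [h6]
          have h7 : (2.7 : ℝ) ^ 4 ≤ Real.exp 1 ^ 4 := by
            refine pow_le_pow_left₀ (by norm_num) (by linarith) 4
          norm_num at h7 ⊢
          linarith
        rw [Real.log_exp] at h4
        linarith
      linarith
    have hA1 : |A / l| ≤ 1 := by
      rw [abs_div, abs_of_pos hl0, div_le_one hl0, ← hss]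
      nlinarith
    have hA2 : (A / l) ^ 2 ≤ 1 := by
      rw [← sq_abs]
      have := abs_nonneg (A / l)
      nlinarith
    have hA3 : 0 ≤ (A / l) ^ 2 := sq_nonneg _
    have hl1 : 1 / (l : ℝ) ≤ 1 / 5 := by gcongr
    have hl3 : 0 < 1 / (l : ℝ) := by positivity
    have h8 : |Real.log (1 + u) - (1 / l - A / l - 1 / 2 * (A / l) ^ 2)| ≤ 6 := by
      have := abs_le.1 hA1
      rw [abs_le]
      constructor <;> linarith [this.1, this.2]
    refine h8.trans ?_
    rw [le_div_iff₀ hls]
    nlinarith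

/-- the terms at the primes of bad reduction -/
lemma bad_term (a n : ℤ) {l : ℕ} (hl : l.Prime) (h5 : 5 ≤ l) :
    |1 / l - ap a n l / l - 1 / 2 * (ap a n l / l) ^ 2| ≤ 5 / Real.sqrt l := by
  haveI := Fact.mk hl
  have hl2 : l ≠ 2 := by omega
  have hb := abs_ap_le hl2 a n
  set s := Real.sqrt l with hs
  have hl0 : (0 : ℝ) < l := by exact_mod_cast hl.pos
  have hs0 : 0 < s := Real.sqrt_pos.2 hl0
  have hss : s ^ 2 = l := Real.sq_sqrt hl0.le
  have h5' : (5 : ℝ) ≤ l := by exact_mod_cast h5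
  have hs2 : 2 ≤ s := by
    rw [hs]
    exact Real.le_sqrt_of_sq_le (by linarith)
  set A := ap a n l with hAd
  have h1 : |A / l| ≤ 2 / s := by
    rw [abs_div, abs_of_pos hl0, div_le_div_iff₀ hl0 hs0, ← hss]
    nlinarith [abs_nonneg A]
  have h2 : 1 / (l : ℝ) ≤ 1 / s := by
    rw [← hss]
    gcongr
    nlinarith
  have h3 : 0 < 1 / (l : ℝ) := by positivity
  have h4 : (A / l) ^ 2 ≤ 2 / s * (2 / s) := by
    rw [← sq_abs, sq]
    exact mul_le_mul h1 h1 (abs_nonneg _) (by positivity)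
  have h6 : 2 / s * (2 / s) ≤ 2 / s := by
    have : 2 / s ≤ 1 := by rw [div_le_one hs0]; exact hs2
    have h7 : 0 < 2 / s := by positivity
    nlinarith
  have h7 : 5 / s = 1 / s + 2 / s + 2 / s := by ring
  have h8 : 0 ≤ (A / l) ^ 2 := sq_nonneg _
  have h9 := abs_le.1 h1
  rw [h7, abs_le]
  have h10 : 0 < 1 / s := by positivity
  have h11 : 0 < 2 / s := by positivity
  constructor <;> linarith [h9.1, h9.2]

lemma summable_T : Summable (fun l : ℕ => 1 / ((l : ℝ) * Real.sqrt l)) := by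
  have h1 : Summable (fun l : ℕ => 1 / (l : ℝ) ^ (3 / 2 : ℝ)) :=
    Real.summable_one_div_nat_rpow.2 (by norm_num)
  refine h1.congr fun l => ?_
  rw [Real.sqrt_eq_rpow]
  rcases Nat.eq_zero_or_pos l with rfl | h
  · norm_num
  · have hl : (0 : ℝ) < l := by exact_mod_cast h
    congr 1
    rw [← Real.rpow_one_add' hl.le (by norm_num)]
    norm_num

lemma sum_T_le : ∃ C : ℝ, 0 ≤ C ∧ ∀ s : Finset ℕ, ∑ l ∈ s, 1 / ((l : ℝ) * Real.sqrt l) ≤ C :=
  ⟨∑' l : ℕ, 1 / ((l : ℝ) * Real.sqrt l), tsum_nonneg fun l => by positivity, fun s =>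
    summable_T.sum_le_tsum s fun l _ => by positivity⟩

/-- Mertens -/
lemma mert : ∃ C : ℝ, 0 ≤ C ∧ ∀ x : ℕ, 5 ≤ x →
    |∑ l ∈ (Ioc 4 x).filter Nat.Prime, 1 / (l : ℝ) - Real.log (Real.log x)| ≤ C := by
  obtain ⟨C, hC0, hC⟩ := Pool.Agent.Helper923.HMertens.mertens_ratio
  have hl4 : 0 < Real.log 4 := Real.log_pos (by norm_num)
  refine ⟨C / Real.log 4 + |Real.log (Real.log 4)|, by positivity, fun x hx => ?_⟩
  have h1 := hC 4 x (by norm_num) (by omega)
  have hlx : 0 < Real.log x := Real.log_pos (by exact_mod_cast (by omega : 1 < x))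
  rw [Nat.cast_ofNat, Real.log_div hlx.ne' hl4.ne'] at h1
  have h2 : ∑ l ∈ (Ioc 4 x).filter Nat.Prime, 1 / (l : ℝ) - Real.log (Real.log x) =
      (∑ l ∈ (Ioc 4 x).filter Nat.Prime, 1 / (l : ℝ) - (Real.log (Real.log x) -
        Real.log (Real.log 4))) - Real.log (Real.log 4) := by ring
  rw [h2]
  refine (abs_sub _ _).trans ?_
  linarith

end Pool.Agent.Y834.BF
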