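import Pool.Agent.W165.CE.FF
import Pool.Agent.Y834.BF.Avg

/-!
# Point counts in the pencil `y² = x³ + a x + n`
-/

set_option autoImplicit false
set_option linter.all false

namespace Pool.Agent.Y834.BF

open Finset
open Pool.Agent.H82R3.EK (card_points)

section
variable {k : Type*} [Field k] [Fintype k] [DecidableEq k]

lemma corr (hk : ringChar k ≠ 2) (u v : k) :
    ∑ n : k, quadraticChar k (u + n) * quadraticChar k (v + n) =
      if u = v then (Fintype.card k : ℤ) - 1 else -1 := by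
  have h1 := W165.CE.sum_quad hk 1 (u + v) (u * v) one_ne_zero
  rw [map_one, one_mul] at h1
  have h2 : (u + v) ^ 2 - 4 * 1 * (u * v) = 0 ↔ u = v := by
    rw [show (u + v) ^ 2 - 4 * 1 * (u * v) = (u - v) ^ 2 by ring, sq_eq_zero_iff, sub_eq_zero]
  rw [if_congr h2 rfl rfl] at h1
  rw [← h1]
  refine sum_congr rfl fun n _ => ?_
  rw [← map_mul]
  congr 1
  ring

lemma second (hk : ringChar k ≠ 2) (f : k → k) :
    ∑ n : k, (∑ x : k, quadraticChar k (f x + n)) ^ 2 =
      Fintype.card k * ((univ.filter fun z : k × k => f z.1 = f z.2).card : ℤ) -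
        (Fintype.card k : ℤ) ^ 2 := by
  have h1 : ∀ n : k, (∑ x : k, quadraticChar k (f x + n)) ^ 2 =
      ∑ z : k × k, quadraticChar k (f z.1 + n) * quadraticChar k (f z.2 + n) := by
    intro n
    rw [sq, sum_mul_sum, ← sum_product', univ_product_univ]
  simp_rw [h1]
  rw [sum_comm]
  simp_rw [corr hk]
  have h2 : ∀ z : k × k, (if f z.1 = f z.2 then (Fintype.card k : ℤ) - 1 else -1) =
      (if f z.1 = f z.2 then (Fintype.card k : ℤ) else 0) - 1 := by
    intro z
    split_ifs <;> ring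
  simp_rw [h2]
  rw [sum_sub_distrib, ← sum_filter, sum_const, sum_const, card_univ, Fintype.card_prod]
  simp only [nsmul_eq_mul]
  push_cast
  ring

lemma sqrts_le (hk : ringChar k ≠ 2) (c : k) : (univ.filter fun x : k => x ^ 2 = c).card ≤ 2 := by
  have h1 := quadraticChar_card_sqrts hk c
  have h2 : ({x : k | x ^ 2 = c} : Set k).toFinset = univ.filter fun x : k => x ^ 2 = c := by
    ext x
    simp
  rw [h2] at h1
  have h3 : quadraticChar k c ≤ 1 := by
    rcases quadraticChar_isQuadratic k c with h | h | h <;> rw [h] <;> norm_num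
  have h4 : ((univ.filter fun x : k => x ^ 2 = c).card : ℤ) ≤ 2 := by
    rw [h1]
    linarith
  exact_mod_cast h4

lemma conic (hk : ringChar k ≠ 2) (h3 : (3 : k) ≠ 0) {a : k} (ha : a ≠ 0) :
    |((univ.filter fun z : k × k => z.1 ^ 2 + z.1 * z.2 + z.2 ^ 2 + a = 0).card : ℤ) -
      Fintype.card k| ≤ 1 := by
  have h2 : (2 : k) ≠ 0 := Ring.two_ne_zero hk
  have e : {z : k × k // z.1 ^ 2 + z.1 * z.2 + z.2 ^ 2 + a = 0} ≃
      {w : k × k // w.2 ^ 2 = (-3) * w.1 ^ 2 + 0 * w.1 + (-4 * a)} :=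
    { toFun := fun z => ⟨(z.1.2, 2 * z.1.1 + z.1.2), by
        have h := z.2
        simp only
        linear_combination 4 * h⟩
      invFun := fun w => ⟨((w.1.2 - w.1.1) / 2, w.1.1), by
        have h := w.2
        have h4 : (4 : k) ≠ 0 := by
          rw [show (4 : k) = 2 * 2 by norm_num]
          exact mul_ne_zero h2 h2
        simp only
        field_simp
        linear_combination h⟩
      left_inv := by
        rintro ⟨⟨x, y⟩, h⟩
        ext
        · simp only
          field_simp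
          ring
        · rfl
      right_inv := by
        rintro ⟨⟨x, y⟩, h⟩
        ext
        · rfl
        · simp only
          field_simp
          ring }
  have h4 := card_points hk (fun x : k => (-3) * x ^ 2 + 0 * x + (-4 * a))
  have h5 := W165.CE.sum_quad hk (-3) 0 (-4 * a) (neg_ne_zero.2 h3)
  have h6 : ¬ ((0 : k) ^ 2 - 4 * (-3) * (-4 * a) = 0) := by
    intro h
    have h7 : (3 : k) * (2 * 2 * 2 * 2) * a = 0 := by linear_combination -h
    exact mul_ne_zero (mul_ne_zero h3 (mul_ne_zero (mul_ne_zero (mul_ne_zero h2 h2) h2) h2)) ha h7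
  rw [if_neg h6] at h5
  rw [h5] at h4
  have h8 : ((univ.filter fun z : k × k => z.1 ^ 2 + z.1 * z.2 + z.2 ^ 2 + a = 0).card : ℤ) =
      Nat.card {w : k × k // w.2 ^ 2 = (-3) * w.1 ^ 2 + 0 * w.1 + (-4 * a)} := by
    rw [← Nat.card_congr e, Nat.card_eq_fintype_card, Fintype.card_subtype]
  rw [h8, h4]
  have h9 : |quadraticChar k (-3)| ≤ 1 := by
    rcases quadraticChar_isQuadratic k (-3) with h | h | h <;> rw [h] <;> norm_num
  rw [show (Fintype.card k : ℤ) + quadraticChar k (-3) * -1 - Fintype.card k =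
    -quadraticChar k (-3) by ring, abs_neg]
  exact h9

lemma coll (hk : ringChar k ≠ 2) (h3 : (3 : k) ≠ 0) {a : k} (ha : a ≠ 0) :
    |((univ.filter fun z : k × k => z.1 ^ 3 + a * z.1 = z.2 ^ 3 + a * z.2).card : ℤ) -
      2 * Fintype.card k| ≤ 3 := by
  set A := univ.filter fun z : k × k => z.1 = z.2 with hA
  set B := univ.filter fun z : k × k => z.1 ^ 2 + z.1 * z.2 + z.2 ^ 2 + a = 0 with hB
  have h1 : (univ.filter fun z : k × k => z.1 ^ 3 + a * z.1 = z.2 ^ 3 + a * z.2) = A ∪ B := by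
    ext z
    simp only [hA, hB, mem_filter, mem_univ, true_and, mem_union]
    rw [← sub_eq_zero, show z.1 ^ 3 + a * z.1 - (z.2 ^ 3 + a * z.2) =
      (z.1 - z.2) * (z.1 ^ 2 + z.1 * z.2 + z.2 ^ 2 + a) by ring, mul_eq_zero, sub_eq_zero]
  have h2 : A.card = Fintype.card k := by
    have : A = univ.image fun x : k => (x, x) := by
      ext ⟨x, y⟩
      simp only [hA, mem_filter, mem_univ, true_and, mem_image, Prod.mk.injEq]
      constructor
      · rintro rfl
        exact ⟨x, rfl, rfl⟩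
      · rintro ⟨z, rfl, rfl⟩
        rfl
    rw [this, card_image_of_injective _ (fun x y h => (Prod.mk.inj h).1), card_univ]
  have h4 : (A ∩ B).card ≤ 2 := by
    refine le_trans ?_ (sqrts_le hk (-a / 3))
    refine card_le_card_of_injOn (fun z => z.1) ?_ ?_
    · rintro ⟨x, y⟩ hz
      simp only [hA, hB, mem_coe, mem_inter, mem_filter, mem_univ, true_and] at hz
      obtain ⟨rfl, hz⟩ := hz
      simp only [coe_filter, Set.mem_setOf_eq, mem_univ, true_and]
      field_simp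
      linear_combination hz
    · rintro ⟨x, y⟩ hz ⟨x', y'⟩ hz' h
      simp only [hA, hB, mem_coe, mem_inter, mem_filter, mem_univ, true_and] at hz hz'
      simp only at h
      rw [← hz.1, ← hz'.1, h]
  have h5 := card_union_add_card_inter A B
  have h6 := conic hk h3 ha
  rw [← hB] at h6
  rw [h1]
  have h7 : ((A ∪ B).card : ℤ) + (A ∩ B).card = A.card + B.card := by exact_mod_cast h5
  rw [h2] at h7
  have h8 : ((A ∩ B).card : ℤ) ≤ 2 := by exact_mod_cast h4
  have h9 : (0 : ℤ) ≤ (A ∩ B).card := by positivity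
  rw [abs_le] at h6 ⊢
  constructor <;> linarith [h6.1, h6.2]

end

/-- the number of affine points of `y² = x³ + a x + n` modulo `p` -/
noncomputable def aff (a n : ℤ) (p : ℕ) : ℕ :=
  Nat.card {q : ZMod p × ZMod p // q.2 ^ 2 = q.1 ^ 3 + (a : ZMod p) * q.1 + (n : ZMod p)}

/-- the trace of Frobenius `p - #(affine points)` -/
noncomputable def ap (a n : ℤ) (p : ℕ) : ℝ := (p : ℝ) - aff a n p

lemma ap_per (a : ℤ) (p : ℕ) : Per p (fun n => ap a n p) := by
  intro n
  unfold ap aff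
  simp

section
variable {p : ℕ} [Fact p.Prime]

lemma ringChar_ne (hp : p ≠ 2) : ringChar (ZMod p) ≠ 2 := by
  rwa [ZMod.ringChar_zmod_n]

lemma ap_eq (hp : p ≠ 2) (a n : ℤ) :
    ap a n p = -((∑ x : ZMod p, quadraticChar (ZMod p) (x ^ 3 + (a : ZMod p) * x + (n : ZMod p)) : ℤ)
      : ℝ) := by
  have h1 := card_points (ringChar_ne hp)
    (fun x : ZMod p => x ^ 3 + (a : ZMod p) * x + (n : ZMod p))
  have h2 := congrArg (fun z : ℤ => (z : ℝ)) h1
  simp only [Int.cast_natCast, Int.cast_add, ZMod.card] at h2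
  unfold ap aff
  rw [h2]
  ring

lemma sum_range_zmod {R : Type*} [AddCommMonoid R] (g : ZMod p → R) :
    ∑ j ∈ range p, g (((j : ℕ) : ℤ) : ZMod p) = ∑ z : ZMod p, g z := by
  refine sum_nbij' (fun j => (((j : ℕ) : ℤ) : ZMod p)) (fun z => z.val) ?_ ?_ ?_ ?_ ?_
  · intro j _
    exact mem_univ _
  · intro z _
    exact mem_range.2 (ZMod.val_lt z)
  · intro j hj
    simp only [Int.cast_natCast]
    exact ZMod.val_natCast_of_lt (mem_range.1 hj)
  · intro z _
    simp
  · intro j _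
    rfl

lemma abs_ap_le (hp : p ≠ 2) (a n : ℤ) : |ap a n p| ≤ 2 * Real.sqrt p := by
  have h1 := W165.CE.hasse (ringChar_ne hp) (a : ZMod p) (n : ZMod p)
  rw [ZMod.card] at h1
  unfold ap aff
  have h2 : (((p : ℤ) - (Nat.card {x : ZMod p × ZMod p //
      x.2 ^ 2 = x.1 ^ 3 + (a : ZMod p) * x.1 + (n : ZMod p)} : ℤ) : ℤ) : ℝ) =
      (p : ℝ) - (Nat.card {q : ZMod p × ZMod p //
        q.2 ^ 2 = q.1 ^ 3 + (a : ZMod p) * q.1 + (n : ZMod p)} : ℝ) := by
    push_cast
    ring
  rw [← h2]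
  push_cast at h1 ⊢
  exact h1

lemma mean_ap (hp : p ≠ 2) (a : ℤ) : mean p (fun n => ap a n p) = 0 := by
  unfold mean
  have h0 : ∑ j ∈ range p, ap a (j : ℤ) p = ∑ z : ZMod p, (-((∑ x : ZMod p,
      quadraticChar (ZMod p) (x ^ 3 + (a : ZMod p) * x + z) : ℤ) : ℝ)) := by
    rw [← sum_range_zmod]
    refine sum_congr rfl fun j _ => ?_
    exact ap_eq hp a j
  rw [h0, sum_neg_distrib, ← Int.cast_sum, sum_comm]
  have h1 : ∀ x : ZMod p, ∑ z : ZMod p,
      quadraticChar (ZMod p) (x ^ 3 + (a : ZMod p) * x + z) = 0 := by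
    intro x
    have h2 := quadraticChar_sum_zero (ringChar_ne hp)
    rw [← h2]
    exact Fintype.sum_equiv (Equiv.addLeft (x ^ 3 + (a : ZMod p) * x)) _ _ fun z => rfl
  simp_rw [h1]
  simp

lemma mean_ap_sq (hp : 5 ≤ p) {a : ℤ} (ha : ¬ ((p : ℤ) ∣ a)) :
    |mean p (fun n => (ap a n p / p) ^ 2) - 1 / p| ≤ 3 / (p : ℝ) ^ 2 := by
  have hp2 : p ≠ 2 := by omega
  have hp0 : (0 : ℝ) < p := by
    have : 0 < p := by omega
    exact_mod_cast this
  have ha' : (a : ZMod p) ≠ 0 := by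
    rwa [Ne, ZMod.intCast_zmod_eq_zero_iff_dvd]
  have h3 : (3 : ZMod p) ≠ 0 := by
    intro h
    have h1 : ((3 : ℕ) : ZMod p) = 0 := by exact_mod_cast h
    rw [ZMod.natCast_eq_zero_iff] at h1
    have := Nat.le_of_dvd (by norm_num) h1
    omega
  have h4 := second (ringChar_ne hp2) (fun x : ZMod p => x ^ 3 + (a : ZMod p) * x)
  have h5 := coll (ringChar_ne hp2) h3 ha'
  rw [ZMod.card] at h4 h5
  have h6 : ∑ j ∈ range p, (ap a (j : ℤ) p / p) ^ 2 =
      ((∑ z : ZMod p, (∑ x : ZMod p,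
        quadraticChar (ZMod p) (x ^ 3 + (a : ZMod p) * x + z)) ^ 2 : ℤ) : ℝ) / p ^ 2 := by
    rw [Int.cast_sum, sum_div, ← sum_range_zmod]
    refine sum_congr rfl fun j _ => ?_
    rw [ap_eq hp2 a j, div_pow, neg_sq]
    push_cast
    rfl
  set N := ((univ.filter fun z : ZMod p × ZMod p =>
    z.1 ^ 3 + (a : ZMod p) * z.1 = z.2 ^ 3 + (a : ZMod p) * z.2).card : ℤ) with hN
  unfold mean
  rw [h6, h4]
  have h7 : ((((p : ℤ) * N - (p : ℤ) ^ 2 : ℤ) : ℝ) / p ^ 2) / p - 1 / p =
      (N - 2 * p) / (p : ℝ) ^ 2 := by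
    push_cast
    field_simp
    ring
  rw [h7, abs_div, abs_of_pos (by positivity : (0 : ℝ) < (p : ℝ) ^ 2)]
  refine div_le_div_of_nonneg_right ?_ (by positivity)
  have h8 : |((N - 2 * (p : ℤ) : ℤ) : ℝ)| ≤ 3 := by
    rw [← Int.cast_abs]
    exact_mod_cast h5
  push_cast at h8
  exact h8

end

end Pool.Agent.Y834.BF
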