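import Pool.Agent.Y834.BF.Mom

/-!
# A maximal inequality
-/

set_option autoImplicit false
set_option linter.all false

namespace Pool.Agent.Y834.BF

open Finset

lemma four_split (a b : ℝ) : |a + b| ^ 4 ≤ 512 * |a| ^ 4 + 3 / 2 * |b| ^ 4 := by
  have e : ∀ x : ℝ, |x| ^ 4 = x ^ 4 := fun x => by
    rw [← abs_pow, abs_of_nonneg (by positivity)]
  rw [e, e, e]
  have h1 : (a + b) ^ 2 ≤ 8 * a ^ 2 + 8 / 7 * b ^ 2 := by
    nlinarith [sq_nonneg (7 * a - b)]
  have h2 : ((a + b) ^ 2) ^ 2 ≤ (8 * a ^ 2 + 8 / 7 * b ^ 2) ^ 2 :=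
    pow_le_pow_left₀ (sq_nonneg _) h1 2
  have h3 : (8 * a ^ 2 + 8 / 7 * b ^ 2) ^ 2 ≤ 512 * a ^ 4 + 512 / 343 * b ^ 4 := by
    nlinarith [sq_nonneg (7 * a ^ 2 - 1 / 7 * b ^ 2), sq_nonneg (a ^ 2), sq_nonneg (b ^ 2),
      sq_nonneg (49 * a ^ 2 - b ^ 2)]
  have h4 : 0 ≤ b ^ 4 := by positivity
  nlinarith

/-- if the fourth moments of the block sums are at most `A (∑ w)²`, those of the maximal partial
sums are at most `1366 A (∑ w)²` -/
lemma maximal {w : ℕ → ℝ} (hw : ∀ l, 0 ≤ w l) {G : ℕ → ℤ → ℝ} {A : ℝ} (hA : 0 ≤ A) {M : ℤ}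
    {H : ℕ} :
    ∀ (d u N : ℕ), N = u + d →
      (∀ u' v', u ≤ u' → u' ≤ v' → v' ≤ N →
        iav M H (fun n => |∑ l ∈ Ioc u' v', G l n| ^ 4) ≤ A * (∑ l ∈ Ioc u' v', w l) ^ 2) →
      ∀ v : ℤ → ℕ, (∀ n, u ≤ v n) → (∀ n, v n ≤ N) →
        iav M H (fun n => |∑ l ∈ Ioc u (v n), G l n| ^ 4) ≤
          1366 * A * (∑ l ∈ Ioc u N, w l) ^ 2 := by
  intro d
  induction d using Nat.strong_induction_on with
  | _ d ih =>
    intro u N hN hyp v hv1 hv2
    rcases Nat.eq_zero_or_pos d with hd | hd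
    · have h1 : ∀ n, v n = u := fun n => by
        have := hv1 n
        have := hv2 n
        omega
      have h2 : (fun n : ℤ => |∑ l ∈ Ioc u (v n), G l n| ^ 4) = fun _ => 0 := by
        funext n
        rw [h1 n]
        simp
      rw [h2]
      unfold iav
      simp only [sum_const_zero, zero_div]
      positivity
    set W := ∑ l ∈ Ioc u N, w l with hW
    have hW0 : 0 ≤ W := sum_nonneg fun l _ => hw l
    -- the median
    have hex : ∃ m, u < m ∧ W / 2 ≤ ∑ l ∈ Ioc u m, w l := ⟨N, by omega, by rw [← hW]; linarith⟩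
    classical
    set m := Nat.find hex with hm
    have hm1 : u < m := (Nat.find_spec hex).1
    have hm2 : W / 2 ≤ ∑ l ∈ Ioc u m, w l := (Nat.find_spec hex).2
    have hm3 : m ≤ N := Nat.find_min' hex ⟨by omega, by rw [← hW]; linarith⟩
    have hm4 : ∑ l ∈ Ioc u (m - 1), w l ≤ W / 2 := by
      rcases Nat.lt_or_ge u (m - 1) with h | h
      · have h1 := Nat.find_min hex (m := m - 1) (by omega)
        push Not at h1
        exact (h1 h).le
      · have h1 : m - 1 = u := by omega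
        rw [h1]
        simp only [Ioc_self, sum_empty]
        linarith
    have hsplit : ∀ (f : ℕ → ℝ) (a b c : ℕ), a ≤ b → b ≤ c →
        ∑ l ∈ Ioc a c, f l = ∑ l ∈ Ioc a b, f l + ∑ l ∈ Ioc b c, f l := by
      intro f a b c hab hbc
      rw [← Ioc_union_Ioc_eq_Ioc hab hbc, sum_union]
      exact disjoint_left.2 fun x h1 h2 => by
        rw [mem_Ioc] at h1 h2
        omega
    have hm5 : ∑ l ∈ Ioc m N, w l ≤ W / 2 := by
      have h1 := hsplit w u m N hm1.le hm3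
      rw [← hW] at h1
      linarith
    have i1 := ih (m - 1 - u) (by omega) u (m - 1) (by omega)
      (fun u' v' h1 h2 h3 => hyp u' v' h1 h2 (by omega)) (fun n => min (v n) (m - 1))
      (fun n => by
        have := hv1 n
        simp only [le_min_iff]
        omega) (fun n => min_le_right _ _)
    have i2 := ih (N - m) (by omega) m N (by omega)
      (fun u' v' h1 h2 h3 => hyp u' v' (by omega) h2 h3) (fun n => max (v n) m)
      (fun n => le_max_right _ _) (fun n => max_le (hv2 n) hm3)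
    have i3 := hyp u m le_rfl hm1.le hm3
    have hpt : ∀ n, |∑ l ∈ Ioc u (v n), G l n| ^ 4 ≤
        |∑ l ∈ Ioc u (min (v n) (m - 1)), G l n| ^ 4 + (512 * |∑ l ∈ Ioc u m, G l n| ^ 4 +
          3 / 2 * |∑ l ∈ Ioc m (max (v n) m), G l n| ^ 4) := by
      intro n
      rcases Nat.lt_or_ge (v n) m with h | h
      · rw [min_eq_left (by omega : v n ≤ m - 1)]
        have : 0 ≤ 512 * |∑ l ∈ Ioc u m, G l n| ^ 4 +
          3 / 2 * |∑ l ∈ Ioc m (max (v n) m), G l n| ^ 4 := by positivity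
        linarith
      · rw [max_eq_left h, hsplit (fun l => G l n) u m (v n) hm1.le h]
        have h1 := four_split (∑ l ∈ Ioc u m, G l n) (∑ l ∈ Ioc m (v n), G l n)
        have : 0 ≤ |∑ l ∈ Ioc u (min (v n) (m - 1)), G l n| ^ 4 := by positivity
        linarith
    refine (iav_mono hpt).trans ?_
    rw [iav_add, iav_add, iav_const_mul, iav_const_mul]
    have w1 : 0 ≤ ∑ l ∈ Ioc u (m - 1), w l := sum_nonneg fun l _ => hw l
    have w2 : 0 ≤ ∑ l ∈ Ioc m N, w l := sum_nonneg fun l _ => hw l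
    have w3 : 0 ≤ ∑ l ∈ Ioc u m, w l := sum_nonneg fun l _ => hw l
    have w4 : ∑ l ∈ Ioc u m, w l ≤ W := by
      have h1 := hsplit w u m N hm1.le hm3
      rw [← hW] at h1
      linarith
    have j1 : (∑ l ∈ Ioc u (m - 1), w l) ^ 2 ≤ (W / 2) ^ 2 := pow_le_pow_left₀ w1 hm4 2
    have j2 : (∑ l ∈ Ioc m N, w l) ^ 2 ≤ (W / 2) ^ 2 := pow_le_pow_left₀ w2 hm5 2
    have j3 : (∑ l ∈ Ioc u m, w l) ^ 2 ≤ W ^ 2 := pow_le_pow_left₀ w3 w4 2
    have k1 : 1366 * A * (∑ l ∈ Ioc u (m - 1), w l) ^ 2 ≤ 1366 * A * (W / 2) ^ 2 := by gcongr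
    have k2 : 1366 * A * (∑ l ∈ Ioc m N, w l) ^ 2 ≤ 1366 * A * (W / 2) ^ 2 := by gcongr
    have k3 : A * (∑ l ∈ Ioc u m, w l) ^ 2 ≤ A * W ^ 2 := by gcongr
    have k4 : 0 ≤ A * W ^ 2 := by positivity
    nlinarith

end Pool.Agent.Y834.BF
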