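import Pool.Agent.Y834.BF.Avg

/-!
# Moments of sums of independent bounded functions, in the model and on intervals
-/

set_option autoImplicit false
set_option linter.all false

namespace Pool.Agent.Y834.BF

open Finset

/-- `F p` is a real function of period `p` with mean `0`, bounded by `c p` -/
structure Fam (P : Finset ℕ) (F : ℕ → ℤ → ℝ) (c : ℕ → ℝ) : Prop where
  prime : ∀ p ∈ P, p.Prime
  per : ∀ p ∈ P, Per p (F p)
  zero : ∀ p ∈ P, mean p (F p) = 0
  bd : ∀ p ∈ P, ∀ n, |F p n| ≤ c p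
  pos : ∀ p ∈ P, 0 < c p

lemma Fam.subset {P P' : Finset ℕ} {F : ℕ → ℤ → ℝ} {c : ℕ → ℝ} (h : Fam P F c) (hs : P' ⊆ P) :
    Fam P' F c :=
  ⟨fun p hp => h.prime p (hs hp), fun p hp => h.per p (hs hp), fun p hp => h.zero p (hs hp),
    fun p hp => h.bd p (hs hp), fun p hp => h.pos p (hs hp)⟩

lemma exp_conv {c x l : ℝ} (hc : 0 < c) (hx : |x| ≤ c) :
    Real.exp (l * x) ≤ Real.cosh (l * c) + x / c * Real.sinh (l * c) := by
  have h1 := (abs_le.1 hx).1
  have h2 := (abs_le.1 hx).2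
  have ha : 0 ≤ (c + x) / (2 * c) := by apply div_nonneg <;> linarith
  have hb : 0 ≤ (c - x) / (2 * c) := by apply div_nonneg <;> linarith
  have hab : (c + x) / (2 * c) + (c - x) / (2 * c) = 1 := by
    field_simp
    ring
  have h3 := convexOn_exp.2 (Set.mem_univ (l * c)) (Set.mem_univ (-(l * c))) ha hb hab
  simp only [smul_eq_mul] at h3
  have h4 : (c + x) / (2 * c) * (l * c) + (c - x) / (2 * c) * -(l * c) = l * x := by
    field_simp
    ring
  rw [h4] at h3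
  refine h3.trans (le_of_eq ?_)
  rw [Real.cosh_eq, Real.sinh_eq]
  field_simp
  ring

variable {P : Finset ℕ} {F : ℕ → ℤ → ℝ} {c : ℕ → ℝ}

lemma mean_exp_one (h : Fam P F c) {p : ℕ} (hp : p ∈ P) (l : ℝ) :
    mean p (fun n => Real.exp (l * F p n)) ≤ Real.exp (l ^ 2 / 2 * c p ^ 2) := by
  have hc := h.pos p hp
  have h1 : mean p (fun n => Real.exp (l * F p n)) ≤
      mean p (fun n => Real.cosh (l * c p) + Real.sinh (l * c p) / c p * F p n) := by
    refine mean_mono fun n => ?_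
    refine (exp_conv hc (h.bd p hp n)).trans (le_of_eq ?_)
    ring
  refine h1.trans ?_
  rw [mean_add, mean_const (h.prime p hp).pos, mean_const_mul, h.zero p hp, mul_zero, add_zero]
  refine (Real.cosh_le_exp_half_sq _).trans (le_of_eq ?_)
  congr 1
  ring

/-- exponential moments in the model -/
lemma mean_exp (h : Fam P F c) (l : ℝ) :
    mean (∏ p ∈ P, p) (fun n => Real.exp (l * ∑ p ∈ P, F p n)) ≤
      Real.exp (l ^ 2 / 2 * ∑ p ∈ P, c p ^ 2) := by
  have h1 : (fun n : ℤ => Real.exp (l * ∑ p ∈ P, F p n)) =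
      fun n => ∏ p ∈ P, Real.exp (l * F p n) := by
    funext n
    rw [mul_sum, Real.exp_sum]
  rw [h1, mean_prod h.prime (F := fun p n => Real.exp (l * F p n)) (fun p hp n => by
    simp only
    rw [h.per p hp n]), mul_sum, Real.exp_sum]
  refine prod_le_prod (fun p hp => ?_) (fun p hp => mean_exp_one h hp l)
  unfold mean
  positivity

/-- all moments in the model -/
lemma mean_pow (h : Fam P F c) {l : ℝ} (hl : 0 < l) (k : ℕ) :
    mean (∏ p ∈ P, p) (fun n => |∑ p ∈ P, F p n| ^ k) ≤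
      2 * k.factorial * Real.exp (l ^ 2 / 2 * ∑ p ∈ P, c p ^ 2) / l ^ k := by
  have hk : (0 : ℝ) < k.factorial := by exact_mod_cast k.factorial_pos
  have h1 : ∀ n : ℤ, |∑ p ∈ P, F p n| ^ k ≤ (k.factorial / l ^ k) *
      (Real.exp (l * ∑ p ∈ P, F p n) + Real.exp (-l * ∑ p ∈ P, F p n)) := by
    intro n
    set s := ∑ p ∈ P, F p n
    have h2 := Real.pow_div_factorial_le_exp (l * |s|) (by positivity) k
    have h3 : Real.exp (l * |s|) ≤ Real.exp (l * s) + Real.exp (-l * s) := by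
      rcases abs_cases s with ⟨h, _⟩ | ⟨h, _⟩
      · rw [h]
        have := Real.exp_pos (-l * s)
        linarith
      · rw [h, show l * -s = -l * s by ring]
        have := Real.exp_pos (l * s)
        linarith
    have h4 := h2.trans h3
    rw [mul_pow, div_le_iff₀ hk] at h4
    rw [div_mul_eq_mul_div, le_div_iff₀ (by positivity)]
    linarith
  refine (mean_mono h1).trans ?_
  rw [mean_const_mul, mean_add]
  have h5 := mean_exp h l
  have h6 := mean_exp h (-l)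
  rw [neg_sq] at h6
  calc (k.factorial / l ^ k) * (mean (∏ p ∈ P, p) (fun n => Real.exp (l * ∑ p ∈ P, F p n)) +
        mean (∏ p ∈ P, p) (fun n => Real.exp (-l * ∑ p ∈ P, F p n)))
      ≤ (k.factorial / l ^ k) * (Real.exp (l ^ 2 / 2 * ∑ p ∈ P, c p ^ 2) +
        Real.exp (l ^ 2 / 2 * ∑ p ∈ P, c p ^ 2)) := by gcongr
    _ = _ := by ring

lemma prod_image_le {k X : ℕ} (hX : 1 ≤ X) (f : Fin k → ℕ) (hf : ∀ i, f i ≤ X) :
    ∏ p ∈ univ.image f, p ≤ X ^ k := by
  have h1 : ∏ p ∈ univ.image f, p ≤ X ^ (univ.image f).card := by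
    refine prod_le_pow_card _ _ _ fun p hp => ?_
    obtain ⟨i, _, rfl⟩ := mem_image.1 hp
    exact hf i
  refine h1.trans (Nat.pow_le_pow_right hX ?_)
  exact card_image_le.trans (by simp)

/-- moments on intervals and in the model agree -/
lemma iav_pow_sub (h : Fam P F c) {X : ℕ} (hX : 1 ≤ X) (hP : ∀ p ∈ P, p ≤ X) (k : ℕ) (M : ℤ)
    {H : ℕ} (hH : 0 < H) :
    |iav M H (fun n => (∑ p ∈ P, F p n) ^ k) -
      mean (∏ p ∈ P, p) (fun n => (∑ p ∈ P, F p n) ^ k)| ≤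
      2 * (X : ℝ) ^ k * (∑ p ∈ P, c p) ^ k / H := by
  classical
  have hexp : ∀ (G : ℕ → ℝ), (∑ p ∈ P, G p) ^ k =
      ∑ f ∈ Fintype.piFinset (fun _ : Fin k => P), ∏ i, G (f i) := by
    intro G
    have h1 := prod_univ_sum (fun _ : Fin k => P) (fun _ p => G p)
    rw [prod_const, card_univ, Fintype.card_fin] at h1
    exact h1
  have hfun : (fun n : ℤ => (∑ p ∈ P, F p n) ^ k) =
      fun n => ∑ f ∈ Fintype.piFinset (fun _ : Fin k => P), ∏ i, F (f i) n := by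
    funext n
    exact hexp fun p => F p n
  rw [hfun, iav_sum, mean_sum, ← sum_sub_distrib]
  refine (abs_sum_le_sum_abs _ _).trans ?_
  rw [hexp c, mul_sum, sum_div]
  refine sum_le_sum fun f hf => ?_
  rw [Fintype.mem_piFinset] at hf
  have hq0 : 0 < ∏ p ∈ univ.image f, p := by
    refine prod_pos fun p hp => ?_
    obtain ⟨i, _, rfl⟩ := mem_image.1 hp
    exact (h.prime _ (hf i)).pos
  have hQ0 : 0 < ∏ p ∈ P, p := prod_pos fun p hp => (h.prime p hp).pos
  have hper : Per (∏ p ∈ univ.image f, p) (fun n => ∏ i, F (f i) n) := by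
    intro n
    refine prod_congr rfl fun i _ => ?_
    exact (h.per _ (hf i)).of_dvd (dvd_prod_of_mem (fun p => p) (mem_image_of_mem f (mem_univ i))) n
  have hdvd : (∏ p ∈ univ.image f, p) ∣ ∏ p ∈ P, p := by
    refine prod_dvd_prod_of_subset _ _ _ fun p hp => ?_
    obtain ⟨i, _, rfl⟩ := mem_image.1 hp
    exact hf i
  have hbd : ∀ n : ℤ, ‖∏ i, F (f i) n‖ ≤ ∏ i, c (f i) := by
    intro n
    rw [norm_prod]
    exact prod_le_prod (fun i _ => norm_nonneg _) fun i _ => h.bd _ (hf i) n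
  rw [mean_of_dvd hper hdvd hQ0]
  have h1 := iav_sub_mean hper hq0 hbd M hH
  rw [Real.norm_eq_abs] at h1
  refine h1.trans ?_
  have h2 : ((∏ p ∈ univ.image f, p : ℕ) : ℝ) ≤ (X : ℝ) ^ k := by
    exact_mod_cast prod_image_le hX f fun i => hP _ (hf i)
  have h3 : 0 ≤ ∏ i, c (f i) := prod_nonneg fun i _ => (h.pos _ (hf i)).le
  have hH0 : (0 : ℝ) < H := Nat.cast_pos.2 hH
  gcongr

/-- the fourth moment on an interval -/
lemma iav_four (h : Fam P F c) {X : ℕ} (hX : 1 ≤ X) (hP : ∀ p ∈ P, p ≤ X) {κ : ℝ} (hκ : 0 < κ)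
    (hc1 : ∀ p ∈ P, κ / X ≤ c p) (hc2 : ∀ p ∈ P, c p ≤ κ) (M : ℤ) {H : ℕ}
    (hH : 2 * X ^ 12 ≤ H) :
    iav M H (fun n => |∑ p ∈ P, F p n| ^ 4) ≤ 24 * (∑ p ∈ P, c p ^ 2) ^ 2 := by
  have hX0 : (0 : ℝ) < X := by exact_mod_cast hX
  have hX1 : (1 : ℝ) ≤ X := by exact_mod_cast hX
  have hH0 : 0 < H := lt_of_lt_of_le (by positivity) hH
  have hHr : (0 : ℝ) < H := by exact_mod_cast hH0
  rcases P.eq_empty_or_nonempty with rfl | hne
  · simp [iav]
  obtain ⟨p0, hp0⟩ := hne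
  have habs : (fun n : ℤ => |∑ p ∈ P, F p n| ^ 4) = fun n => (∑ p ∈ P, F p n) ^ 4 := by
    funext n
    rw [← abs_pow, abs_of_nonneg (by positivity)]
  set C := ∑ p ∈ P, c p ^ 2 with hC
  have hC1 : κ ^ 2 / X ^ 2 ≤ C := by
    have h1 : c p0 ^ 2 ≤ C := single_le_sum (f := fun p => c p ^ 2) (fun p _ => sq_nonneg _) hp0
    refine le_trans ?_ h1
    rw [← div_pow]
    exact pow_le_pow_left₀ (by positivity) (hc1 p0 hp0) 2
  have hC0 : 0 < C := lt_of_lt_of_le (by positivity) hC1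
  have h2 := iav_pow_sub h hX hP 4 M hH0
  have h3 := mean_pow h (l := 2 / Real.sqrt C) (by positivity) 4
  rw [habs] at h3
  rw [habs]
  have hs : Real.sqrt C ^ 2 = C := Real.sq_sqrt hC0.le
  have h4 : (2 / Real.sqrt C) ^ 2 / 2 * C = 2 := by
    rw [div_pow, hs]
    field_simp
  have h5 : (2 / Real.sqrt C) ^ 4 = 16 / C ^ 2 := by
    rw [div_pow, show (4 : ℕ) = 2 * 2 by norm_num, pow_mul (Real.sqrt C), hs]
    norm_num
  rw [← hC, h4, h5] at h3
  have he : Real.exp 2 ≤ 7.5 := by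
    have h6 := Real.exp_one_lt_d9
    have h7 : Real.exp 2 = Real.exp 1 * Real.exp 1 := by
      rw [← Real.exp_add]
      norm_num
    rw [h7]
    nlinarith [Real.exp_pos 1]
  have h8 : 2 * ((4 : ℕ).factorial : ℝ) * Real.exp 2 / (16 / C ^ 2) ≤ 22.5 * C ^ 2 := by
    have h9 : 2 * ((4 : ℕ).factorial : ℝ) * Real.exp 2 / (16 / C ^ 2) =
        3 * Real.exp 2 * C ^ 2 := by
      rw [show ((4 : ℕ).factorial : ℝ) = 24 by norm_num [Nat.factorial]]
      field_simp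
      ring
    rw [h9]
    have : 0 ≤ C ^ 2 := by positivity
    nlinarith
  have h10 : ∑ p ∈ P, c p ≤ X * κ := by
    have hcard : (P.card : ℝ) ≤ X := by
      have : P ⊆ Icc 1 X := fun p hp => mem_Icc.2 ⟨(h.prime p hp).one_lt.le, hP p hp⟩
      have := card_le_card this
      rw [Nat.card_Icc] at this
      exact_mod_cast this
    refine (sum_le_sum hc2).trans ?_
    rw [sum_const, nsmul_eq_mul]
    exact mul_le_mul_of_nonneg_right hcard hκ.le
  have h11 : 0 ≤ ∑ p ∈ P, c p := sum_nonneg fun p hp => (h.pos p hp).le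
  have h12 : 2 * (X : ℝ) ^ 4 * (∑ p ∈ P, c p) ^ 4 / H ≤ C ^ 2 := by
    have h13 : 2 * (X : ℝ) ^ 4 * (∑ p ∈ P, c p) ^ 4 ≤ 2 * (X : ℝ) ^ 4 * (X * κ) ^ 4 := by gcongr
    have h14 : (κ ^ 2 / X ^ 2) ^ 2 ≤ C ^ 2 := pow_le_pow_left₀ (by positivity) hC1 2
    refine le_trans ?_ h14
    rw [div_le_iff₀ hHr]
    have h15 : (2 : ℝ) * X ^ 12 ≤ H := by exact_mod_cast hH
    calc 2 * (X : ℝ) ^ 4 * (∑ p ∈ P, c p) ^ 4 ≤ 2 * (X : ℝ) ^ 4 * (X * κ) ^ 4 := h13
      _ = (κ ^ 2 / X ^ 2) ^ 2 * (2 * X ^ 12) := by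
        field_simp
      _ ≤ (κ ^ 2 / X ^ 2) ^ 2 * H := by gcongr
  have h16 := (abs_le.1 h2).2
  have h17 : 0 ≤ C ^ 2 := by positivity
  linarith

end Pool.Agent.Y834.BF
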