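import Pool.Agent.Y834.BF.Uni2

/-!
# Oscillation of the logarithmic mean of a_p log p / p
-/

set_option autoImplicit false
set_option linter.all false

namespace Pool.Agent.Y834.BF

open Finset MeasureTheory ProbabilityTheory

open Classical in
/-- the indicator function -/
noncomputable def ind (p : Prop) : ℝ := if p then 1 else 0

lemma ind_nonneg (p : Prop) : 0 ≤ ind p := by
  unfold ind
  split_ifs <;> norm_num

lemma ind_le_one (p : Prop) : ind p ≤ 1 := by
  unfold ind
  split_ifs <;> norm_num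

lemma ind_pos {p : Prop} (h : p) : ind p = 1 := by
  unfold ind
  rw [if_pos h]

lemma ind_neg {p : Prop} (h : ¬ p) : ind p = 0 := by
  unfold ind
  rw [if_neg h]

lemma norm_ind_le (p : Prop) : ‖ind p‖ ≤ 1 := by
  rw [Real.norm_eq_abs, abs_of_nonneg (ind_nonneg p)]
  exact ind_le_one p

lemma iav_ind (M : ℤ) (H : ℕ) (p : ℤ → Prop) [DecidablePred p] :
    iav M H (fun n => ind (p n)) = (((Ioc M (M + H)).filter p).card : ℝ) / H := by
  unfold iav ind
  rw [card_eq_sum_ones, Nat.cast_sum, sum_filter]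
  congr 1
  refine sum_congr rfl fun n _ => ?_
  by_cases h : p n
  · simp [h]
  · simp [h]

lemma gauss_Iic (t : ℝ) : 0 < (gaussianReal 0 (1 / 2)).real (Set.Iic t) := by
  unfold Measure.real
  rw [ENNReal.toReal_pos_iff]
  refine ⟨pos_iff_ne_zero.2 fun h => ?_, measure_lt_top _ _⟩
  have h1 := gaussianReal_absolutelyContinuous' 0 (v := (1 / 2 : NNReal)) (by norm_num) h
  rw [Real.volume_Iic] at h1
  exact ENNReal.top_ne_zero h1

lemma gauss_Iic_lt (t : ℝ) : (gaussianReal 0 (1 / 2)).real (Set.Iic t) < 1 := by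
  have h1 : 0 < (gaussianReal 0 (1 / 2)).real (Set.Ioi t) := by
    unfold Measure.real
    rw [ENNReal.toReal_pos_iff]
    refine ⟨pos_iff_ne_zero.2 fun h => ?_, measure_lt_top _ _⟩
    have h1 := gaussianReal_absolutelyContinuous' 0 (v := (1 / 2 : NNReal)) (by norm_num) h
    rw [Real.volume_Ioi] at h1
    exact ENNReal.top_ne_zero h1
  have h2 : (gaussianReal 0 (1 / 2)).real (Set.Iic t)ᶜ =
      1 - (gaussianReal 0 (1 / 2)).real (Set.Iic t) := by
    rw [measureReal_compl measurableSet_Iic]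
    simp
  rw [Set.compl_Iic] at h2
  linarith

/-- large values of `± S` are attained by a positive proportion -/
lemma prob_ge {κ : ℝ} (hκ : 0 ≤ κ) {s : ℝ} (hs : s = 1 ∨ s = -1) (c : ℝ) : ∃ q : ℝ, 0 < q ∧
    ∃ N : ℕ, 5 ≤ N ∧ ∀ x : ℕ, N ≤ x → ∀ a : ℤ, a ≠ 0 → oml a ≤ κ → ∀ (M : ℤ) (H : ℕ),
      x ^ N ≤ H → q ≤ iav M H (fun n => ind (c < s * RR a n x)) := by
  classical
  rcases hs with rfl | rfl
  · have h0 := gauss_Iic_lt c
    obtain ⟨N, hN5, hN⟩ := clt2 hκ c
      (show 0 < (1 - (gaussianReal 0 (1 / 2)).real (Set.Iic c)) / 2 by linarith)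
    refine ⟨(1 - (gaussianReal 0 (1 / 2)).real (Set.Iic c)) / 2, by linarith, N, hN5,
      fun x hx a ha hom M H hH => ?_⟩
    have h1 := (abs_le.1 (hN x hx a ha hom M H hH)).2
    rw [emp_real M _ measurableSet_Iic, ← iav_ind] at h1
    have hH0 : 0 < H := by
      have : 0 < x ^ N := by
        have : 0 < x := by omega
        positivity
      omega
    have h2 : iav M H (fun n => ind (c < 1 * RR a n x)) +
        iav M H (fun n => ind (RR a n x ∈ Set.Iic c)) = 1 := by
      rw [← iav_add]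
      have : (fun n : ℤ => ind (c < 1 * RR a n x) + ind (RR a n x ∈ Set.Iic c)) = fun _ => 1 := by
        funext n
        rw [one_mul]
        rcases lt_or_ge c (RR a n x) with h | h
        · rw [ind_pos h, ind_neg (by simpa using h)]
          norm_num
        · rw [ind_neg (not_lt.2 h), ind_pos (by simpa using h)]
          norm_num
      rw [this, iav_const M hH0]
    linarith
  · have h0 := gauss_Iic (-(c + 1))
    obtain ⟨N, hN5, hN⟩ := clt2 hκ (-(c + 1))
      (show 0 < ((gaussianReal 0 (1 / 2)).real (Set.Iic (-(c + 1)))) / 2 by linarith)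
    refine ⟨((gaussianReal 0 (1 / 2)).real (Set.Iic (-(c + 1)))) / 2, by linarith, N, hN5,
      fun x hx a ha hom M H hH => ?_⟩
    have h1 := (abs_le.1 (hN x hx a ha hom M H hH)).1
    rw [emp_real M _ measurableSet_Iic, ← iav_ind] at h1
    have h2 : iav M H (fun n => ind (RR a n x ∈ Set.Iic (-(c + 1)))) ≤
        iav M H (fun n => ind (c < -1 * RR a n x)) := by
      refine iav_mono fun n => ?_
      by_cases h : RR a n x ∈ Set.Iic (-(c + 1))
      · rw [Set.mem_Iic] at h
        rw [ind_pos (show c < -1 * RR a n x by linarith)]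
        exact ind_le_one _
      · rw [ind_neg h]
        exact ind_nonneg _
    linarith

/-- the sum over a block of primes -/
noncomputable def UU (a : ℤ) (y x : ℕ) (n : ℤ) : ℝ := ∑ l ∈ pr x \ pr y, ww x l * FF a l n

lemma pr_mono {x y : ℕ} (h : y ≤ x) : pr y ⊆ pr x := by
  intro l hl
  rw [mem_pr] at hl ⊢
  exact ⟨hl.1, hl.2.1.trans h, hl.2.2⟩

lemma WW_split (a n : ℤ) {x y : ℕ} (h : y ≤ x) :
    WW a n x = UU a y x n + ∑ l ∈ pr y, ww x l * FF a l n := by
  unfold WW UU
  exact (sum_sdiff (pr_mono h)).symm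

lemma small_part (a n : ℤ) {x y : ℕ} (hy : 5 ≤ y) (h : y ≤ x)
    (hx : 4 * (y * Real.log y) ≤ Real.log x) :
    |∑ l ∈ pr y, ww x l * FF a l n| ≤ 1 / 2 := by
  have hly := log_pos_of hy
  have hlx := log_pos_of (hy.trans h)
  have hy0 : (0 : ℝ) < y := by
    have : 0 < y := by omega
    exact_mod_cast this
  refine (abs_sum_le_sum_abs _ _).trans ?_
  have h1 : ∀ l ∈ pr y, |ww x l * FF a l n| ≤ 2 * (Real.log y / Real.log x) := by
    intro l hl
    have hl' := hl
    rw [mem_pr] at hl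
    have hl0 : (0 : ℝ) < l := by exact_mod_cast hl.2.2.pos
    have hl1 : (1 : ℝ) ≤ l := by exact_mod_cast hl.2.2.one_lt.le
    have hs1 : 1 ≤ Real.sqrt l := by
      rw [Real.one_le_sqrt]
      exact hl1
    have hw := ww_pos (pr_mono h hl')
    have hF := abs_FF_le a n hl.2.2 hl.1
    have hF2 : |FF a l n| ≤ 2 := by
      refine hF.trans ?_
      rw [div_le_iff₀ (by linarith)]
      linarith
    have hw2 : ww x l ≤ Real.log y / Real.log x := by
      unfold ww
      have h3 : (l : ℝ) ≤ y := by exact_mod_cast hl.2.1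
      have := Real.log_le_log hl0 h3
      gcongr
    rw [abs_mul, abs_of_pos hw]
    calc ww x l * |FF a l n| ≤ (Real.log y / Real.log x) * 2 :=
          mul_le_mul hw2 hF2 (abs_nonneg _) (by positivity)
      _ = _ := mul_comm _ _
  refine (sum_le_sum h1).trans ?_
  rw [sum_const, nsmul_eq_mul]
  have hcard : ((pr y).card : ℝ) ≤ y := by
    have h2 : pr y ⊆ Icc 1 y := fun l hl => by
      rw [mem_pr] at hl
      rw [mem_Icc]
      exact ⟨by omega, hl.2.1⟩
    have := card_le_card h2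
    rw [Nat.card_Icc] at this
    exact_mod_cast this
  calc ((pr y).card : ℝ) * (2 * (Real.log y / Real.log x)) ≤
        y * (2 * (Real.log y / Real.log x)) := by gcongr
    _ = (2 * (y * Real.log y)) / Real.log x := by ring
    _ ≤ 1 / 2 := by
      rw [div_le_iff₀ (by linarith)]
      linarith

lemma prod_pr_pos (P : Finset ℕ) (x : ℕ) (h : P ⊆ pr x) : 0 < ∏ l ∈ P, l :=
  prod_pos fun l hl => by
    have := h hl
    rw [mem_pr] at this
    exact this.2.2.pos

lemma FF_per {a : ℤ} {P : Finset ℕ} {l : ℕ} (hl : l ∈ P) (n : ℤ) :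
    FF a l (n + ((∏ p ∈ P, p : ℕ) : ℤ)) = FF a l n :=
  (per_FF a l).of_dvd (dvd_prod_of_mem (fun p => p) hl) n

/-- one block -/
lemma block {κ : ℝ} (hκ : 0 ≤ κ) {s : ℝ} (hs : s = 1 ∨ s = -1) (T : ℝ) : ∃ q : ℝ, 0 < q ∧
    ∀ y : ℕ, 5 ≤ y → ∃ x : ℕ, y ≤ x ∧ 4 * (y * Real.log y) ≤ Real.log x ∧
      ∀ a : ℤ, a ≠ 0 → oml a ≤ κ →
        mean (∏ l ∈ pr x \ pr y, l) (fun n => ind (s * UU a y x n ≤ T)) ≤ 1 - q := by
  obtain ⟨q, hq0, N, hN5, hN⟩ := prob_ge hκ hs (T + 1)
  obtain ⟨CB, hCB0, hCB⟩ := iav_BB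
  refine ⟨q / 2, by linarith, fun y hy => ?_⟩
  obtain ⟨x1, hx1⟩ := exists_nat_ge (Real.exp (4 * (y * Real.log y)))
  obtain ⟨x2, hx2⟩ := exists_nat_ge (Real.exp (16 + 4 * CB / (q / 4)))
  set x := y + N + x1 + x2 with hx
  have h5x : 5 ≤ x := by omega
  have hx0 : (0 : ℝ) < x := by
    have : 0 < x := by omega
    exact_mod_cast this
  have hL1 : 4 * (y * Real.log y) ≤ Real.log x := by
    rw [Real.le_log_iff_exp_le hx0]
    refine hx1.trans ?_
    have : x1 ≤ x := by omega
    exact_mod_cast this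
  have hL2 : 16 + 4 * CB / (q / 4) ≤ Real.log x := by
    rw [Real.le_log_iff_exp_le hx0]
    refine hx2.trans ?_
    have : x2 ≤ x := by omega
    exact_mod_cast this
  refine ⟨x, by omega, hL1, fun a ha hom => ?_⟩
  set P := pr x \ pr y with hP
  set Q := ∏ l ∈ P, l with hQ
  have hQ0 : 0 < Q := prod_pr_pos P x sdiff_subset
  have hper : Per Q (fun n => ind (s * UU a y x n ≤ T)) := by
    intro n
    have h1 : UU a y x (n + (Q : ℤ)) = UU a y x n := by
      unfold UU
      refine sum_congr rfl fun l hl => ?_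
      rw [FF_per hl]
    simp only
    rw [h1]
  have hL0 : 0 < Real.log x := by
    have : 0 ≤ 4 * CB / (q / 4) := by positivity
    linarith
  have hBq : CB / Real.log x ≤ q / 16 := by
    rw [div_le_iff₀ hL0]
    have h1 : 4 * CB / (q / 4) ≤ Real.log x := by linarith
    rw [div_le_iff₀ (by positivity)] at h1
    linarith
  have h4L : 4 / Real.log x ≤ 1 / 4 := by
    rw [div_le_iff₀ hL0]
    have : 0 ≤ 4 * CB / (q / 4) := by positivity
    linarith
  -- a long interval
  obtain ⟨H1, hH1⟩ := exists_nat_ge (2 * (Q : ℝ) * 1 / (q / 4))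
  set H := x ^ N + x ^ 2 + H1 with hH
  have hH0 : 0 < H := by
    have : 0 < x ^ 2 := by
      have : 0 < x := by omega
      positivity
    omega
  have hHr : (0 : ℝ) < H := by exact_mod_cast hH0
  have h1 := iav_sub_mean hper hQ0 (fun n => norm_ind_le _) 0 hH0
  rw [Real.norm_eq_abs] at h1
  have h2 : 2 * (Q : ℝ) * 1 / H ≤ q / 4 := by
    rw [div_le_iff₀ hHr]
    have h3 : (H1 : ℝ) ≤ H := by
      have : H1 ≤ H := by omega
      exact_mod_cast this
    have h4 := hH1.trans h3
    rw [div_le_iff₀ (by positivity)] at h4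
    linarith
  have h3 := hN x (by omega) a ha hom 0 H (by omega)
  have h4 := hCB a x h5x 0 H (by omega)
  have hpt : ∀ n : ℤ, ind (s * UU a y x n ≤ T) + ind (T + 1 < s * RR a n x) ≤
      1 + 4 * BB a n x := by
    intro n
    have hBB : 0 ≤ BB a n x := by
      unfold BB
      refine sum_nonneg fun l hl => ?_
      split_ifs
      · have := ww_pos hl
        positivity
      · exact le_rfl
    by_cases hA : s * UU a y x n ≤ T
    · by_cases hB : T + 1 < s * RR a n x
      · rw [ind_pos hA, ind_pos hB]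
        have e1 := RR_sub a n h5x
        have e2 := small_part a n hy (by omega : y ≤ x) hL1
        have e3 := WW_split a n (by omega : y ≤ x)
        have e4 : |s * (RR a n x - UU a y x n)| ≤ BB a n x + 1 / 4 + 1 / 2 := by
          have e5 : RR a n x - UU a y x n = (RR a n x - WW a n x) +
              ∑ l ∈ pr y, ww x l * FF a l n := by
            rw [e3]
            ring
          have e6 : |s| = 1 := by
            rcases hs with rfl | rfl <;> norm_num
          rw [abs_mul, e6, one_mul, e5]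
          refine (abs_add_le _ _).trans ?_
          linarith
        have e7 := (abs_le.1 e4).2
        have e8 : s * (RR a n x - UU a y x n) = s * RR a n x - s * UU a y x n := by ring
        rw [e8] at e7
        linarith
      · rw [ind_pos hA, ind_neg hB]
        linarith
    · rw [ind_neg hA]
      have := ind_le_one (T + 1 < s * RR a n x)
      linarith
  have h5 := iav_mono (M := 0) (H := H) hpt
  rw [iav_add, iav_add, iav_const 0 hH0, iav_const_mul] at h5
  have h6 := (abs_le.1 h1).1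
  linarith

/-- a chain of blocks -/
lemma chain {κ : ℝ} (hκ : 0 ≤ κ) {s : ℝ} (hs : s = 1 ∨ s = -1) (T : ℝ) {X0 : ℕ} (hX0 : 5 ≤ X0)
    {q : ℝ} (hq1 : q ≤ 1) (hq : ∀ y : ℕ, 5 ≤ y → ∃ x : ℕ, y ≤ x ∧
      4 * (y * Real.log y) ≤ Real.log x ∧ ∀ a : ℤ, a ≠ 0 → oml a ≤ κ →
        mean (∏ l ∈ pr x \ pr y, l) (fun n => ind (s * UU a y x n ≤ T + 1 / 2)) ≤ 1 - q) (J : ℕ) :
    ∃ X1 : ℕ, X0 ≤ X1 ∧ ∀ a : ℤ, a ≠ 0 → oml a ≤ κ →
      mean (∏ l ∈ pr X1, l) (fun n => ind (∀ x : ℕ, X0 ≤ x → x ≤ X1 → s * WW a n x ≤ T)) ≤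
        (1 - q) ^ J := by
  induction J with
  | zero =>
    refine ⟨X0, le_rfl, fun a _ _ => ?_⟩
    rw [pow_zero]
    have hQ0 := prod_pr_pos (pr X0) X0 (Subset.refl _)
    exact (mean_mono fun n => ind_le_one _).trans (le_of_eq (mean_const hQ0 1))
  | succ J ih =>
    obtain ⟨X1, hX1, h1⟩ := ih
    obtain ⟨X2, hX2, hlog, h2⟩ := hq X1 (by omega)
    refine ⟨X2, by omega, fun a ha hom => ?_⟩
    have e1 := h1 a ha hom
    have e2 := h2 a ha hom
    set Q1 := ∏ l ∈ pr X1, l with hQ1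
    set Q' := ∏ l ∈ pr X2 \ pr X1, l with hQ'
    have hQ10 : 0 < Q1 := prod_pr_pos (pr X1) X1 (Subset.refl _)
    have hQ'0 : 0 < Q' := prod_pr_pos _ X2 sdiff_subset
    have hQ2 : ∏ l ∈ pr X2, l = Q1 * Q' := by
      rw [hQ1, hQ', mul_comm]
      exact (prod_sdiff (pr_mono hX2)).symm
    have hcop : Nat.Coprime Q1 Q' := by
      rw [hQ1, hQ']
      refine Nat.Coprime.prod_left fun l hl => Nat.Coprime.prod_right fun m hm => ?_
      have hl' := hl
      rw [mem_sdiff] at hm
      rw [mem_pr] at hl'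
      have hm' := hm.1
      rw [mem_pr] at hm'
      rw [Nat.coprime_primes hl'.2.2 hm'.2.2]
      rintro rfl
      exact hm.2 hl
    have hper1 : Per Q1 (fun n => ind (∀ x : ℕ, X0 ≤ x → x ≤ X1 → s * WW a n x ≤ T)) := by
      intro n
      have h3 : ∀ x : ℕ, x ≤ X1 → WW a (n + (Q1 : ℤ)) x = WW a n x := by
        intro x hx
        unfold WW
        refine sum_congr rfl fun l hl => ?_
        rw [FF_per (pr_mono hx hl)]
      have h4 : (∀ x : ℕ, X0 ≤ x → x ≤ X1 → s * WW a (n + (Q1 : ℤ)) x ≤ T) ↔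
          (∀ x : ℕ, X0 ≤ x → x ≤ X1 → s * WW a n x ≤ T) := by
        constructor
        · intro h x hx hx'
          rw [← h3 x hx']
          exact h x hx hx'
        · intro h x hx hx'
          rw [h3 x hx']
          exact h x hx hx'
      simp only
      rw [h4]
    have hper2 : Per Q' (fun n => ind (s * UU a X1 X2 n ≤ T + 1 / 2)) := by
      intro n
      have h3 : UU a X1 X2 (n + (Q' : ℤ)) = UU a X1 X2 n := by
        unfold UU
        refine sum_congr rfl fun l hl => ?_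
        rw [FF_per hl]
      simp only
      rw [h3]
    have h5 := mean_mul_coprime hQ10 hQ'0 hcop hper1 hper2
    rw [hQ2]
    have h6 : mean (Q1 * Q') (fun n => ind (∀ x : ℕ, X0 ≤ x → x ≤ X2 → s * WW a n x ≤ T)) ≤
        mean (Q1 * Q') (fun n => ind (∀ x : ℕ, X0 ≤ x → x ≤ X1 → s * WW a n x ≤ T) *
          ind (s * UU a X1 X2 n ≤ T + 1 / 2)) := by
      refine mean_mono fun n => ?_
      by_cases h : ∀ x : ℕ, X0 ≤ x → x ≤ X2 → s * WW a n x ≤ T
      · have h7 : ∀ x : ℕ, X0 ≤ x → x ≤ X1 → s * WW a n x ≤ T := fun x hx hx' =>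
          h x hx (hx'.trans hX2)
        have h8 : s * UU a X1 X2 n ≤ T + 1 / 2 := by
          have h9 := h X2 (by omega) le_rfl
          rw [WW_split a n hX2] at h9
          have h10 := small_part a n (by omega : 5 ≤ X1) hX2 hlog
          have h11 : |s * ∑ l ∈ pr X1, ww X2 l * FF a l n| ≤ 1 / 2 := by
            have e6 : |s| = 1 := by
              rcases hs with rfl | rfl <;> norm_num
            rw [abs_mul, e6, one_mul]
            exact h10
          have h12 := (abs_le.1 h11).1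
          rw [mul_add] at h9
          linarith
        rw [ind_pos h, ind_pos h7, ind_pos h8]
        norm_num
      · rw [ind_neg h]
        exact mul_nonneg (ind_nonneg _) (ind_nonneg _)
    refine h6.trans ?_
    rw [h5, pow_succ]
    refine mul_le_mul e1 e2 ?_ (pow_nonneg (by linarith) J)
    have : (0 : ℝ) ≤ mean Q' (fun n => ind (s * UU a X1 X2 n ≤ T + 1 / 2)) := by
      have h7 := mean_mono (q := Q') (u := fun _ => (0 : ℝ))
        (v := fun n => ind (s * UU a X1 X2 n ≤ T + 1 / 2)) (fun n => ind_nonneg _)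
      rwa [mean_const hQ'0] at h7
    exact this

open Classical in
/-- the primes of bad reduction with logarithmic weights -/
noncomputable def BS (a n : ℤ) (x : ℕ) : ℝ :=
  ∑ l ∈ pr x, if ((l : ℤ) ∣ 4 * a ^ 3 + 27 * n ^ 2) then 2 * Real.log l / Real.sqrt l else 0

lemma BS_nonneg (a n : ℤ) (x : ℕ) : 0 ≤ BS a n x := by
  unfold BS
  refine sum_nonneg fun l hl => ?_
  rw [mem_pr] at hl
  have := log_pos_of hl.1
  split_ifs
  · positivity
  · exact le_rfl

lemma BB_le (a n : ℤ) {X0 x X1 : ℕ} (h0 : 5 ≤ X0) (h1 : X0 ≤ x) (h2 : x ≤ X1) :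
    BB a n x ≤ BS a n X1 / Real.log X0 := by
  classical
  have hL0 : 0 < Real.log X0 := by linarith [log_pos_of h0]
  have hLx : Real.log X0 ≤ Real.log x := by
    have h3 : (5 : ℝ) ≤ X0 := by exact_mod_cast h0
    have h4 : (X0 : ℝ) ≤ x := by exact_mod_cast h1
    exact Real.log_le_log (by linarith) h4
  have e1 : BB a n x = BS a n x / Real.log x := by
    unfold BB BS
    rw [sum_div]
    refine sum_congr rfl fun l _ => ?_
    unfold ww
    split_ifs <;> ring
  have e2 : BS a n x ≤ BS a n X1 := by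
    unfold BS
    refine sum_le_sum_of_subset_of_nonneg (pr_mono h2) fun l hl _ => ?_
    rw [mem_pr] at hl
    have := log_pos_of hl.1
    split_ifs
    · positivity
    · exact le_rfl
  rw [e1]
  calc BS a n x / Real.log x ≤ BS a n X1 / Real.log x :=
        div_le_div_of_nonneg_right e2 (by linarith)
    _ ≤ BS a n X1 / Real.log X0 := by
        have := BS_nonneg a n X1
        gcongr

lemma iav_BS : ∃ C : ℝ, 0 ≤ C ∧ ∀ (a : ℤ) (x : ℕ) (M : ℤ) (H : ℕ), x ^ 2 ≤ H →
    iav M H (fun n => BS a n x) ≤ C := by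
  classical
  obtain ⟨C, hC0, hC⟩ := sum_L_le
  refine ⟨8 * C, by positivity, fun a x M H hH => ?_⟩
  have h1 : (fun n : ℤ => BS a n x) = fun n => ∑ l ∈ pr x, (2 * Real.log l / Real.sqrt l) *
      (if ((l : ℤ) ∣ 4 * a ^ 3 + 27 * n ^ 2) then (1 : ℝ) else 0) := by
    funext n
    unfold BS
    refine sum_congr rfl fun l _ => ?_
    split_ifs <;> ring
  rw [h1, iav_sum (pr x) M H (fun (l : ℕ) (n : ℤ) => (2 * Real.log l / Real.sqrt l) *
      (if ((l : ℤ) ∣ 4 * a ^ 3 + 27 * n ^ 2) then (1 : ℝ) else 0))]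
  refine le_trans ?_ (mul_le_mul_of_nonneg_left (hC (pr x) fun l hl => by
    rw [mem_pr] at hl
    omega) (by norm_num))
  rw [mul_sum]
  refine sum_le_sum fun l hl => ?_
  rw [mem_pr] at hl
  rw [iav_const_mul]
  have hl0 : (0 : ℝ) < l := by exact_mod_cast hl.2.2.pos
  have hs0 : 0 < Real.sqrt l := Real.sqrt_pos.2 hl0
  have hw := log_pos_of hl.1
  have h2 := iav_bad a hl.2.2 hl.1 M ((Nat.pow_le_pow_left hl.2.1 2).trans hH)
  calc 2 * Real.log l / Real.sqrt l * iav M H (fun n => if ((l : ℤ) ∣ 4 * a ^ 3 + 27 * n ^ 2)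
        then (1 : ℝ) else 0) ≤ 2 * Real.log l / Real.sqrt l * (4 / l) := by gcongr
    _ = 8 * (Real.log l / (l * Real.sqrt l)) := by
      field_simp
      ring

/-- For almost all members `± S` exceeds `T` below a fixed height. -/
theorem osc {κ : ℝ} (hκ : 0 ≤ κ) {s : ℝ} (hs : s = 1 ∨ s = -1) (T : ℝ) {δ : ℝ} (hδ : 0 < δ)
    (X0 : ℕ) : ∃ X1 H0 : ℕ, ∀ a : ℤ, a ≠ 0 → oml a ≤ κ → ∀ (M : ℤ) (H : ℕ), H0 ≤ H →
      iav M H (fun n => ind (∀ x : ℕ, X0 ≤ x → x ≤ X1 → s * RR a n x ≤ T)) ≤ δ := by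
  obtain ⟨q, hq0, hq⟩ := block hκ hs (T + 1 + 1 / 2)
  obtain ⟨CS, hCS0, hCS⟩ := iav_BS
  -- the lower end
  obtain ⟨x1, hx1⟩ := exists_nat_ge (Real.exp (8 + 2 * CS / (δ / 2)))
  set X0' := X0 + 5 + x1 with hX0'
  have h5 : 5 ≤ X0' := by omega
  have hX0r : (0 : ℝ) < X0' := by
    have : 0 < X0' := by omega
    exact_mod_cast this
  have hL : 8 + 2 * CS / (δ / 2) ≤ Real.log X0' := by
    rw [Real.le_log_iff_exp_le hX0r]
    refine hx1.trans ?_
    have : x1 ≤ X0' := by omega
    exact_mod_cast this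
  have hCδ : 0 ≤ 2 * CS / (δ / 2) := by positivity
  have hL0 : 0 < Real.log X0' := by linarith
  have hq' : ∀ y : ℕ, 5 ≤ y → ∃ x : ℕ, y ≤ x ∧
      4 * (y * Real.log y) ≤ Real.log x ∧ ∀ a : ℤ, a ≠ 0 → oml a ≤ κ →
        mean (∏ l ∈ pr x \ pr y, l) (fun n => ind (s * UU a y x n ≤ T + 1 + 1 / 2)) ≤
          1 - min q 1 := by
    intro y hy
    obtain ⟨x, h1, h2, h3⟩ := hq y hy
    refine ⟨x, h1, h2, fun a ha hom => (h3 a ha hom).trans ?_⟩
    have := min_le_left q 1
    linarith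
  have hqm : 0 < min q 1 := lt_min hq0 one_pos
  obtain ⟨J, hJ⟩ := exists_pow_lt_of_lt_one (show 0 < δ / 4 by positivity)
    (show 1 - min q 1 < 1 by linarith)
  obtain ⟨X1, hX1, hX1'⟩ := chain hκ hs (T + 1) h5 (min_le_right q 1) hq' J
  set Q := ∏ l ∈ pr X1, l with hQ
  have hQ0 : 0 < Q := prod_pr_pos (pr X1) X1 (Subset.refl _)
  obtain ⟨H1, hH1⟩ := exists_nat_ge (2 * (Q : ℝ) * 1 / (δ / 4))
  refine ⟨X1, H1 + X1 ^ 2, fun a ha hom M H hH => ?_⟩
  have hH2 : X1 ^ 2 ≤ H := by omega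
  have hH0 : 0 < H := by
    have : 0 < X1 ^ 2 := by
      have : 0 < X1 := by omega
      positivity
    omega
  have hHr : (0 : ℝ) < H := by exact_mod_cast hH0
  have h1 : 2 * (Q : ℝ) * 1 / H ≤ δ / 4 := by
    rw [div_le_iff₀ hHr]
    have h3 : (H1 : ℝ) ≤ H := by
      have : H1 ≤ H := by omega
      exact_mod_cast this
    have h4 := hH1.trans h3
    rw [div_le_iff₀ (by positivity)] at h4
    linarith
  have hper : Per Q (fun n => ind (∀ x : ℕ, X0' ≤ x → x ≤ X1 → s * WW a n x ≤ T + 1)) := by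
    intro n
    have h3 : ∀ x : ℕ, x ≤ X1 → WW a (n + (Q : ℤ)) x = WW a n x := by
      intro x hx
      unfold WW
      refine sum_congr rfl fun l hl => ?_
      rw [FF_per (pr_mono hx hl)]
    have h4 : (∀ x : ℕ, X0' ≤ x → x ≤ X1 → s * WW a (n + (Q : ℤ)) x ≤ T + 1) ↔
        (∀ x : ℕ, X0' ≤ x → x ≤ X1 → s * WW a n x ≤ T + 1) := by
      constructor
      · intro h x hx hx'
        rw [← h3 x hx']
        exact h x hx hx'
      · intro h x hx hx'
        rw [h3 x hx']
        exact h x hx hx'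
    simp only
    rw [h4]
  have h2 := iav_sub_mean hper hQ0 (fun n => norm_ind_le _) M hH0
  rw [Real.norm_eq_abs] at h2
  have h3 := (abs_le.1 h2).2
  have h4 := hX1' a ha hom
  have h6 := hCS a X1 M H hH2
  have hpt : ∀ n : ℤ, ind (∀ x : ℕ, X0 ≤ x → x ≤ X1 → s * RR a n x ≤ T) ≤
      ind (∀ x : ℕ, X0' ≤ x → x ≤ X1 → s * WW a n x ≤ T + 1) +
        (2 / Real.log X0') * BS a n X1 := by
    intro n
    have hBS := BS_nonneg a n X1
    by_cases hA : ∀ x : ℕ, X0 ≤ x → x ≤ X1 → s * RR a n x ≤ T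
    · by_cases hB : ∀ x : ℕ, X0' ≤ x → x ≤ X1 → s * WW a n x ≤ T + 1
      · rw [ind_pos hA, ind_pos hB]
        have : 0 ≤ (2 / Real.log X0') * BS a n X1 := by positivity
        linarith
      · rw [ind_pos hA, ind_neg hB]
        push Not at hB
        obtain ⟨x, hx1, hx2, hx3⟩ := hB
        have e1 := hA x (by omega) hx2
        have e2 := RR_sub a n (by omega : 5 ≤ x)
        have e3 := BB_le a n h5 hx1 hx2
        have e4 : 4 / Real.log x ≤ 1 / 2 := by
          have e5 : Real.log X0' ≤ Real.log x := by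
            have e6 : (X0' : ℝ) ≤ x := by exact_mod_cast hx1
            exact Real.log_le_log hX0r e6
          rw [div_le_iff₀ (by linarith)]
          linarith
        have e6 : |s| = 1 := by
          rcases hs with rfl | rfl <;> norm_num
        have e7 : |s * (RR a n x - WW a n x)| ≤ BS a n X1 / Real.log X0' + 1 / 2 := by
          rw [abs_mul, e6, one_mul]
          linarith
        have e8 := (abs_le.1 e7).1
        have e9 : s * (RR a n x - WW a n x) = s * RR a n x - s * WW a n x := by ring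
        rw [e9] at e8
        have e10 : (2 / Real.log X0') * BS a n X1 = 2 * (BS a n X1 / Real.log X0') := by ring
        rw [e10]
        linarith
    · rw [ind_neg hA]
      have h7 := ind_nonneg (∀ x : ℕ, X0' ≤ x → x ≤ X1 → s * WW a n x ≤ T + 1)
      have : 0 ≤ (2 / Real.log X0') * BS a n X1 := by positivity
      linarith
  have h7 := iav_mono (M := M) (H := H) hpt
  rw [iav_add, iav_const_mul] at h7
  have h8 : (2 / Real.log X0') * iav M H (fun n => BS a n X1) ≤ δ / 2 := by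
    calc (2 / Real.log X0') * iav M H (fun n => BS a n X1) ≤ (2 / Real.log X0') * CS := by gcongr
      _ = 2 * CS / Real.log X0' := by ring
      _ ≤ δ / 2 := by
        rw [div_le_iff₀ hL0]
        have h9 : 2 * CS / (δ / 2) ≤ Real.log X0' := by linarith
        rw [div_le_iff₀ (by positivity)] at h9
        linarith
  linarith

end Pool.Agent.Y834.BF
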