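import Pool.Agent.Y834.BF.Exp

/-!
# The product of Birch and Swinnerton-Dyer in the pencil, pointwise
-/

set_option autoImplicit false
set_option linter.all false

namespace Pool.Agent.Y834.BF

open Finset

/-- `∏ #E(𝔽_l)/l` over the primes `l ≤ x`, `l ∤ 16 (4 a³ + 27 n²)` -/
noncomputable def bsd (a n : ℤ) (x : ℕ) : ℝ :=
  ∏ l ∈ (Ioc 0 x).filter (fun l : ℕ => l.Prime ∧ ¬ ((l : ℤ) ∣ 16 * (4 * a ^ 3 + 27 * n ^ 2))),
    ((aff a n l : ℝ) + 1) / l

/-- the primes `5 ≤ l ≤ x` -/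
def pr (x : ℕ) : Finset ℕ := (Ioc 4 x).filter Nat.Prime

noncomputable def FF (a : ℤ) (l : ℕ) (n : ℤ) : ℝ := ap a n l / l

noncomputable def EE (a : ℤ) (l : ℕ) : ℝ := mean l (fun n => (ap a n l / l) ^ 2)

noncomputable def SS (a n : ℤ) (x : ℕ) : ℝ := ∑ l ∈ pr x, FF a l n

noncomputable def VV (a n : ℤ) (x : ℕ) : ℝ := ∑ l ∈ pr x, ((FF a l n) ^ 2 - EE a l)

open Classical in
noncomputable def DD (a n : ℤ) (x : ℕ) : ℝ :=
  ∑ l ∈ pr x, if ((l : ℤ) ∣ 4 * a ^ 3 + 27 * n ^ 2) then 5 / Real.sqrt l else 0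

lemma mem_pr {x l : ℕ} : l ∈ pr x ↔ 5 ≤ l ∧ l ≤ x ∧ l.Prime := by
  unfold pr
  rw [mem_filter, mem_Ioc]
  constructor
  · rintro ⟨⟨h1, h2⟩, h3⟩
    exact ⟨h1, h2, h3⟩
  · rintro ⟨h1, h2, h3⟩
    exact ⟨⟨h1, h2⟩, h3⟩

lemma sq_le {a : ℤ} {l : ℕ} (hl : l.Prime) (h5 : 5 ≤ l) (n : ℤ) : (ap a n l / l) ^ 2 ≤ 4 / l := by
  haveI := Fact.mk hl
  have hb := abs_ap_le (by omega : l ≠ 2) a n
  have hl0 : (0 : ℝ) < l := by exact_mod_cast hl.pos
  rw [div_pow, div_le_div_iff₀ (by positivity) hl0]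
  have h1 : (ap a n l) ^ 2 ≤ (2 * Real.sqrt l) ^ 2 := by
    rw [← sq_abs]
    exact pow_le_pow_left₀ (abs_nonneg _) hb 2
  rw [mul_pow, Real.sq_sqrt hl0.le] at h1
  nlinarith

lemma EE_nonneg (a : ℤ) (l : ℕ) : 0 ≤ EE a l := by
  unfold EE mean
  positivity

lemma EE_le {a : ℤ} {l : ℕ} (hl : l.Prime) (h5 : 5 ≤ l) : EE a l ≤ 4 / l := by
  unfold EE
  refine (mean_mono fun n => sq_le hl h5 n).trans (le_of_eq ?_)
  exact mean_const hl.pos _

/-- the sum of the reciprocals of the prime divisors -/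
noncomputable def om (a : ℤ) : ℝ := ∑ l ∈ a.natAbs.primeFactors, 1 / (l : ℝ)

lemma om_nonneg (a : ℤ) : 0 ≤ om a := by
  unfold om
  exact sum_nonneg fun l _ => by positivity

lemma sum_EE : ∃ C : ℝ, 0 ≤ C ∧ ∀ a : ℤ, a ≠ 0 → ∀ s : Finset ℕ, (∀ l ∈ s, l.Prime ∧ 5 ≤ l) →
    |∑ l ∈ s, (EE a l - 1 / l)| ≤ C + 4 * om a := by
  classical
  obtain ⟨C, hC0, hC⟩ := sum_T_le
  refine ⟨3 * C, by positivity, fun a ha s hs => ?_⟩
  refine (abs_sum_le_sum_abs _ _).trans ?_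
  have h1 : ∀ l ∈ s, |EE a l - 1 / l| ≤ 3 * (1 / ((l : ℝ) * Real.sqrt l)) +
      (if l ∣ a.natAbs then 4 * (1 / (l : ℝ)) else 0) := by
    intro l hl
    obtain ⟨hp, h5⟩ := hs l hl
    haveI := Fact.mk hp
    have hl0 : (0 : ℝ) < l := by exact_mod_cast hp.pos
    have hT : 0 ≤ 3 * (1 / ((l : ℝ) * Real.sqrt l)) := by positivity
    split_ifs with hd
    · have h2 := EE_nonneg a l
      have h3 := EE_le (a := a) hp h5
      have h7 : 0 < 1 / (l : ℝ) := by positivity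
      have h9 : 4 / (l : ℝ) = 4 * (1 / l) := by ring
      have h8 : |EE a l - 1 / l| ≤ 4 * (1 / l) := by
        rw [abs_le]
        constructor <;> linarith
      linarith
    · have hd' : ¬ ((l : ℤ) ∣ a) := by rwa [Int.natCast_dvd]
      have h2 := mean_ap_sq h5 hd'
      rw [add_zero]
      refine h2.trans ?_
      rw [mul_one_div]
      have hs0 : 0 < Real.sqrt l := Real.sqrt_pos.2 hl0
      have h3 : Real.sqrt l ≤ l := by
        rw [Real.sqrt_le_left hl0.le]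
        have : (5 : ℝ) ≤ l := by exact_mod_cast h5
        nlinarith
      have h4 : (l : ℝ) * Real.sqrt l ≤ (l : ℝ) ^ 2 := by
        rw [sq]
        exact mul_le_mul_of_nonneg_left h3 hl0.le
      gcongr
  refine (sum_le_sum h1).trans ?_
  rw [sum_add_distrib, ← mul_sum]
  have h2 := hC s
  have h3 : ∑ l ∈ s, (if l ∣ a.natAbs then 4 * (1 / (l : ℝ)) else 0) ≤ 4 * om a := by
    rw [← sum_filter, ← mul_sum]
    unfold om
    refine mul_le_mul_of_nonneg_left ?_ (by norm_num)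
    refine sum_le_sum_of_subset_of_nonneg ?_ fun l _ _ => by positivity
    intro l hl
    rw [mem_filter] at hl
    exact Nat.mem_primeFactors.2 ⟨(hs l hl.1).1, hl.2, Int.natAbs_ne_zero.2 ha⟩
  linarith

lemma aff_three (a n : ℤ) : |Real.log (((aff a n 3 : ℝ) + 1) / 3)| ≤ 3 := by
  have h1 : aff a n 3 ≤ 9 := by
    unfold aff
    rw [Nat.card_eq_fintype_card]
    refine (Fintype.card_subtype_le _).trans ?_
    rw [Fintype.card_prod, ZMod.card]
  have h2 : (aff a n 3 : ℝ) ≤ 9 := by exact_mod_cast h1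
  have h3 : (0 : ℝ) ≤ aff a n 3 := Nat.cast_nonneg _
  have hpos : 0 < ((aff a n 3 : ℝ) + 1) / 3 := by positivity
  rw [abs_le]
  constructor
  · have h4 := Real.one_sub_inv_le_log_of_pos hpos
    have h5 : (((aff a n 3 : ℝ) + 1) / 3)⁻¹ ≤ 3 := by
      rw [inv_div, div_le_iff₀ (by positivity)]
      linarith
    linarith
  · have h4 := Real.log_le_sub_one_of_pos hpos
    linarith

/-- The logarithm of the product is `(1/2) log log x - S - V/2` up to a bounded error and the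
contribution of the primes of bad reduction. -/
theorem pointwise : ∃ C : ℝ, 0 ≤ C ∧ ∀ a : ℤ, a ≠ 0 → ∀ (n : ℤ) (x : ℕ), 5 ≤ x →
    |Real.log (bsd a n x) - 1 / 2 * Real.log (Real.log x) + SS a n x + 1 / 2 * VV a n x| ≤
      C + 2 * om a + DD a n x := by
  classical
  obtain ⟨CT, hCT0, hCT⟩ := sum_T_le
  obtain ⟨CM, hCM0, hCM⟩ := mert
  obtain ⟨CE, hCE0, hCE⟩ := sum_EE
  refine ⟨3 + 2000 * CT + CM / 2 + CE / 2, by positivity, fun a ha n x hx => ?_⟩
  set disc : ℤ := 4 * a ^ 3 + 27 * n ^ 2 with hdisc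
  set gd := (pr x).filter (fun l : ℕ => ¬ ((l : ℤ) ∣ disc)) with hgd
  have hprm : ∀ l ∈ pr x, l.Prime ∧ 5 ≤ l := fun l hl => by
    rw [mem_pr] at hl
    exact ⟨hl.2.2, hl.1⟩
  -- the logarithm of the product
  have hlog : ∃ c3 : ℝ, |c3| ≤ 3 ∧ Real.log (bsd a n x) =
      c3 + ∑ l ∈ gd, Real.log (((aff a n l : ℝ) + 1) / l) := by
    set G := (Ioc 0 x).filter (fun l : ℕ => l.Prime ∧ ¬ ((l : ℤ) ∣ 16 * disc)) with hG
    have h1 : Real.log (bsd a n x) = ∑ l ∈ G, Real.log (((aff a n l : ℝ) + 1) / l) := by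
      unfold bsd
      rw [Real.log_prod]
      intro l hl
      rw [mem_filter] at hl
      have h2 : (0 : ℝ) < l := by exact_mod_cast hl.2.1.pos
      have h3 : (0 : ℝ) ≤ aff a n l := Nat.cast_nonneg _
      positivity
    have h2 : G.filter (fun l : ℕ => 5 ≤ l) = gd := by
      ext l
      simp only [hG, hgd, mem_filter, mem_Ioc, mem_pr]
      constructor
      · rintro ⟨⟨⟨h3, h4⟩, h5, h6⟩, h7⟩
        refine ⟨⟨h7, h4, h5⟩, fun h8 => h6 (h8.mul_left _)⟩
      · rintro ⟨⟨h3, h4, h5⟩, h6⟩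
        refine ⟨⟨⟨by omega, h4⟩, h5, fun h7 => ?_⟩, h3⟩
        have h8 : Prime (l : ℤ) := Nat.prime_iff_prime_int.1 h5
        rcases h8.dvd_or_dvd h7 with h9 | h9
        · have h10 : l ∣ 16 := by exact_mod_cast h9
          have h11 : l ∣ 2 ^ 4 := by norm_num; exact h10
          have h12 := h5.dvd_of_dvd_pow h11
          have := Nat.le_of_dvd (by norm_num) h12
          omega
        · exact h6 h9
    refine ⟨∑ l ∈ G.filter (fun l : ℕ => ¬ 5 ≤ l), Real.log (((aff a n l : ℝ) + 1) / l), ?_, ?_⟩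
    · have h3 : G.filter (fun l : ℕ => ¬ 5 ≤ l) ⊆ {3} := by
        intro l hl
        simp only [hG, mem_filter, mem_Ioc] at hl
        obtain ⟨⟨⟨h3, h4⟩, h5, h6⟩, h7⟩ := hl
        rw [mem_singleton]
        have h8 : l < 5 := by omega
        interval_cases l
        · exact absurd h5 (by norm_num)
        · exact absurd (by exact_mod_cast (show (2 : ℤ) ∣ 16 * disc from
            ⟨8 * disc, by ring⟩)) h6
        · rfl
        · exact absurd h5 (by norm_num)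
      rcases subset_singleton_iff.1 h3 with h4 | h4
      · rw [h4]
        simp
      · rw [h4, sum_singleton]
        exact_mod_cast aff_three a n
    · rw [h1, ← h2, add_comm]
      exact (sum_filter_add_sum_filter_not _ _ _).symm
  obtain ⟨c3, hc3, hlog⟩ := hlog
  set T : ℕ → ℝ := fun l => 1 / l - ap a n l / l - 1 / 2 * (ap a n l / l) ^ 2 with hT
  -- the good primes
  have h1 : |∑ l ∈ gd, (Real.log (((aff a n l : ℝ) + 1) / l) - T l)| ≤ 2000 * CT := by
    refine (abs_sum_le_sum_abs _ _).trans ?_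
    have h2 : ∀ l ∈ gd, |Real.log (((aff a n l : ℝ) + 1) / l) - T l| ≤
        2000 * (1 / ((l : ℝ) * Real.sqrt l)) := by
      intro l hl
      obtain ⟨h3, h4⟩ := hprm l (mem_filter.1 hl).1
      rw [mul_one_div]
      exact log_factor a n h3 h4
    refine (sum_le_sum h2).trans ?_
    rw [← mul_sum]
    exact mul_le_mul_of_nonneg_left (hCT _) (by norm_num)
  -- the bad primes
  have h2 : |∑ l ∈ (pr x).filter (fun l : ℕ => ((l : ℤ) ∣ disc)), T l| ≤ DD a n x := by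
    refine (abs_sum_le_sum_abs _ _).trans ?_
    unfold DD
    rw [← sum_filter]
    refine sum_le_sum fun l hl => ?_
    obtain ⟨h3, h4⟩ := hprm l (mem_filter.1 hl).1
    exact bad_term a n h3 h4
  have h3 := sum_filter_add_sum_filter_not (pr x) (fun l => ((l : ℤ) ∣ disc)) T
  rw [← hgd] at h3
  rw [sum_sub_distrib] at h1
  have h4 : ∑ l ∈ pr x, T l = ∑ l ∈ pr x, 1 / (l : ℝ) - SS a n x -
      1 / 2 * VV a n x - 1 / 2 * ∑ l ∈ pr x, EE a l := by
    unfold SS VV FF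
    simp only [hT, sum_sub_distrib, ← mul_sum]
    ring
  have h5 := hCE a ha (pr x) hprm
  rw [sum_sub_distrib] at h5
  have h6 := hCM x hx
  change |∑ l ∈ pr x, 1 / (l : ℝ) - Real.log (Real.log x)| ≤ CM at h6
  rw [hlog]
  have e1 := abs_le.1 h1
  have e2 := abs_le.1 h2
  have e5 := abs_le.1 h5
  have e6 := abs_le.1 h6
  have e3 := abs_le.1 hc3
  rw [abs_le]
  constructor <;> linarith [e1.1, e1.2, e2.1, e2.2, e5.1, e5.2, e6.1, e6.2, e3.1, e3.2]

end Pool.Agent.Y834.BF
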