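import Pool.Agent.Y834.BF.Max
import Pool.Agent.Y834.BF.Pt

/-!
# The maximal fourth moment of the sum over primes, and the primes of bad reduction on average
-/

set_option autoImplicit false
set_option linter.all false

namespace Pool.Agent.Y834.BF

open Finset

/-- the random variable of the prime `l` -/
noncomputable def KK (a : ℤ) (l : ℕ) (n : ℤ) : ℝ := FF a l n + 1 / 2 * ((FF a l n) ^ 2 - EE a l)

noncomputable def TT (a n : ℤ) (x : ℕ) : ℝ := ∑ l ∈ pr x, KK a l n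

lemma TT_eq (a n : ℤ) (x : ℕ) : TT a n x = SS a n x + 1 / 2 * VV a n x := by
  unfold TT SS VV KK
  rw [sum_add_distrib, mul_sum]

lemma per_FF (a : ℤ) (l : ℕ) : Per l (FF a l) := by
  intro n
  have h := ap_per a l n
  simp only at h
  unfold FF
  rw [h]

lemma per_KK (a : ℤ) (l : ℕ) : Per l (KK a l) := by
  intro n
  unfold KK
  rw [per_FF a l n]

lemma mean_FF (a : ℤ) {l : ℕ} (hl : l.Prime) (h5 : 5 ≤ l) : mean l (FF a l) = 0 := by
  haveI := Fact.mk hl
  have h := mean_ap (by omega : l ≠ 2) a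
  have h2 : FF a l = fun n => (1 / (l : ℝ)) * ap a n l := by
    funext n
    unfold FF
    ring
  rw [h2, mean_const_mul, h, mul_zero]

lemma mean_KK (a : ℤ) {l : ℕ} (hl : l.Prime) (h5 : 5 ≤ l) : mean l (KK a l) = 0 := by
  have h2 : KK a l = fun n => FF a l n + (1 / 2) * ((FF a l n) ^ 2 + (-EE a l)) := by
    funext n
    unfold KK
    ring
  have h3 : mean l (fun n => (FF a l n) ^ 2) = EE a l := rfl
  rw [h2, mean_add, mean_const_mul, mean_add, mean_const hl.pos, h3]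
  have h4 := mean_FF a hl h5
  rw [h4]
  ring

lemma abs_FF_le (a n : ℤ) {l : ℕ} (hl : l.Prime) (h5 : 5 ≤ l) : |FF a l n| ≤ 2 / Real.sqrt l := by
  haveI := Fact.mk hl
  have hb := abs_ap_le (by omega : l ≠ 2) a n
  have hl0 : (0 : ℝ) < l := by exact_mod_cast hl.pos
  have hs0 : 0 < Real.sqrt l := Real.sqrt_pos.2 hl0
  unfold FF
  rw [abs_div, abs_of_pos hl0, div_le_div_iff₀ hl0 hs0]
  have h1 : Real.sqrt l * Real.sqrt l = l := Real.mul_self_sqrt hl0.le
  nlinarith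

lemma abs_KK_le (a n : ℤ) {l : ℕ} (hl : l.Prime) (h5 : 5 ≤ l) : |KK a l n| ≤ 4 / Real.sqrt l := by
  have hl0 : (0 : ℝ) < l := by exact_mod_cast hl.pos
  have hl1 : (1 : ℝ) ≤ l := by exact_mod_cast hl.one_lt.le
  have hs0 : 0 < Real.sqrt l := Real.sqrt_pos.2 hl0
  have h1 := abs_FF_le a n hl h5
  have h2 := sq_le (a := a) hl h5 n
  have h3 := EE_nonneg a l
  have h4 := EE_le (a := a) hl h5
  have h5' : 0 ≤ (ap a n l / l) ^ 2 := sq_nonneg _
  have h6 : 4 / (l : ℝ) ≤ 4 / Real.sqrt l := by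
    have : Real.sqrt l ≤ l := by
      rw [Real.sqrt_le_left hl0.le]
      nlinarith
    gcongr
  have h7 : |(FF a l n) ^ 2 - EE a l| ≤ 4 / l := by
    unfold FF
    rw [abs_le]
    constructor <;> linarith
  unfold KK
  refine (abs_add_le _ _).trans ?_
  rw [abs_mul, abs_of_pos (by norm_num : (0 : ℝ) < 1 / 2)]
  have h8 : 2 / Real.sqrt l + 2 / Real.sqrt l = 4 / Real.sqrt l := by ring
  have h9 : (4 : ℝ) / Real.sqrt l = 2 * (2 / Real.sqrt l) := by ring
  linarith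

lemma fam (a : ℤ) {P : Finset ℕ} (hP : ∀ l ∈ P, l.Prime ∧ 5 ≤ l) :
    Fam P (KK a) (fun l => 4 / Real.sqrt l) := by
  refine ⟨fun p hp => (hP p hp).1, fun p hp => per_KK a p, fun p hp => ?_, fun p hp n => ?_,
    fun p hp => ?_⟩
  · exact mean_KK a (hP p hp).1 (hP p hp).2
  · exact abs_KK_le a n (hP p hp).1 (hP p hp).2
  · have : (0 : ℝ) < p := by exact_mod_cast (hP p hp).1.pos
    positivity

/-- the maximal fourth moment -/
lemma max_four (a : ℤ) {X : ℕ} (hX : 4 ≤ X) (M : ℤ) {H : ℕ} (hH : 2 * X ^ 12 ≤ H) (v : ℤ → ℕ)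
    (hv1 : ∀ n, 4 ≤ v n) (hv2 : ∀ n, v n ≤ X) :
    iav M H (fun n => |TT a n (v n)| ^ 4) ≤ 1366 * 6144 * (∑ l ∈ pr X, 1 / (l : ℝ)) ^ 2 := by
  classical
  set w : ℕ → ℝ := fun l => if l.Prime then 1 / (l : ℝ) else 0 with hw
  set G : ℕ → ℤ → ℝ := fun l n => if l.Prime then KK a l n else 0 with hG
  have hw0 : ∀ l, 0 ≤ w l := by
    intro l
    simp only [hw]
    split_ifs <;> positivity
  have hblock : ∀ u' v' : ℕ, 4 ≤ u' → u' ≤ v' → v' ≤ X →
      iav M H (fun n => |∑ l ∈ Ioc u' v', G l n| ^ 4) ≤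
        6144 * (∑ l ∈ Ioc u' v', w l) ^ 2 := by
    intro u' v' h1 h2 h3
    have hP : ∀ l ∈ (Ioc u' v').filter Nat.Prime, l.Prime ∧ 5 ≤ l := by
      intro l hl
      rw [mem_filter, mem_Ioc] at hl
      exact ⟨hl.2, by omega⟩
    have hPX : ∀ l ∈ (Ioc u' v').filter Nat.Prime, l ≤ X := by
      intro l hl
      rw [mem_filter, mem_Ioc] at hl
      omega
    have hlr : ∀ l ∈ (Ioc u' v').filter Nat.Prime, (1 : ℝ) ≤ l ∧ (1 : ℝ) ≤ Real.sqrt l ∧
        Real.sqrt l ≤ X := by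
      intro l hl
      have h4 : (1 : ℝ) ≤ l := by exact_mod_cast (hP l hl).1.one_lt.le
      have h5 : (l : ℝ) ≤ X := by exact_mod_cast hPX l hl
      refine ⟨h4, ?_, ?_⟩
      · rw [Real.one_le_sqrt]
        exact h4
      · refine le_trans ?_ h5
        rw [Real.sqrt_le_left (by linarith)]
        nlinarith
    have h4 := iav_four (fam a hP) (by omega : 1 ≤ X) hPX (κ := 4) (by norm_num)
      (fun p hp => by
        obtain ⟨e1, e2, e3⟩ := hlr p hp
        gcongr)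
      (fun p hp => by
        obtain ⟨e1, e2, e3⟩ := hlr p hp
        rw [div_le_iff₀ (by linarith)]
        linarith) M hH
    have h5 : (fun n : ℤ => |∑ l ∈ Ioc u' v', G l n| ^ 4) =
        fun n => |∑ l ∈ (Ioc u' v').filter Nat.Prime, KK a l n| ^ 4 := by
      funext n
      rw [sum_filter]
    have h6 : ∑ l ∈ (Ioc u' v').filter Nat.Prime, (4 / Real.sqrt l) ^ 2 =
        16 * ∑ l ∈ Ioc u' v', w l := by
      rw [mul_sum, sum_filter]
      refine sum_congr rfl fun l _ => ?_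
      simp only [hw]
      split_ifs
      · rw [div_pow, Real.sq_sqrt (Nat.cast_nonneg _)]
        ring
      · ring
    rw [h5]
    refine h4.trans (le_of_eq ?_)
    rw [h6]
    ring
  have h1 := maximal hw0 (G := G) (A := 6144) (by norm_num) (M := M) (H := H) (X - 4) 4 X
    (by omega) hblock v hv1 hv2
  have h2 : (fun n : ℤ => |∑ l ∈ Ioc 4 (v n), G l n| ^ 4) = fun n => |TT a n (v n)| ^ 4 := by
    funext n
    unfold TT pr
    rw [sum_filter]
  have h3 : ∑ l ∈ Ioc 4 X, w l = ∑ l ∈ pr X, 1 / (l : ℝ) := by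
    unfold pr
    rw [sum_filter]
  rw [h2, h3] at h1
  exact h1

lemma DD_mono (a n : ℤ) {x y : ℕ} (h : x ≤ y) : DD a n x ≤ DD a n y := by
  unfold DD
  refine sum_le_sum_of_subset_of_nonneg ?_ ?_
  · intro l hl
    rw [mem_pr] at hl ⊢
    exact ⟨hl.1, hl.2.1.trans h, hl.2.2⟩
  · intro l _ _
    split_ifs <;> positivity

lemma DD_nonneg (a n : ℤ) (x : ℕ) : 0 ≤ DD a n x := by
  unfold DD
  refine sum_nonneg fun l _ => ?_
  split_ifs <;> positivity

/-- the primes of bad reduction, for one prime -/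
lemma iav_bad (a : ℤ) {l : ℕ} (hl : l.Prime) (h5 : 5 ≤ l) (M : ℤ) {H : ℕ} (hH : l ^ 2 ≤ H)
    [DecidablePred fun n : ℤ => (l : ℤ) ∣ 4 * a ^ 3 + 27 * n ^ 2] :
    iav M H (fun n => if ((l : ℤ) ∣ 4 * a ^ 3 + 27 * n ^ 2) then (1 : ℝ) else 0) ≤ 4 / l := by
  haveI := Fact.mk hl
  have hl0 : (0 : ℝ) < l := by exact_mod_cast hl.pos
  have hH0 : 0 < H := lt_of_lt_of_le (pow_pos hl.pos 2) hH
  have hHr : (0 : ℝ) < H := by exact_mod_cast hH0
  set g : ℤ → ℝ := fun n => if ((l : ℤ) ∣ 4 * a ^ 3 + 27 * n ^ 2) then (1 : ℝ) else 0 with hg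
  have hper : Per l g := by
    intro n
    simp only [hg]
    have : ((l : ℤ) ∣ 4 * a ^ 3 + 27 * (n + l) ^ 2) ↔ ((l : ℤ) ∣ 4 * a ^ 3 + 27 * n ^ 2) := by
      have h1 : 4 * a ^ 3 + 27 * (n + l) ^ 2 = 4 * a ^ 3 + 27 * n ^ 2 +
          (l : ℤ) * (27 * (2 * n + l)) := by ring
      rw [h1]
      exact (Int.dvd_add_left (dvd_mul_right _ _))
    simp only [this]
  have hb : ∀ n, ‖g n‖ ≤ 1 := by
    intro n
    simp only [hg]
    split_ifs <;> simp
  have h1 := iav_sub_mean hper hl.pos hb M hH0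
  rw [Real.norm_eq_abs] at h1
  have h2 := (abs_le.1 h1).2
  have h3 : mean l g ≤ 2 / l := by
    unfold mean
    refine div_le_div_of_nonneg_right ?_ hl0.le
    classical
    set g' : ZMod l → ℝ := fun r => if (4 * (a : ZMod l) ^ 3 + 27 * r ^ 2 = 0) then 1 else 0
      with hg'
    have h4 : ∀ j : ℕ, g (j : ℤ) = g' (((j : ℕ) : ℤ) : ZMod l) := by
      intro j
      rw [Int.cast_natCast]
      simp only [hg, hg']
      have : ((l : ℤ) ∣ 4 * a ^ 3 + 27 * (j : ℤ) ^ 2) ↔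
          (4 * (a : ZMod l) ^ 3 + 27 * (j : ZMod l) ^ 2 = 0) := by
        rw [← ZMod.intCast_zmod_eq_zero_iff_dvd]
        push_cast
        rfl
      simp only [this]
    rw [sum_congr rfl fun j _ => h4 j, sum_range_zmod g']
    simp only [hg']
    rw [← sum_filter, sum_const, nsmul_eq_mul, mul_one]
    have h27 : (27 : ZMod l) ≠ 0 := by
      intro h0
      have h1 : ((27 : ℕ) : ZMod l) = 0 := by exact_mod_cast h0
      rw [ZMod.natCast_eq_zero_iff] at h1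
      have h2 : l ∣ 3 ^ 3 := by norm_num; exact h1
      have h3 := hl.dvd_of_dvd_pow h2
      have := Nat.le_of_dvd (by norm_num) h3
      omega
    have h5 : (univ.filter fun r : ZMod l => 4 * (a : ZMod l) ^ 3 + 27 * r ^ 2 = 0) ⊆
        univ.filter fun r : ZMod l => r ^ 2 = -(4 * (a : ZMod l) ^ 3) / 27 := by
      intro r hr
      rw [mem_filter] at hr ⊢
      refine ⟨mem_univ _, ?_⟩
      rw [eq_div_iff h27]
      linear_combination hr.2
    have h6 := (card_le_card h5).trans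
      (sqrts_le (ringChar_ne (by omega : l ≠ 2)) (-(4 * (a : ZMod l) ^ 3) / 27))
    exact_mod_cast h6
  have h4 : 2 * (l : ℝ) * 1 / H ≤ 2 / l := by
    rw [div_le_div_iff₀ hHr hl0]
    have h5 : (l : ℝ) ^ 2 ≤ H := by exact_mod_cast hH
    nlinarith
  have h5 : (4 : ℝ) / l = 2 / l + 2 / l := by ring
  rw [h5]
  linarith

/-- the primes of bad reduction, on average -/
lemma iav_DD : ∃ C : ℝ, 0 ≤ C ∧ ∀ (a : ℤ) (X : ℕ) (M : ℤ) (H : ℕ), X ^ 2 ≤ H →
    iav M H (fun n => DD a n X) ≤ C := by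
  classical
  obtain ⟨C, hC0, hC⟩ := sum_T_le
  refine ⟨20 * C, by positivity, fun a X M H hH => ?_⟩
  have h1 : (fun n : ℤ => DD a n X) = fun n => ∑ l ∈ pr X, (5 / Real.sqrt l) *
      (if ((l : ℤ) ∣ 4 * a ^ 3 + 27 * n ^ 2) then (1 : ℝ) else 0) := by
    funext n
    unfold DD
    refine sum_congr rfl fun l _ => ?_
    split_ifs <;> ring
  rw [h1, iav_sum (pr X) M H (fun (l : ℕ) (n : ℤ) => (5 / Real.sqrt l) *
      (if ((l : ℤ) ∣ 4 * a ^ 3 + 27 * n ^ 2) then (1 : ℝ) else 0))]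
  refine le_trans ?_ (mul_le_mul_of_nonneg_left (hC (pr X)) (by norm_num))
  rw [mul_sum]
  refine sum_le_sum fun l hl => ?_
  rw [mem_pr] at hl
  rw [iav_const_mul]
  have hl0 : (0 : ℝ) < l := by exact_mod_cast hl.2.2.pos
  have hs0 : 0 < Real.sqrt l := Real.sqrt_pos.2 hl0
  have h2 := iav_bad a hl.2.2 hl.1 M ((Nat.pow_le_pow_left hl.2.1 2).trans hH)
  calc 5 / Real.sqrt l * iav M H (fun n => if ((l : ℤ) ∣ 4 * a ^ 3 + 27 * n ^ 2) then (1 : ℝ)
        else 0) ≤ 5 / Real.sqrt l * (4 / l) := by gcongr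
    _ = 20 * (1 / (l * Real.sqrt l)) := by
      field_simp
      ring

end Pool.Agent.Y834.BF
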