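import Pool.Agent.Y834.BF.Clt

/-!
# The parameters with many small prime factors are rare
-/

set_option autoImplicit false
set_option linter.all false

namespace Pool.Agent.Y834.BF

open Finset

lemma sum_one_sq (A : ℕ) (hA : 1 ≤ A) : ∑ l ∈ Icc 2 A, 1 / (l : ℝ) ^ 2 ≤ 1 - 1 / (A : ℝ) := by
  induction A, hA using Nat.le_induction with
  | base => simp
  | succ A hA ih =>
    rw [sum_Icc_succ_top (by omega)]
    have hA0 : (0 : ℝ) < A := by exact_mod_cast hA
    have h1 : 1 / ((A + 1 : ℕ) : ℝ) ^ 2 ≤ 1 / (A : ℝ) - 1 / ((A + 1 : ℕ) : ℝ) := by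
      push_cast
      rw [div_sub_div _ _ hA0.ne' (by positivity), div_le_div_iff₀ (by positivity) (by positivity)]
      nlinarith
    linarith

lemma om_sum (A : ℕ) : ∑ m ∈ Icc 1 A, om (m : ℤ) ≤ A := by
  rcases Nat.eq_zero_or_pos A with rfl | hA
  · simp
  have hA0 : (0 : ℝ) < A := by exact_mod_cast hA
  have h1 : ∀ m ∈ Icc 1 A, om (m : ℤ) ≤ ∑ l ∈ Icc 2 A, if l ∣ m then 1 / (l : ℝ) else 0 := by
    intro m hm
    rw [mem_Icc] at hm
    unfold om
    rw [Int.natAbs_natCast, ← sum_filter]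
    refine sum_le_sum_of_subset_of_nonneg ?_ fun l _ _ => by positivity
    intro l hl
    have h2 := Nat.prime_of_mem_primeFactors hl
    have h3 := Nat.dvd_of_mem_primeFactors hl
    rw [mem_filter, mem_Icc]
    exact ⟨⟨h2.two_le, (Nat.le_of_dvd (by omega) h3).trans hm.2⟩, h3⟩
  refine (sum_le_sum h1).trans ?_
  rw [sum_comm]
  have h2 : ∀ l ∈ Icc 2 A, ∑ m ∈ Icc 1 A, (if l ∣ m then 1 / (l : ℝ) else 0) ≤
      A * (1 / (l : ℝ) ^ 2) := by
    intro l hl
    rw [mem_Icc] at hl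
    have hl0 : (0 : ℝ) < l := by
      have : 0 < l := by omega
      exact_mod_cast this
    rw [← sum_filter, sum_const, nsmul_eq_mul]
    have h3 : ((Icc 1 A).filter (fun m => l ∣ m)).card = A / l := Nat.Ioc_filter_dvd_card_eq_div A l
    rw [h3]
    have h4 : ((A / l : ℕ) : ℝ) ≤ A / l := Nat.cast_div_le
    calc ((A / l : ℕ) : ℝ) * (1 / l) ≤ (A / l) * (1 / l) := by gcongr
      _ = A * (1 / (l : ℝ) ^ 2) := by
        field_simp
  refine (sum_le_sum h2).trans ?_
  rw [← mul_sum]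
  have h3 := sum_one_sq A hA
  have h4 : 0 ≤ 1 / (A : ℝ) := by positivity
  have h5 : ∑ l ∈ Icc 2 A, 1 / (l : ℝ) ^ 2 ≤ 1 := by linarith
  calc (A : ℝ) * ∑ l ∈ Icc 2 A, 1 / (l : ℝ) ^ 2 ≤ A * 1 := by gcongr
    _ = A := mul_one _

/-- the integers `a` with `0 < |a| ≤ A` -/
noncomputable def nz (A : ℕ) : Finset ℤ := (Icc (-(A : ℤ)) A).filter (fun a => a ≠ 0)

lemma mem_nz {A : ℕ} {a : ℤ} : a ∈ nz A ↔ a ≠ 0 ∧ |a| ≤ A := by
  unfold nz
  rw [mem_filter, mem_Icc, abs_le]
  tauto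

lemma om_neg (a : ℤ) : om (-a) = om a := by
  unfold om
  rw [Int.natAbs_neg]

lemma nz_eq (A : ℕ) : nz A = (Icc 1 A).image (fun m : ℕ => (m : ℤ)) ∪
    (Icc 1 A).image (fun m : ℕ => -(m : ℤ)) := by
  ext a
  rw [mem_nz, mem_union, mem_image, mem_image]
  constructor
  · rintro ⟨h1, h2⟩
    rcases lt_or_gt_of_ne h1 with h | h
    · right
      refine ⟨a.natAbs, ?_, ?_⟩
      · rw [mem_Icc]
        rw [abs_of_neg h] at h2
        omega
      · omega
    · left
      refine ⟨a.natAbs, ?_, ?_⟩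
      · rw [mem_Icc]
        rw [abs_of_pos h] at h2
        omega
      · omega
  · rintro (⟨m, hm, rfl⟩ | ⟨m, hm, rfl⟩)
    · rw [mem_Icc] at hm
      refine ⟨by omega, ?_⟩
      rw [abs_of_nonneg (by omega)]
      omega
    · rw [mem_Icc] at hm
      refine ⟨by omega, ?_⟩
      rw [abs_of_nonpos (by omega)]
      omega

lemma card_nz (A : ℕ) : (nz A).card = 2 * A := by
  rw [nz_eq, card_union_of_disjoint, card_image_of_injective, card_image_of_injective,
    Nat.card_Icc]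
  · omega
  · intro x y h
    simp only at h
    omega
  · intro x y h
    simp only at h
    omega
  · rw [disjoint_left]
    intro a h1 h2
    rw [mem_image] at h1 h2
    obtain ⟨m, hm, rfl⟩ := h1
    obtain ⟨k, hk, h3⟩ := h2
    rw [mem_Icc] at hm hk
    omega

lemma om_sum_nz (A : ℕ) : ∑ a ∈ nz A, om a ≤ 2 * A := by
  have h1 := om_sum A
  rw [nz_eq]
  have h2 : ∀ s t : Finset ℤ, ∑ a ∈ s ∪ t, om a ≤ ∑ a ∈ s, om a + ∑ a ∈ t, om a := by
    intro s t
    rw [← sum_union_inter]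
    have : 0 ≤ ∑ a ∈ s ∩ t, om a := sum_nonneg fun a _ => om_nonneg a
    linarith
  refine (h2 _ _).trans ?_
  rw [sum_image, sum_image]
  · simp only [om_neg]
    linarith
  · intro x _ y _ h
    simp only at h
    omega
  · intro x _ y _ h
    simp only at h
    omega

/-- the parameters with many small prime factors are rare -/
lemma bad_a (A : ℕ) {κ : ℝ} (hκ : 0 < κ) [DecidablePred fun a : ℤ => κ < om a] :
    (((nz A).filter (fun a => κ < om a)).card : ℝ) ≤ 2 * A / κ := by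
  rw [le_div_iff₀ hκ]
  refine le_trans ?_ (om_sum_nz A)
  calc (((nz A).filter (fun a => κ < om a)).card : ℝ) * κ =
        ∑ a ∈ (nz A).filter (fun a => κ < om a), κ := by
        rw [sum_const, nsmul_eq_mul]
    _ ≤ ∑ a ∈ (nz A).filter (fun a => κ < om a), om a :=
        sum_le_sum fun a ha => (mem_filter.1 ha).2.le
    _ ≤ ∑ a ∈ nz A, om a :=
        sum_le_sum_of_subset_of_nonneg (filter_subset _ _) fun a _ _ => om_nonneg a

end Pool.Agent.Y834.BF
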