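import Pool.Agent.Y834.BF.ApClt

/-!
# The parameters with many small prime factors are rare, second version
-/

set_option autoImplicit false
set_option linter.all false

namespace Pool.Agent.Y834.BF

open Finset

lemma oml_sum : ∃ C : ℝ, 0 < C ∧ ∀ A : ℕ, ∑ m ∈ Icc 1 A, oml (m : ℤ) ≤ C * A := by
  obtain ⟨C, hC0, hC⟩ := sum_L_le
  refine ⟨C + 1, by positivity, fun A => ?_⟩
  rcases Nat.eq_zero_or_pos A with rfl | hA
  · simp
  have hA0 : (0 : ℝ) < A := by exact_mod_cast hA
  have h1 : ∀ m ∈ Icc 1 A, oml (m : ℤ) ≤ ∑ l ∈ Icc 2 A,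
      if l ∣ m then Real.log l / (l : ℝ) else 0 := by
    intro m hm
    rw [mem_Icc] at hm
    unfold oml
    rw [Int.natAbs_natCast, ← sum_filter]
    refine sum_le_sum_of_subset_of_nonneg ?_ fun l hl _ => ?_
    · intro l hl
      have h2 := Nat.prime_of_mem_primeFactors hl
      have h3 := Nat.dvd_of_mem_primeFactors hl
      rw [mem_filter, mem_Icc]
      exact ⟨⟨h2.two_le, (Nat.le_of_dvd (by omega) h3).trans hm.2⟩, h3⟩
    · rw [mem_filter, mem_Icc] at hl
      have h1 : (1 : ℝ) ≤ l := by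
        have : 1 ≤ l := by omega
        exact_mod_cast this
      have := Real.log_nonneg h1
      positivity
  refine (sum_le_sum h1).trans ?_
  rw [sum_comm]
  have h2 : ∀ l ∈ Icc 2 A, ∑ m ∈ Icc 1 A, (if l ∣ m then Real.log l / (l : ℝ) else 0) ≤
      A * (Real.log l / ((l : ℝ) * Real.sqrt l)) := by
    intro l hl
    rw [mem_Icc] at hl
    have hl1 : (1 : ℝ) ≤ l := by
      have : 1 ≤ l := by omega
      exact_mod_cast this
    have hl0 : (0 : ℝ) < l := by linarith
    have hlog := Real.log_nonneg hl1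
    have hs0 : 0 < Real.sqrt l := Real.sqrt_pos.2 hl0
    have hs3 : Real.sqrt l ≤ l := by
      rw [Real.sqrt_le_left hl0.le]
      nlinarith
    rw [← sum_filter, sum_const, nsmul_eq_mul]
    have h3 : ((Icc 1 A).filter (fun m => l ∣ m)).card = A / l := Nat.Ioc_filter_dvd_card_eq_div A l
    rw [h3]
    have h4 : ((A / l : ℕ) : ℝ) ≤ A / l := Nat.cast_div_le
    calc ((A / l : ℕ) : ℝ) * (Real.log l / l) ≤ (A / l) * (Real.log l / l) := by gcongr
      _ = A * (Real.log l / ((l : ℝ) * l)) := by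
        field_simp
      _ ≤ A * (Real.log l / ((l : ℝ) * Real.sqrt l)) := by gcongr
  refine (sum_le_sum h2).trans ?_
  rw [← mul_sum]
  have h3 := hC (Icc 2 A) (fun l hl => by
    rw [mem_Icc] at hl
    omega)
  calc (A : ℝ) * ∑ l ∈ Icc 2 A, Real.log l / ((l : ℝ) * Real.sqrt l) ≤ A * (C + 1) := by
        gcongr
        linarith
    _ = _ := mul_comm _ _

lemma oml_neg (a : ℤ) : oml (-a) = oml a := by
  unfold oml
  rw [Int.natAbs_neg]

/-- the parameters with many small prime factors are rare -/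
lemma bad_a2 : ∃ C : ℝ, 0 < C ∧ ∀ (A : ℕ) (κ : ℝ), 0 < κ →
    ∀ [DecidablePred fun a : ℤ => κ < oml a],
      (((nz A).filter (fun a => κ < oml a)).card : ℝ) ≤ 2 * A * C / κ := by
  obtain ⟨C, hC0, hC⟩ := oml_sum
  refine ⟨C, hC0, fun A κ hκ _ => ?_⟩
  have hsum : ∑ a ∈ nz A, oml a ≤ 2 * A * C := by
    have h1 := hC A
    rw [nz_eq]
    have h2 : ∀ s t : Finset ℤ, ∑ a ∈ s ∪ t, oml a ≤ ∑ a ∈ s, oml a + ∑ a ∈ t, oml a := by
      intro s t
      rw [← sum_union_inter]
      have : 0 ≤ ∑ a ∈ s ∩ t, oml a := sum_nonneg fun a _ => oml_nonneg a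
      linarith
    refine (h2 _ _).trans ?_
    rw [sum_image, sum_image]
    · simp only [oml_neg]
      linarith
    · intro x _ y _ h
      simp only at h
      omega
    · intro x _ y _ h
      simp only at h
      omega
  rw [le_div_iff₀ hκ]
  refine le_trans ?_ hsum
  calc (((nz A).filter (fun a => κ < oml a)).card : ℝ) * κ =
        ∑ a ∈ (nz A).filter (fun a => κ < oml a), κ := by
        rw [sum_const, nsmul_eq_mul]
    _ ≤ ∑ a ∈ (nz A).filter (fun a => κ < oml a), oml a :=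
        sum_le_sum fun a ha => (mem_filter.1 ha).2.le
    _ ≤ ∑ a ∈ nz A, oml a :=
        sum_le_sum_of_subset_of_nonneg (filter_subset _ _) fun a _ _ => oml_nonneg a

end Pool.Agent.Y834.BF
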